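import Pool.Agent.Lib.DK.D.Spec

/-!
# Theorem DK, part D, module D2: the primes above `𝔭`
-/

set_option autoImplicit false

open scoped Pointwise nonZeroDivisors

noncomputable section

namespace Pool.Agent.DK

open Pool.Agent.MuZ Pool.Agent.FW NumberField IsDedekindDomain
open Pool.Agent.DI (io ofC io_inj exists_io io_ofC ofC_io VP MP UP TP ex sqr sqr_sq kap)

private theorem D2_vp2 {P : Ideal ZZ} [P.IsPrime] : VP P (2 : Om) := by
  have := DI.VP.nat (P := P) 2
  exact_mod_cast this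

private theorem D2_two_mul {P : Ideal ZZ} [P.IsPrime] (h2 : MP P 2) {x : Om} (hx : VP P x) :
    MP P (2 * x) := DI.MP.mul_right h2 hx

private theorem D2_quad {P : Ideal ZZ} [P.IsPrime] {X c : Om} (hX : VP P X) (hc : VP P c) :
    ∃ y : Om, VP P y ∧ y ^ 2 + X * y = c := by
  obtain ⟨s, hs⟩ := IsAlgClosed.exists_pow_nat_eq (X ^ 2 + 4 * c) (n := 2) two_pos
  have h2 : (2 : Om) ≠ 0 := two_ne_zero
  have hy : ((s - X) / 2) ^ 2 + X * ((s - X) / 2) = c := by
    field_simp
    linear_combination hs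
  refine ⟨(s - X) / 2, ?_, hy⟩
  generalize (s - X) / 2 = y at hy
  by_cases hy0 : y = 0
  · rw [hy0]
    exact DI.VP.zero
  · rcases DI.VP.or_inv (P := P) y with h | h
    · exact h
    · exfalso
      have e : (1 : Om) = c * y⁻¹ * y⁻¹ - X * y⁻¹ := by
        field_simp
        linear_combination hy
      apply DI.MP.one_not (P := P)
      rw [e]
      exact DI.MP.sub (DI.MP.mul_left (hc.mul h.vp) h) (DI.MP.mul_left hX h)

theorem sD2 (hL6 : S_L6) (hXO : S_XOm) (hDU : S_DUn) (hKT : S_KTST) (hD1 : S_D1) : S_D2 := by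
  intro k _ b hb P hP
  obtain ⟨hNp, hP2, hPw⟩ := hP
  have hPp : P.IsPrime := hNp.1
  have hnb : ¬ AbPb k P := fun h => by
    apply DI.MP.one_not (P := P)
    have e : (1 : Om) = wO k + (1 - wO k) := by ring
    rw [e]
    exact DI.MP.add hPw h.2.2
  obtain ⟨hTT, hTS, hS, hST, -, hT⟩ := hKT k b hb P hNp hnb
  obtain ⟨⟨hT1, hT2, hT3⟩, -, -, -, -, -, -, -⟩ := hL6 k b hb
  obtain ⟨⟨hper, -⟩, -, -, -, -, hSm, -, hpp, -⟩ := hXO k b hb
  obtain ⟨-, -, hppz⟩ := hpp
  obtain ⟨-, -, -, -, hQp, -, -⟩ := hD1 k b hb P hNp hnb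
  obtain ⟨hdU, -, -, -, -, -⟩ := hDU k b hb P hNp hnb
  have hIT : IK P b (ptT b) := hT ⟨hNp, hP2, hPw⟩
  have hnI : ∀ z : ℂ, Tor k z → ¬ IK P b z → z ∉ Lam b ∧ VP P (xO b z) := by
    intro z hz h
    constructor
    · intro h1
      exact h ⟨hz, Or.inl h1⟩
    · by_contra h1
      exact h ⟨hz, Or.inr h1⟩
  have hppb : pp k * b ≠ ⊥ := by
    have h1 : pp k ≠ ⊥ := by
      intro h
      have h2 : (2 : OO k) ∈ pp k := Ideal.subset_span (by simp)
      rw [h] at h2
      have h3 : (2 : OO k) = 0 := by simpa using h2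
      have h4 := congrArg QuadraticAlgebra.re h3
      have h5 : ((2 : ℕ) : OO k).re = (2 : ℕ) := re_nat 2
      rw [Nat.cast_ofNat] at h5
      rw [h5] at h4
      simp at h4
    have h : pp k * b ≠ 0 := mul_ne_zero (by simpa using h1) (by simpa using hb)
    simpa using h
  obtain ⟨-, -, htU, -, -, -⟩ := hDU k (pp k * b) hppb P hNp hnb
  refine ⟨hIT, hS, hST, ?_, ?_, ?_, ?_⟩
  · intro z hz h
    obtain ⟨hzL, hX⟩ := hnI z hz h
    have hzp : z ∉ Lam (pp k * b) := by
      intro h1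
      rcases hT3 z h1 with h2 | h2
      · exact hzL h2
      · apply h
        refine ⟨hz, Or.inr ?_⟩
        have e : xO b z = xO b (ptT b) := by
          have := hper (ptT b) (z - ptT b) h2
          rwa [add_sub_cancel] at this
        rw [e]
        rcases hIT.2 with h3 | h3
        · exact absurd h3 hT2
        · exact h3
    have hrel := hppz z hz hzp
    have ht := htU.1
    have hd := hdU.1
    have h4 : MP P (4 * xO b z) := by
      have e : 4 * xO b z = 2 * (2 * xO b z) := by ring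
      rw [e]
      exact D2_two_mul hP2 (D2_vp2.mul hX)
    have hU : UP P (4 * xO b z + 1) := by
      apply DI.UP.congr (DI.UP.one (P := P))
      rw [add_sub_cancel_right]
      exact h4
    have hV4 : VP P (4 * xO b z) := h4.vp
    have hq : VP P (1 + 4 * tO (pp k * b)) := by
      have e : 1 + 4 * tO (pp k * b) = 1 + 2 * (2 * tO (pp k * b)) := by ring
      rw [e]
      exact DI.VP.one.add (D2_vp2.mul (D2_vp2.mul ht))
    have h4d : VP P (4 * dO b) := by
      have e : 4 * dO b = 2 * (2 * dO b) := by ring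
      rw [e]
      exact D2_vp2.mul (D2_vp2.mul hd)
    have hX' : VP P (xO (pp k * b) z) := by
      have hne : 4 * xO b z + 1 ≠ 0 := hU.ne_zero
      have e : xO (pp k * b) z = (1 + 4 * tO (pp k * b)) ^ 2 * (xO b z * (xO b z + 4 * dO b)) *
          (4 * xO b z + 1)⁻¹ := by
        rw [← hrel]
        field_simp
      rw [e]
      exact (((hq.pow 2).mul (hX.mul (hX.add h4d)))).mul (hU.inv).1
    refine ⟨?_, ?_⟩
    · rintro ⟨-, h5 | h5⟩
      · exact hzp h5
      · exact h5 hX'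
    · have e : xO (pp k * b) z - xO b z ^ 2 =
          2 * (xO b z ^ 2 * (2 * (2 * tO (pp k * b)) * (1 + 2 * tO (pp k * b))) +
            2 * dO b * xO b z * (1 + 4 * tO (pp k * b)) ^ 2 - 2 * (xO b z * xO (pp k * b) z)) := by
        linear_combination hrel
      rw [e]
      refine D2_two_mul hP2 (DI.VP.sub (DI.VP.add ?_ ?_) ?_)
      · exact (hX.pow 2).mul ((D2_vp2.mul (D2_vp2.mul ht)).mul (DI.VP.one.add (D2_vp2.mul ht)))
      · exact ((D2_vp2.mul hd).mul hX).mul (hq.pow 2)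
      · exact D2_vp2.mul (hX.mul hX')
  · intro z hz h
    obtain ⟨-, hX⟩ := hnI z hz h
    have hd := hdU.1
    apply D2_quad hX
    refine DI.VP.add (DI.VP.add (hX.pow 3) ?_) (hd.mul hX)
    have e : 4 * dO b * xO b z ^ 2 = 2 * (2 * dO b) * xO b z ^ 2 := by ring
    rw [e]
    exact (D2_vp2.mul (D2_vp2.mul hd)).mul (hX.pow 2)
  · intro z hz h
    have h1 : ¬ IK P b z := fun h2 => h (hQp z h2)
    exact ⟨h1, (hnI z hz h1).2⟩
  · intro z hz h h'
    have h1 : ¬ IK P b z := fun h2 => h (hQp z h2)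
    obtain ⟨hzL, hX⟩ := hnI z hz h1
    have hz' : Tor k (z + ptS b) := tor_add hz hTS
    obtain ⟨hzL', hX'⟩ := hnI _ hz' h'
    obtain ⟨hx0, hprod⟩ := hSm z hz hzL hzL'
    rw [DI.UP.iff]
    refine ⟨hx0, hX, ?_⟩
    have hd0 : dO b ≠ 0 := hdU.ne_zero
    have e : (xO b z)⁻¹ = xO b (z + ptS b) * (dO b)⁻¹ := by
      rw [← hprod]
      have h2 : xO b (z + ptS b) ≠ 0 := by
        intro h3
        rw [h3, zero_mul] at hprod
        exact hd0 hprod.symm
      field_simp
    rw [e]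
    exact hX'.mul hdU.inv.1

end Pool.Agent.DK
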