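import Pool.Agent.Lib.DK.D.Spec

/-!
# Theorem DK, module D3: Kronecker's congruence
-/

set_option autoImplicit false

open scoped Pointwise nonZeroDivisors

noncomputable section

namespace Pool.Agent.DK

open Pool.Agent.MuZ Pool.Agent.FW NumberField IsDedekindDomain
open Pool.Agent.DI (io ofC io_inj exists_io io_ofC ofC_io VP MP UP TP ex sqr sqr_sq kap)

variable {k : ℕ}

/-- A product of factors congruent to `c`. -/
private theorem D3_prod {P : Ideal ZZ} [hP : P.IsPrime] {c : Om} (hc : VP P c) (R : Finset ℂ)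
    (f : ℂ → Om) (h : ∀ u ∈ R, MP P (f u - c)) :
    VP P (∏ u ∈ R, f u) ∧ MP P (∏ u ∈ R, f u - c ^ R.card) := by
  classical
  induction R using Finset.induction_on with
  | empty =>
    rw [Finset.prod_empty, Finset.card_empty, pow_zero, sub_self]
    exact ⟨VP.one, MP.zero⟩
  | insert a s ha ih =>
    obtain ⟨h1, h2⟩ := ih fun u hu => h u (Finset.mem_insert_of_mem hu)
    have h3 := h a (Finset.mem_insert_self a s)
    have h4 : VP P (f a) := by
      have h5 := h3.vp.add hc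
      rwa [sub_add_cancel] at h5
    rw [Finset.prod_insert ha, Finset.card_insert_of_notMem ha]
    refine ⟨h4.mul h1, ?_⟩
    have e : f a * ∏ u ∈ s, f u - c ^ (s.card + 1) =
        (f a - c) * ∏ u ∈ s, f u + c * (∏ u ∈ s, f u - c ^ s.card) := by
      ring
    rw [e]
    exact (MP.mul_right h3 h1).add (MP.mul_left hc h2)

theorem sD3 (hL3 : S_L3) (hL6 : S_L6) (hX : S_XOm) (hDUn : S_DUn) (hKTST : S_KTST) (hD1 : S_D1)
    (hPrC : S_PrC) (hFer : S_Fer) (hD3a : S_D3a) : S_D3 := by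
  intro k _ q l hq hl Q hQ hA b hb
  have hQ1 : Q.IsPrime := hQ.1
  obtain ⟨hF1, -, h2, hnb, hq2⟩ := hFer k q l hq hl Q hQ hA
  have hq0 : q ≠ ⊥ := hq.2.1
  have hqb : q * b ≠ ⊥ := fun h => by
    rcases Ideal.mul_eq_bot.1 h with h | h
    · exact hq0 h
    · exact hb h
  obtain ⟨hker, -⟩ := hD3a k q l hq hl Q hQ hA b hb
  obtain ⟨R, hR, hRc⟩ := (hL3 k q b hq0 hb).2.2
  have hRl : R.card = l := by rw [hRc, hq.2.2.2]
  obtain ⟨-, C, -, -, hC2, hCz⟩ := hPrC k q b hq0 hb hq2 R hR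
  rw [hq.2.2.2] at hC2
  obtain ⟨-, -, -, -, -, hD16, -⟩ := hD1 k b hb Q hQ hnb
  have hIK : ∀ (c : Ideal (OO k)) (z : ℂ), Tor k z → ¬ IK Q c z → z ∉ Lam c ∧ VP Q (xO c z) := by
    intro c z hz h
    constructor
    · exact fun h1 => h ⟨hz, Or.inl h1⟩
    · by_contra h1
      exact h ⟨hz, Or.inr h1⟩
  -- the congruence with the constant
  have hst : ∀ z : ℂ, Tor k z → ¬ IK Q b z → z ∉ Lam (q * b) ∧ VP Q (C * xO (q * b) z) ∧
      MP Q (C * xO (q * b) z - xO b z ^ l) := by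
    intro z hz h
    have h1 : z ∉ Lam (q * b) := fun h1 => h (hker z h1)
    obtain ⟨h3, h4⟩ := D3_prod (hIK b z hz h).2 R (fun u => xO b (z + u))
      fun u hu => hD16 z u hz h (hker u (hR.mem u hu))
    rw [hCz z hz h1] at h3 h4
    rw [hRl] at h4
    exact ⟨h1, h3, h4⟩
  -- the constant
  have h4n : ¬ MP Q (4 : Om) := by
    intro h
    have e : (4 : Om) = 2 * 2 := by norm_num
    have h2v : VP Q (2 : Om) := by exact_mod_cast VP.nat (P := Q) 2
    rw [e] at h
    rcases MP.mul_cases h2v h2v h with h | h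
    · exact h2 h
    · exact h2 h
  have hC1 : MP Q (C - 1) := by
    obtain ⟨t1, -, -, -, t5, -⟩ := hKTST k b hb Q hQ hnb
    obtain ⟨-, -, h5⟩ := hst (ptT b) t1 (t5 h2)
    have e1 : xO b (ptT b) = -1 / 4 := (hX k b hb).1.2.2.2.2.1
    have e2 : xO (q * b) (ptT b) = -1 / 4 := by
      have h6 : ptT (q * b) - ptT b ∈ Lam (q * b) :=
        ((hL6 k b hb).2.2.2.2.2.1 q hq0 hq2).1
      have h7 := (hX k (q * b) hqb).1.1 (ptT b) _ h6
      rw [add_sub_cancel] at h7
      rw [← h7]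
      exact (hX k (q * b) hqb).1.2.2.2.2.1
    rw [e1, e2] at h5
    have h8 := hF1 (-1) 4 (by exact_mod_cast h4n)
    push_cast at h8
    have h9 := h5.add h8
    have e3 : C * (-1 / 4) - (-1 / 4) ^ l + ((-1 / 4) ^ l - -1 / 4) = (C - 1) * (-1 / 4 : Om) := by
      ring
    rw [e3] at h9
    have h10 : VP Q (-4 : Om) := by exact_mod_cast VP.int (P := Q) (-4)
    have h11 := MP.mul_right h9 h10
    have e4 : (C - 1) * (-1 / 4 : Om) * -4 = C - 1 := by ring
    rwa [e4] at h11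
  have hCU : UP Q C := UP.congr UP.one hC1
  refine ⟨hker, ?_, ?_⟩
  · have h5 : VP Q (dO (q * b)) := (hDUn k (q * b) hqb Q hQ hnb).1.1
    have e : dO (q * b) - dO b ^ l = -((C - 1) * ((C + 1) * dO (q * b))) := by
      linear_combination hC2
    rw [e]
    exact (MP.mul_right hC1 ((hCU.1.add VP.one).mul h5)).neg
  · intro z hz h
    obtain ⟨h5, h6, h7⟩ := hst z hz h
    have h8 : VP Q (xO (q * b) z) := by
      have h9 := hCU.inv.1.mul h6
      rwa [inv_mul_cancel_left₀ hCU.ne_zero] at h9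
    refine ⟨?_, ?_⟩
    · rintro ⟨-, h9 | h9⟩
      · exact h5 h9
      · exact h9 h8
    · have e : xO (q * b) z - xO b z ^ l =
          (C * xO (q * b) z - xO b z ^ l) - (C - 1) * xO (q * b) z := by ring
      rw [e]
      exact h7.sub (MP.mul_right hC1 h8)

end Pool.Agent.DK
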