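import Pool.Agent.Lib.DK.D.Spec

/-!
# Theorem DK, module D4: valuation of the `q`-torsion
-/

set_option autoImplicit false

noncomputable section

namespace Pool.Agent.DK

open Pool.Agent.MuZ Pool.Agent.FW NumberField IsDedekindDomain
open Pool.Agent.DI (io ofC io_inj exists_io io_ofC ofC_io VP MP UP TP ex sqr sqr_sq kap)

variable {k : ℕ}

/-- Every class modulo a prime ideal of degree one contains a natural number. -/
private theorem D4_nat {q : Ideal (OO k)} {l : ℕ} (hl : l.Prime) (hN : NI q = l) (v : OO k) :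
    ∃ n : ℕ, v - n ∈ q := by
  have hN' : Nat.card (OO k ⧸ q) = l := hN
  have hfin : Finite (OO k ⧸ q) := Nat.finite_of_card_ne_zero (by rw [hN']; exact hl.ne_zero)
  let _ : Fintype (OO k ⧸ q) := Fintype.ofFinite _
  have hc : Fintype.card (OO k ⧸ q) = l := by rw [← Nat.card_eq_fintype_card]; exact hN'
  haveI : NeZero l := ⟨hl.ne_zero⟩
  let e : ZMod l ≃+* (OO k ⧸ q) := ZMod.ringEquivOfPrime (OO k ⧸ q) hl hc
  refine ⟨(e.symm (Ideal.Quotient.mk q v)).val, ?_⟩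
  rw [← Ideal.Quotient.eq]
  have h1 : e ((e.symm (Ideal.Quotient.mk q v)).val : ZMod l) = Ideal.Quotient.mk q v := by
    rw [ZMod.natCast_zmod_val, RingEquiv.apply_symm_apply]
  rw [map_natCast] at h1
  rw [map_natCast]
  exact h1.symm

/-- The number of nonzero classes. -/
private theorem D4_card {a b : Ideal (OO k)} {l : ℕ} {R : Finset ℂ} (hR : IsSys a b R)
    (hc : R.card = l) [DecidablePred fun u => u ∈ Lam b] :
    (R.filter fun u => ¬ u ∈ Lam b).card = l - 1 := by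
  obtain ⟨u0, hu0, hl0⟩ := hR.ex 0 (lam_zero _)
  have hl0' : u0 ∈ Lam b := by
    have := lam_neg hl0
    simpa using this
  have h1 : R.filter (fun u => u ∈ Lam b) = {u0} := by
    ext u
    rw [Finset.mem_filter, Finset.mem_singleton]
    constructor
    · rintro ⟨h, h'⟩
      exact hR.uni u h u0 hu0 (lam_sub h' hl0')
    · rintro rfl
      exact ⟨hu0, hl0'⟩
  have h2 := Finset.card_filter_add_card_filter_not (s := R) (fun u => u ∈ Lam b)
  rw [h1, Finset.card_singleton, hc] at h2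
  omega

theorem sD4 (hL3 : S_L3) (hB7 : S_B7) (hX : S_XOm) (_hD1 : S_D1) (hPr : S_PrC) (hFer : S_Fer)
    (hD3a : S_D3a) (hRef : S_Ref) (hDUn : S_DUn) : S_D4 := by
  classical
  intro k _ la l hdeg hl2 Q hQ hla b hb u hu hLu
  haveI : Q.IsPrime := hQ.1
  have hq0 : sp la ≠ ⊥ := hdeg.2.1
  have hla0 : la ≠ 0 := fun h => hq0 (by rw [h]; exact Ideal.span_singleton_eq_bot.2 rfl)
  have hl := hdeg.2.2.1
  have habv : Abv Q (sp la) := by
    intro v hv
    obtain ⟨c, rfl⟩ := Ideal.mem_span_singleton'.1 hv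
    rw [toO_mul]
    exact MP.mul_left (toO_VP c) hla
  obtain ⟨-, -, h2, hQb, hPq⟩ := hFer k (sp la) l hdeg hl2 Q hQ habv
  obtain ⟨hL3a, hL3b, R, hR, hRc⟩ := hL3 k (sp la) b hq0 hb
  rw [hdeg.2.2.2] at hRc
  obtain ⟨hla1, C, hC0, hCdef, hCd, -⟩ := hPr k (sp la) b hq0 hb hPq R hR
  obtain ⟨hB7a, -⟩ := hB7 k b hb
  obtain ⟨-, hBd, -, hBs⟩ := hB7a la hla0
  -- `laO q b = la ^ 2`
  have hs0 : s2 b ≠ 0 := by
    intro h0
    apply hC0
    have h3 : laO (sp la) b = 0 := by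
      apply io_inj
      rw [hla1, h0, div_zero, map_zero]
    rw [hCdef, h3, zero_mul]
  have hlaO : laO (sp la) b = toO la ^ 2 := by
    apply io_inj
    rw [hla1, hBs, map_pow, io_toO, mul_div_cancel_right₀ _ hs0]
  -- `C` is a unit
  obtain ⟨ud, -⟩ := hDUn k b hb Q hQ hQb
  have hdq : dO (sp la * b) = dO b := by
    unfold dO
    rw [hBd]
  have uC : UP Q C := by
    refine UP.of_pow (n := 2) two_pos ?_
    rw [hdq] at hCd
    have h3 : C ^ 2 = dO b ^ NI (sp la) / dO b := by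
      rw [← hCd, mul_div_cancel_right₀ _ ud.ne_zero]
    rw [h3]
    exact (ud.pow _).div ud
  -- the torsion is in the kernel
  have hmem : ∀ u' : ℂ, u' ∈ Lam (sp la * b) → u' ∉ Lam b → ¬ VP Q (xO b u') := by
    intro u' hu' hL'
    exact (((hD3a k (sp la) l hdeg hl2 Q hQ habv b hb).1 u' hu').2).resolve_left hL'
  have hqb : sp la * b ≠ ⊥ := fun h => (Ideal.mul_eq_bot.1 h).elim hq0 hb
  have hT : ∀ u' : ℂ, u' ∈ Lam (sp la * b) → Tor k u' := fun u' h => tor_lam hqb h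
  have hmax : (sp la).IsMaximal := hdeg.1.isMaximal hq0
  have hu' : u ∈ Lam (sp la * b) := lam_sp.2 hu
  -- quotients
  have hquo : ∀ u1 u2 : ℂ, u1 ∈ Lam (sp la * b) → u1 ∉ Lam b → u2 ∈ Lam (sp la * b) →
      u2 ∉ Lam b → VP Q (xO b u1 / xO b u2) := by
    intro u1 u2 hu1 hL1 hu2 hL2
    obtain ⟨n1, m1⟩ := VP.not_iff.1 (hmem u1 hu1 hL1)
    have hadd := hRef k b hb Q hQ hQb (xO b u1)⁻¹ m1
    obtain ⟨-, hgen⟩ := hL3b u1 hu1 (by
      intro a' ha'
      have h3 : a' = ⊤ := hmax.1.2 a' ha'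
      rw [h3, Ideal.top_mul]
      exact hL1)
    obtain ⟨v, hv⟩ := hgen u2 hu2
    obtain ⟨n, hn⟩ := D4_nat hl hdeg.2.2.2 v
    obtain ⟨c, hc⟩ := Ideal.mem_span_singleton'.1 hn
    have hv' : u2 - (n : ℂ) * u1 ∈ Lam b := by
      have h4 : toC v = toC (c * la) + n := by
        rw [hc, toC_sub, toC_nat]
        ring
      have h5 : u2 - (n : ℂ) * u1 = (u2 - toC v * u1) + toC c * (toC la * u1) := by
        rw [h4, toC_mul]
        ring
      rw [h5]
      exact lam_add hv (lam_mul c (lam_sp.1 hu1))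
    have j1 : Tor k u1 ∧ (u1 ∈ Lam b ∨ (xO b u1 ≠ 0 ∧ TP Q (xO b u1)⁻¹ (xO b u1)⁻¹)) :=
      ⟨hT u1 hu1, Or.inr ⟨n1, 1, VP.one, by rw [mul_one]⟩⟩
    have jn : ∀ n : ℕ, Tor k ((n : ℂ) * u1) ∧ ((n : ℂ) * u1 ∈ Lam b ∨
        (xO b ((n : ℂ) * u1) ≠ 0 ∧ TP Q (xO b u1)⁻¹ (xO b ((n : ℂ) * u1))⁻¹)) := by
      intro n
      induction n with
      | zero =>
        rw [Nat.cast_zero, zero_mul]
        exact ⟨tor_zero, Or.inl (lam_zero b)⟩
      | succ n ih =>
        have h6 := hadd _ _ ih j1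
        have h7 : ((n + 1 : ℕ) : ℂ) * u1 = (n : ℂ) * u1 + u1 := by
          push_cast
          ring
        rw [h7]
        exact h6
    have j3 := hadd _ _ (jn n) ⟨tor_lam hb hv', Or.inl hv'⟩
    rw [add_sub_cancel] at j3
    rcases j3.2 with h | ⟨-, y, hy, he⟩
    · exact absurd h hL2
    · rw [div_eq_mul_inv, he, mul_inv_cancel_left₀ n1]
      exact hy
  have hn0 : ∀ u1 : ℂ, u1 ∈ Lam (sp la * b) → u1 ∉ Lam b → xO b u1 ≠ 0 := fun u1 h h' =>
    (VP.not_iff.1 (hmem u1 h h')).1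
  have hun : ∀ u1 : ℂ, u1 ∈ Lam (sp la * b) → u1 ∉ Lam b → UP Q (xO b u1 / xO b u) := by
    intro u1 h h'
    refine UP.iff.2 ⟨div_ne_zero (hn0 u1 h h') (hn0 u hu' hLu), hquo u1 u h h' hu' hLu, ?_⟩
    rw [inv_div]
    exact hquo u u1 hu' hLu h h'
  have hz := hn0 u hu' hLu
  have e1 : ∏ u1 ∈ R, (if u1 ∈ Lam b then (1 : Om) else xO b u1) =
      xO b u ^ (l - 1) * ∏ u1 ∈ R, (if u1 ∈ Lam b then (1 : Om) else xO b u1 / xO b u) := by
    have e2 : ∏ u1 ∈ R, (if u1 ∈ Lam b then (1 : Om) else xO b u) = xO b u ^ (l - 1) := by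
      rw [Finset.prod_ite, Finset.prod_const_one, one_mul, Finset.prod_const, D4_card hR hRc]
    rw [← e2, ← Finset.prod_mul_distrib]
    refine Finset.prod_congr rfl fun u1 _ => ?_
    split_ifs
    · rw [one_mul]
    · rw [mul_div_cancel₀ _ hz]
  have hq : UP Q (∏ u1 ∈ R, (if u1 ∈ Lam b then (1 : Om) else xO b u1 / xO b u)) := by
    refine UP.prod _ _ fun u1 hu1 => ?_
    split_ifs with hL'
    · exact UP.one
    · exact hun u1 (hR.mem u1 hu1) hL'
  have hc : UP Q (toO la ^ 2 * xO b u ^ (l - 1) *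
      ∏ u1 ∈ R, (if u1 ∈ Lam b then (1 : Om) else xO b u1 / xO b u)) := by
    rw [mul_assoc, ← e1, ← hlaO]
    convert uC using 1
    rw [hCdef]
  have h3 := hc.div hq
  rw [mul_div_cancel_right₀ _ hq.ne_zero] at h3
  refine UP.of_pow (n := 2) two_pos ?_
  obtain ⟨m, hm⟩ := hl.odd_of_ne_two hl2
  have e3 : (l - 1) / 2 = m := by omega
  have e4 : l - 1 = m * 2 := by omega
  rw [e3, mul_pow, ← pow_mul, ← e4]
  exact h3

end Pool.Agent.DK
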