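import Pool.Agent.Lib.DK.D.Spec

/-!
# Theorem DK, part D: theta is a unit
-/

set_option autoImplicit false

open scoped Pointwise

noncomputable section

namespace Pool.Agent.DK

open Pool.Agent.MuZ Pool.Agent.FW NumberField IsDedekindDomain
open Pool.Agent.DI (io ofC io_inj exists_io io_ofC ofC_io VP MP UP TP ex sqr sqr_sq kap)

variable {k : ℕ}

private theorem D5_core (hB14 : S_B14) (hThU : S_ThU) [SqK k] (m b : Ideal (OO k)) (hm : m ≠ ⊥)
    (hb : b ≠ ⊥) (h2 : PrI m 2) (Q : Ideal ZZ) (hQ : Npr Q) (hQ' : ¬ AbPb k Q) (z : ℂ)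
    (hz : Tor k z) (hu : ∀ u ∈ Lam (m * b), ¬ Qp Q b (z + u)) : UP Q (Theta m b z) := by
  have hP := hQ.1
  have hS := (hB14 k m b hm hb h2).1
  have h := (hThU k m b hm hb h2 Q hQ hQ' z hz hu).2.2
  unfold Theta
  refine DI.UP.prod _ _ fun u hu => DI.UP.pow ?_ 3
  exact (h u (hS.mem u hu).1 (hS.mem u hu).2).1

theorem sD5 (hO3 : S_O3) (hB14 : S_B14) (hR4 : S_R4) (hAbQ : S_AbQ) (hThU : S_ThU)
    (hQpC : S_QpC) (hThC : S_ThC) : S_D5 := by
  intro k _ m b hm hb h2 Q hQ z hz hu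
  by_cases hQ' : AbPb k Q
  · obtain ⟨c, hc, hc'⟩ := hR4.2
    obtain ⟨_, _, _, hPbP⟩ := hc' k b hb
    obtain ⟨o1, o2, o3, o4, o5, o6⟩ := hO3 k
    have hcQ : AbP k (c • Q) := hPbP Q hQ'
    have hcQ' : ¬ AbPb k (c • Q) := fun h => (hAbQ k).2.2.2.2.1 (c • Q) |>.2.2.1 ⟨hcQ, h⟩
    have hne : ∀ a : Ideal (OO k), a ≠ ⊥ → cjI a ≠ ⊥ := by
      intro a ha h
      obtain ⟨v, hv, hv0⟩ := Submodule.exists_mem_ne_zero_of_ne_bot ha
      have h1 : cjO v ∈ cjI a := by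
        rw [o1, cjO_cjO]
        exact hv
      rw [h, Ideal.mem_bot] at h1
      apply hv0
      rw [← cjO_cjO v, h1, cjO_zero]
    have hzb : z ∉ Lam b := by
      intro h
      refine hu 0 (lam_zero _) ?_
      rw [add_zero]
      intro α β _ _
      exact lam_mul β h
    have hcz : Tor k ((starRingEnd ℂ) z) := (hQpC k c hc Q b z hQ hb).2.2.2.2.1.2 hz
    have hnpr : Npr (c • Q) := (hQpC k c hc Q b z hQ hb).2.1
    have hu' : ∀ u ∈ Lam (cjI m * cjI b), ¬ Qp (c • Q) (cjI b) ((starRingEnd ℂ) z + u) := by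
      intro u hum hq
      have h1 : (starRingEnd ℂ) u ∈ Lam (m * b) := by
        rw [← o2] at hum
        intro v hv
        have h3 : cjO v ∈ cjI (m * b) := by
          rw [o1, cjO_cjO]
          exact hv
        obtain ⟨w, hw⟩ := hum (cjO v) h3
        refine ⟨cjO w, ?_⟩
        rw [← conj_toC w, ← hw, map_mul, conj_toC, cjO_cjO]
      refine hu _ h1 ((hQpC k c hc Q b (z + (starRingEnd ℂ) u) hQ hb).1.1 ?_)
      rw [map_add, Complex.conj_conj]
      exact hq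
    have h3 := D5_core hB14 hThU (cjI m) (cjI b) (hne m hm) (hne b hb) ((o5 m 2).2 h2) (c • Q) hnpr
      hcQ' _ hcz hu'
    rw [← hThC k c hc m b hm hb h2 z hz hzb] at h3
    exact (DI.UP.smul c).1 h3
  · exact D5_core hB14 hThU m b hm hb h2 Q hQ hQ' z hz hu

end Pool.Agent.DK
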