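import Pool.Agent.Lib.DK.D.Spec

/-!
# Theorem DK, part D, module D6: congruences of theta
-/

set_option autoImplicit false

open scoped Pointwise

noncomputable section

namespace Pool.Agent.DK

open Pool.Agent.MuZ Pool.Agent.FW NumberField IsDedekindDomain
open Pool.Agent.DI (io ofC io_inj exists_io io_ofC ofC_io VP MP UP TP ex sqr sqr_sq kap)

/-- `x'` is congruent to `x ^ l`. -/
private def D6_C (Q : Ideal ZZ) (l : ℕ) (x' x : Om) : Prop := VP Q x' ∧ VP Q x ∧ MP Q (x' - x ^ l)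

private def D6_F (Q : Ideal ZZ) (l : ℕ) : Prop := ∀ x y : Om, VP Q x → VP Q y →
  MP Q ((x + y) ^ l - (x ^ l + y ^ l)) ∧ MP Q ((x - y) ^ l - (x ^ l - y ^ l))

section

variable {Q : Ideal ZZ} [hP : Q.IsPrime] {l : ℕ}

private theorem D6_mul {x' x y' y : Om} (hx : D6_C Q l x' x) (hy : D6_C Q l y' y) :
    D6_C Q l (x' * y') (x * y) := by
  refine ⟨hx.1.mul hy.1, hx.2.1.mul hy.2.1, ?_⟩
  have e : x' * y' - (x * y) ^ l = (x' - x ^ l) * y' + x ^ l * (y' - y ^ l) := by
    rw [mul_pow]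
    ring
  rw [e]
  exact (hx.2.2.mul_right hy.1).add (DI.MP.mul_left (hx.2.1.pow l) hy.2.2)

private theorem D6_sub (hF : D6_F Q l) {x' x y' y : Om} (hx : D6_C Q l x' x) (hy : D6_C Q l y' y) :
    D6_C Q l (x' - y') (x - y) := by
  refine ⟨hx.1.sub hy.1, hx.2.1.sub hy.2.1, ?_⟩
  have e : x' - y' - (x - y) ^ l =
      (x' - x ^ l) - (y' - y ^ l) - ((x - y) ^ l - (x ^ l - y ^ l)) := by ring
  rw [e]
  exact (hx.2.2.sub hy.2.2).sub (hF x y hx.2.1 hy.2.1).2

private theorem D6_add (hF : D6_F Q l) {x' x y' y : Om} (hx : D6_C Q l x' x) (hy : D6_C Q l y' y) :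
    D6_C Q l (x' + y') (x + y) := by
  refine ⟨hx.1.add hy.1, hx.2.1.add hy.2.1, ?_⟩
  have e : x' + y' - (x + y) ^ l =
      (x' - x ^ l) + (y' - y ^ l) - ((x + y) ^ l - (x ^ l + y ^ l)) := by ring
  rw [e]
  exact (hx.2.2.add hy.2.2).sub (hF x y hx.2.1 hy.2.1).1

private theorem D6_unit {x' x : Om} (hx : D6_C Q l x' x) (hU : UP Q x) : UP Q x' :=
  (hU.pow l).congr hx.2.2

private theorem D6_inv {x' x : Om} (hx : D6_C Q l x' x) (hU : UP Q x) :
    D6_C Q l x'⁻¹ x⁻¹ := by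
  have hU' := D6_unit hx hU
  refine ⟨hU'.inv.1, hU.inv.1, ?_⟩
  have e : x'⁻¹ - x⁻¹ ^ l = -(x' - x ^ l) * (x'⁻¹ * x⁻¹ ^ l) := by
    have h1 := hU'.ne_zero
    have h2 := hU.ne_zero
    rw [inv_pow]
    field_simp
    ring
  rw [e]
  exact hx.2.2.neg.mul_right (hU'.inv.1.mul (hU.inv.pow l).1)

private theorem D6_one : D6_C Q l 1 1 := by
  refine ⟨DI.VP.one, DI.VP.one, ?_⟩
  rw [one_pow, sub_self]
  exact DI.MP.zero

private theorem D6_pow {x' x : Om} (hx : D6_C Q l x' x) (n : ℕ) : D6_C Q l (x' ^ n) (x ^ n) := by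
  induction n with
  | zero =>
    rw [pow_zero, pow_zero]
    exact D6_one
  | succ n ih =>
    rw [pow_succ, pow_succ]
    exact D6_mul ih hx

private theorem D6_prod (S : Finset ℂ) (f g : ℂ → Om) (h : ∀ u ∈ S, D6_C Q l (f u) (g u)) :
    D6_C Q l (∏ u ∈ S, f u) (∏ u ∈ S, g u) := by
  classical
  induction S using Finset.induction_on with
  | empty =>
    rw [Finset.prod_empty, Finset.prod_empty]
    exact D6_one
  | insert a T ha ih =>
    rw [Finset.prod_insert ha, Finset.prod_insert ha]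
    exact D6_mul (h a (Finset.mem_insert_self a T))
      (ih fun u hu => h u (Finset.mem_insert_of_mem hu))

/-- One factor. -/
private theorem D6_fac (hF : D6_F Q l) {w' w x' x y' y : Om} (hw : D6_C Q l w' w)
    (hx : D6_C Q l x' x) (hy : D6_C Q l y' y) (hU : UP Q (x - y)) :
    D6_C Q l ((w' * ((x' - y') ^ 3)⁻¹) ^ 3) ((w * ((x - y) ^ 3)⁻¹) ^ 3) :=
  D6_pow (D6_mul hw (D6_inv (D6_pow (D6_sub hF hx hy) 3) (hU.pow 3))) 3

private theorem D6_F1 : D6_F Q 1 := by
  intro x y _ _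
  constructor
  · rw [pow_one, pow_one, pow_one, sub_self]
    exact DI.MP.zero
  · rw [pow_one, pow_one, pow_one, sub_self]
    exact DI.MP.zero

private theorem D6_refl1 {x : Om} (hx : VP Q x) : D6_C Q 1 x x := by
  refine ⟨hx, hx, ?_⟩
  rw [pow_one, sub_self]
  exact DI.MP.zero

end

theorem sD6 (hB14 : S_B14) (hX : S_XOm) (_hA : S_AbQ) (hFer : S_Fer) (hD1 : S_D1) (hD3 : S_D3)
    (hHsP : S_HsP) (hD8 : S_D8) (hThU : S_ThU) (hL6 : S_L6) : S_D6 := by
  intro k _ m b hm hb hm2 Q hQ h2 hQm z hz hzu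
  have hP : Q.IsPrime := hQ.1
  have hab : ¬ AbPb k Q := fun h => h2 h.2.1
  obtain ⟨hIz, hVz, hfac⟩ := hThU k m b hm hb hm2 Q hQ hab z hz hzu
  obtain ⟨hH, -⟩ := hB14 k m b hm hb hm2
  obtain ⟨-, -, -, -, hQp, hcong, -⟩ := hD1 k b hb Q hQ hab
  obtain ⟨v, hv, hvQ⟩ : ∃ v ∈ m, ¬ MP Q (toO v) := by
    unfold Abv at hQm
    push Not at hQm
    exact hQm
  have hnot : ∀ u ∈ hs m b, ¬ IK Q b u := by
    intro u hu hI
    obtain ⟨h3, h4⟩ := hH.mem u hu
    have h5 := hQp u hI v 1 hvQ (by rw [mul_one]; exact lam_prod.1 h3 v hv)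
    rw [toC_one, one_mul] at h5
    exact h4 h5
  have hu3 : ∀ u ∈ hs m b, VP Q (xO b u) ∧ UP Q (W2 b u) ∧ UP Q (xO b z - xO b u) := fun u hu =>
    (hfac u (hH.mem u hu).1 (hH.mem u hu).2).2 (hnot u hu)
  constructor
  · intro z' hz'
    have hc := hcong z z' hz hIz hz'
    have hx : D6_C Q 1 (xO b (z + z')) (xO b z) := by
      refine ⟨?_, hVz, by rwa [pow_one]⟩
      have e : xO b (z + z') = (xO b (z + z') - xO b z) + xO b z := by ring
      rw [e]
      exact hc.vp.add hVz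
    have h : D6_C Q 1 (Theta m b (z + z')) (Theta m b z) := by
      unfold Theta
      refine D6_prod (hs m b) _ _ fun u hu => ?_
      obtain ⟨h3, h4, h5⟩ := hu3 u hu
      exact D6_fac D6_F1 (D6_refl1 h4.1) hx (D6_refl1 h3) h5
    have h6 := h.2.2
    rwa [pow_one] at h6
  · intro q l hq hl hQq
    obtain ⟨hF3, hF4, -, -, -⟩ := hFer k q l hq hl Q hQ hQq
    obtain ⟨-, hd3, hx3⟩ := hD3 k q l hq hl Q hQ hQq b hb
    have hF : D6_F Q l := fun x y hx hy => ⟨(hF4 x y hx hy).1, (hF4 x y hx hy).2.1⟩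
    have hqp : q.IsPrime := hq.1
    have hqm : q.IsMaximal := hqp.isMaximal hq.2.1
    have hsup : q ⊔ m = ⊤ := by
      by_contra hne
      have h3 : q ⊔ m = q := (hqm.eq_of_le hne le_sup_left).symm
      have h4 : m ≤ q := h3 ▸ le_sup_right
      exact hQm fun v hv => hQq v (h4 hv)
    have hqb : q * b ≠ ⊥ := mul_ne_zero hq.2.1 hb
    have hHq : IsHalf m (q * b) (hs m b) := (hHsP k m b hm hb hm2).2.2.1 q (hs m b) hq.2.1 hsup hH
    have hth := ((hD8 k m (q * b) hm hqb hm2).1 (hs m b) hHq z).symm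
    -- `d` is in the valuation ring
    have hVd : VP Q (dO b) := by
      obtain ⟨-, -, ⟨hT, hS, hST, -, -⟩, -⟩ := hL6 k b hb
      have h2l : 2 * (ptS b + ptT b) ∈ Lam b := by
        rw [mul_add]
        exact lam_add hS hT
      have htor : Tor k (ptS b + ptT b) := (tor_iff hb).2 ⟨2, two_pos, by exact_mod_cast h2l⟩
      have hI : ¬ IK Q b (ptS b + ptT b) := by
        intro hI
        have h2' : ¬ MP Q (toO ((2 : ℕ) : OO k)) := by
          rw [toO_nat]
          exact_mod_cast h2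
        have h5 := hQp _ hI ((2 : ℕ) : OO k) 1 h2' (by
          rw [mul_one, toC_nat]
          exact_mod_cast h2l)
        rw [toC_one, one_mul] at h5
        exact hST h5
      have hV : VP Q (xO b (ptS b + ptT b)) := by
        by_contra h
        exact hI ⟨htor, Or.inr h⟩
      rw [((hX k b hb).1).2.2.2.2.2.1] at hV
      have hU2 : UP Q (2 : Om) := ⟨by exact_mod_cast DI.VP.nat (P := Q) 2, h2⟩
      have hU4 : UP Q (4 : Om) := by
        have e : (4 : Om) = 2 * 2 := by norm_num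
        rw [e]
        exact hU2.mul hU2
      have e : dO b = -((4 : Om)⁻¹ * (-4 * dO b)) := by
        have := hU4.ne_zero
        field_simp
      rw [e]
      exact (hU4.inv.1.mul hV).neg
    have hcd : D6_C Q l (dO (q * b)) (dO b) := by
      refine ⟨?_, hVd, hd3⟩
      have e : dO (q * b) = (dO (q * b) - dO b ^ l) + dO b ^ l := by ring
      rw [e]
      exact hd3.vp.add (hVd.pow l)
    have hcx : ∀ u : ℂ, Tor k u → ¬ IK Q b u → VP Q (xO b u) → D6_C Q l (xO (q * b) u) (xO b u) := by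
      intro u hu hI hV
      have h3 := (hx3 u hu hI).2
      refine ⟨?_, hV, h3⟩
      have e : xO (q * b) u = (xO (q * b) u - xO b u ^ l) + xO b u ^ l := by ring
      rw [e]
      exact h3.vp.add (hV.pow l)
    have hcn : ∀ n : ℤ, D6_C Q l (n : Om) (n : Om) := by
      intro n
      refine ⟨DI.VP.int n, DI.VP.int n, ?_⟩
      have h3 := hF3 n 1 (by
        rw [Int.cast_one]
        exact DI.MP.one_not)
      rw [Int.cast_one, div_one] at h3
      rw [← neg_sub]
      exact h3.neg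
    have hc4 : D6_C Q l (4 : Om) (4 : Om) := by exact_mod_cast hcn 4
    have hcw : ∀ u : ℂ, D6_C Q l (xO (q * b) u) (xO b u) → D6_C Q l (W2 (q * b) u) (W2 b u) := by
      intro u hu
      unfold W2
      exact D6_mul (D6_mul hu (D6_add hF hu (D6_mul hc4 hcd))) (D6_add hF (D6_mul hc4 hu) D6_one)
    have h : D6_C Q l (Theta m (q * b) z) (Theta m b z) := by
      rw [hth]
      unfold Theta
      refine D6_prod (hs m b) _ _ fun u hu => ?_
      obtain ⟨h3, h4, h5⟩ := hu3 u hu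
      have hTu : Tor k u := tor_lam (mul_ne_zero hm hb) (hH.mem u hu).1
      have hxu := hcx u hTu (hnot u hu) h3
      exact D6_fac hF (hcw u hxu) (hcx z hz hIz hVz) hxu h5
    exact h.2.2

end Pool.Agent.DK
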