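import Pool.Agent.Lib.DK.D.Spec

/-!
# Theorem DK, module `D8`: `S_D8`, assembly
-/

set_option autoImplicit false

open scoped Pointwise nonZeroDivisors

noncomputable section

namespace Pool.Agent.DK

open Pool.Agent.MuZ Pool.Agent.FW NumberField IsDedekindDomain
open Pool.Agent.DI (io ofC io_inj exists_io io_ofC ofC_io VP MP UP TP ex sqr sqr_sq kap)

theorem sD8 (h1 : S_D8a) : S_D8 := by
  intro k _ m b hm hb hm2
  obtain ⟨c1, c2, c3, c4, c5⟩ := h1 k m b hm hb hm2
  refine ⟨?_, ?_, ?_, ?_⟩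
  · intro S hS z
    rw [Finset.prod_pow, c2 S hS z, c1 z]
  · intro z
    refine ⟨?_, fun l hl => ?_⟩
    · rw [c1, c1, (c3 z).1]
    · rw [c1, c1, (c3 z).2 l hl]
  · intro α z hα
    have hb' : sp α * b ≠ ⊥ := by
      intro h0
      rcases Ideal.mul_eq_bot.1 h0 with h | h
      · exact hα (Ideal.span_singleton_eq_bot.1 h)
      · exact hb h
    rw [(h1 k m (sp α * b) hm hb' hm2).1 z, c4 α z hα, c1]
  · intro z hz hz'
    rw [c1]
    exact pow_ne_zero 3 (c5 z hz hz')

end Pool.Agent.DK
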