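import Pool.Agent.Lib.DK.D.Spec

/-!
# Theorem DK, part D, module D9: the framing and `g` at the primes above `2`
-/

set_option autoImplicit false

open scoped Pointwise nonZeroDivisors

noncomputable section

namespace Pool.Agent.DK

open Pool.Agent.MuZ Pool.Agent.FW NumberField IsDedekindDomain
open Pool.Agent.DI (io ofC io_inj exists_io io_ofC ofC_io VP MP UP TP ex sqr sqr_sq kap)

variable {k : ℕ}

private theorem D9_not {P : Ideal ZZ} (h : AbP k P) : ¬ AbPb k P := by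
  intro h'
  have := h.1.1
  have h1 := DI.MP.add h.2.2 h'.2.2
  rw [add_sub_cancel] at h1
  exact DI.MP.one_not h1

private theorem D9_TP {P : Ideal ZZ} (c : Gal(Om/ℚ)) {x : Om} (h : TP (c • P) 2 (c x)) : TP P 2 x := by
  obtain ⟨y, hy, hxy⟩ := h
  have e : c (c.symm y) = y := c.apply_symm_apply y
  refine ⟨c.symm y, ?_, ?_⟩
  · rw [← DI.VP.smul c, e]
    exact hy
  · apply c.injective
    rw [map_mul, e, hxy, map_ofNat]

private theorem D9_top (N : ℕ) : PrI (⊤ : Ideal (OO k)) N := by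
  unfold PrI
  exact top_sup_eq _

private theorem D9_mul {a b : Ideal (OO k)} {N : ℕ} (ha : PrI a N) (hb : PrI b N) : PrI (a * b) N := by
  unfold PrI at *
  rw [← Ideal.isCoprime_iff_sup_eq] at *
  exact ha.mul_left hb

private theorem D9_ppb {f : ℕ} (hf : Odd f) : PrI (ppb k) f := by
  obtain ⟨n, hn⟩ := hf
  unfold PrI
  rw [Ideal.eq_top_iff_one]
  have e : (1 : OO k) = 2 * (-(n : OO k)) + (f : OO k) := by
    rw [hn]
    push_cast
    ring
  rw [e]
  refine Ideal.add_mem _ (Ideal.mem_sup_left (Ideal.mul_mem_right _ _ ?_))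
    (Ideal.mem_sup_right (Ideal.mem_span_singleton_self _))
  exact Ideal.subset_span (by simp)

/-- **D9.** The framing and `g` at the primes above `2`. -/
theorem sD9 (hO3 : S_O3) (hO4 : S_O4) (hL2 : S_L2) (hB7 : S_B7) (hB12 : S_B12) (hR4 : S_R4)
    (hR5 : S_R5) (hA : S_AbQ) (hQ : S_QpC) (hDa : S_D9a) (hDb : S_D9b) : S_D9 := by
  intro k _ f hf hf3 P hP hP2
  have hP1 := hP.1
  obtain ⟨-, c, hc, hck⟩ := hR4
  obtain ⟨o1, o2, o3, -, o5, -⟩ := hO3 k
  obtain ⟨-, p2, -, -, -, -, -, -, p9, p10, p11⟩ := hO4 k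
  obtain ⟨-, -, -, -, -, -, l7, -⟩ := hL2 k
  obtain ⟨-, -, -, -, a5, -⟩ := hA k
  have hcj0 : ∀ b : Ideal (OO k), b ≠ ⊥ → cjI b ≠ ⊥ := by
    intro b hb h
    apply hb
    rw [eq_bot_iff]
    intro v hv
    have h1 : cjO v ∈ cjI b := by
      rw [o1, cjO_cjO]
      exact hv
    rw [h, Ideal.mem_bot] at h1
    rw [Ideal.mem_bot, ← cjO_cjO v, h1, cjO_zero]
  have hpb : cjI (ppb k) = pp k := by rw [← p2, (o3 (pp k)).1]
  -- conjugation of the framing
  have hr : ∀ b b' : Ideal (OO k), b ≠ ⊥ → b' ≠ ⊥ → PrI b f → PrI b' f →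
      c (rO f b b') = rO f (cjI b) (cjI b') := by
    intro b b' hb hb' hbf hbf'
    apply io_inj
    obtain ⟨-, e1, -⟩ := hR5 k f ⊤ b b' hf hf3 top_ne_bot hb hb' (D9_top 2) (D9_top f) hbf hbf'
    obtain ⟨-, e2, -⟩ := hR5 k f ⊤ (cjI b) (cjI b') hf hf3 top_ne_bot (hcj0 b hb) (hcj0 b' hb')
      (D9_top 2) (D9_top f) ((o5 b f).2 hbf) ((o5 b' f).2 hbf')
    rw [hc, e1, e2, map_div₀, (hB12 k f b hf hf3 hb hbf).2.2.2.2,
      (hB12 k f b' hf hf3 hb' hbf').2.2.2.2]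
  -- conjugation of `g`
  have hg : ∀ m b : Ideal (OO k), m ≠ ⊥ → b ≠ ⊥ → PrI m 2 → PrI m f → PrI b f → ∀ z : ℂ, Tor k z →
      Tor k ((starRingEnd ℂ) z) → z ∉ Lam (m * b) →
      c (gO f m b z) = gO f (cjI m) (cjI b) ((starRingEnd ℂ) z) := by
    intro m b hm hb hm2 hmf hbf z hz hz' hzm
    apply io_inj
    obtain ⟨-, -, e1⟩ := hR5 k f m b b hf hf3 hm hb hb hm2 hmf hbf hbf
    obtain ⟨-, -, e2⟩ := hR5 k f (cjI m) (cjI b) (cjI b) hf hf3 (hcj0 m hm) (hcj0 b hb) (hcj0 b hb)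
      ((o5 m 2).2 hm2) ((o5 m f).2 hmf) ((o5 b f).2 hbf) ((o5 b f).2 hbf)
    have hzm' : (starRingEnd ℂ) z ∉ Lam (cjI m * cjI b) := by
      rw [← o2, l7 (m * b) _ (mul_ne_zero hm hb), Complex.conj_conj]
      exact hzm
    rw [hc, (e1 z hz).2 hzm, (e2 _ hz').2 hzm']
    unfold gC
    rw [map_div₀, map_sub, map_mul, map_natCast, (hB12 k f b hf hf3 hb hbf).2.2.2.2,
      ((hB7 k (m * b) (mul_ne_zero hm hb)).2.2.1 z).2, ((hB7 k b hb).2.2.1 z).2, o2, (o3 m).2.1]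
  refine ⟨?_, ?_, ?_⟩
  · intro a b ha hb haf hbf h
    left
    rcases h with ⟨h1, h2⟩ | ⟨h1, h2⟩
    · exact (hDa k f hf hf3 P h1).1 a b ha hb haf hbf h2
    · have h3 : AbP k (c • P) := (hck k b hb).2.2.2 P h1
      have h4 : ¬ cjI a ≤ pp k := by
        intro h5
        apply h2
        intro v hv
        have h6 : cjO v ∈ cjI a := by
          rw [o1, cjO_cjO]
          exact hv
        have h7 := (p10 _).1 (h5 h6)
        rw [p11]
        exact h7
      have h8 := (hDa k f hf hf3 (c • P) h3).1 (cjI a) (cjI b) (hcj0 a ha) (hcj0 b hb)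
        ((o5 a f).2 haf) ((o5 b f).2 hbf) h4
      apply D9_TP c
      rw [map_sub, map_one, hr b (a * b) hb (mul_ne_zero ha hb) hbf (D9_mul haf hbf), o2]
      exact h8
  · intro b hb hbf
    refine ⟨fun h1 => Or.inl ((hDa k f hf hf3 P h1).2 b hb hbf), fun h1 => Or.inl ?_⟩
    have h3 : AbP k (c • P) := (hck k b hb).2.2.2 P h1
    have h8 := (hDa k f hf hf3 (c • P) h3).2 (cjI b) (hcj0 b hb) ((o5 b f).2 hbf)
    apply D9_TP c
    rw [map_sub, map_one, map_mul, map_ofNat,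
      hr (ppb k * b) b (mul_ne_zero p9 hb) hb (D9_mul (D9_ppb hf) hbf) hbf, o2, hpb]
    exact h8
  · intro m b hm hb hm2 hmf hbf z hz hu
    obtain ⟨-, -, a7, a8⟩ := a5 P
    rcases a8 hP hP2 with h1 | h1
    · obtain ⟨g1, g2⟩ := hDb k f hf hf3 P h1 m b hm hb hm2 hmf hbf z hz hu
      exact ⟨g1, fun _ => g2⟩
    · refine ⟨?_, fun h2 => absurd ⟨h2, h1⟩ a7⟩
      have h3 : AbP k (c • P) := (hck k b hb).2.2.2 P h1
      have hz' : Tor k ((starRingEnd ℂ) z) := ((hQ k c hc P b z hP hb).2.2.2.2.1).2 hz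
      have hzm : z ∉ Lam (m * b) := by
        intro h
        apply hu (-z) (lam_neg h)
        intro α β _ _
        rw [add_neg_cancel, mul_zero]
        exact lam_zero b
      have h4 := hDb k f hf hf3 (c • P) h3 (cjI m) (cjI b) (hcj0 m hm) (hcj0 b hb)
        ((o5 m 2).2 hm2) ((o5 m f).2 hmf) ((o5 b f).2 hbf) ((starRingEnd ℂ) z) hz' ?_
      · rw [← DI.VP.smul c, hg m b hm hb hm2 hmf hbf z hz hz' hzm]
        exact h4.1
      · intro u hu' hq
        have hu2 : (starRingEnd ℂ) u ∈ Lam (m * b) := by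
          rw [← o2, l7 (m * b) _ (mul_ne_zero hm hb)] at hu'
          exact hu'
        apply hu _ hu2
        rw [← (hQ k c hc P b (z + (starRingEnd ℂ) u) hP hb).1, map_add, Complex.conj_conj]
        exact hq

end Pool.Agent.DK
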