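import Pool.Agent.Lib.DK.D.Spec

/-!
# Theorem DK, part D, module D9a: étale isogenies and the framing above `𝔭`
-/

set_option autoImplicit false

open scoped Pointwise nonZeroDivisors

noncomputable section

namespace Pool.Agent.DK

open Pool.Agent.MuZ Pool.Agent.FW NumberField IsDedekindDomain
open Pool.Agent.DI (io ofC io_inj exists_io io_ofC ofC_io VP MP UP TP ex sqr sqr_sq kap)

/-! ## Valuations -/

private theorem D9a_unit {P : Ideal ZZ} [P.IsPrime] (h2 : MP P 2) {E : Om} (h : TP P 2 (E - 1)) :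
    UP P E := by
  obtain ⟨y, hy, he⟩ := h
  refine DI.UP.congr DI.UP.one ?_
  rw [he]
  exact DI.MP.mul_right h2 hy

private theorem D9a_four {P : Ideal ZZ} [P.IsPrime] {E : Om} (h : TP P 4 E) : TP P 2 E := by
  obtain ⟨y, hy, he⟩ := h
  refine ⟨2 * y, ?_, by rw [he]; ring⟩
  exact DI.VP.mul (by simpa using DI.VP.nat (P := P) 2) hy

/-- `r² ∈ 1 + 4 V`: `r ∈ 1 + 2 V`. -/
private theorem D9a_rt {P : Ideal ZZ} [P.IsPrime] {r : Om} (h : TP P 4 (r ^ 2 - 1)) :
    TP P 2 (r - 1) := by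
  obtain ⟨c, hc, he⟩ := h
  refine ⟨(r - 1) / 2, ?_, by ring⟩
  generalize hy : (r - 1) / 2 = y
  have hr : r = 1 + 2 * y := by rw [← hy]; ring
  have h1 : y ^ 2 + y = c := by
    rw [hr] at he
    linear_combination he / 4
  by_contra hn
  obtain ⟨h0, hm⟩ := DI.VP.not_iff.1 hn
  have h2 : (1 : Om) = c * y⁻¹ * y⁻¹ - y⁻¹ := by
    rw [← h1]
    field_simp
    ring
  apply DI.MP.one_not (P := P)
  rw [h2]
  exact DI.MP.sub (DI.MP.mul_left (DI.VP.mul hc hm.vp) hm) hm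

private theorem D9a_mul {P : Ideal ZZ} [P.IsPrime] {t : Om} (ht : VP P t) {x y : Om}
    (hx : TP P t (x - 1)) (hy : TP P t (y - 1)) : TP P t (x * y - 1) := by
  obtain ⟨a, ha, h1⟩ := hx
  obtain ⟨b, hb, h2⟩ := hy
  refine ⟨a + b + t * (a * b), DI.VP.add (DI.VP.add ha hb) (DI.VP.mul ht (DI.VP.mul ha hb)), ?_⟩
  have e1 : x = 1 + t * a := by linear_combination h1
  have e2 : y = 1 + t * b := by linear_combination h2
  rw [e1, e2]
  ring

private theorem D9a_div {P : Ideal ZZ} [P.IsPrime] {t : Om} {x y r : Om} (hu : UP P y)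
    (hx : TP P t (x - 1)) (hy : TP P t (y - 1)) (h : r * y = x) : TP P t (r - 1) := by
  obtain ⟨a, ha, h1⟩ := hx
  obtain ⟨b, hb, h2⟩ := hy
  refine ⟨(a - b) * y⁻¹, DI.VP.mul (DI.VP.sub ha hb) hu.inv.1, ?_⟩
  have h0 := hu.ne_zero
  have e : (r - 1) * y = t * (a - b) := by linear_combination h + h1 - h2
  rw [← mul_assoc, ← e]
  field_simp

private theorem D9a_sum {P : Ideal ZZ} [P.IsPrime] (s : Finset ℂ) (F : ℂ → Om)
    (h : ∀ u ∈ s, TP P 2 (F u - 1)) : TP P 2 (∑ u ∈ s, F u - s.card) := by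
  classical
  induction s using Finset.induction_on with
  | empty => exact ⟨0, DI.VP.zero, by simp⟩
  | insert a s ha ih =>
    obtain ⟨y, hy, h1⟩ := h a (Finset.mem_insert_self a s)
    obtain ⟨z, hz, h2⟩ := ih fun u hu => h u (Finset.mem_insert_of_mem hu)
    refine ⟨y + z, DI.VP.add hy hz, ?_⟩
    rw [Finset.sum_insert ha, Finset.card_insert_of_notMem ha]
    push_cast
    linear_combination h1 + h2

/-! ## Points of odd order -/

private theorem D9a_pt (hD1 : S_D1) {k : ℕ} [SqK k] {b : Ideal (OO k)} (hb : b ≠ ⊥) {P : Ideal ZZ}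
    (hP : Npr P) (hPb : ¬ AbPb k P) (h2 : MP P 2) (hS : 2 * ptS b ∈ Lam b) {v w : OO k}
    (hv : v = 1 + 2 * w) {y : ℂ} (hy : y ∉ Lam b) (hvy : toC v * y ∈ Lam b) :
    ¬ IK P b y ∧ ¬ IK P b (y + ptS b) := by
  have := hP.1
  obtain ⟨d1, d2, d3, -, d5, -, -⟩ := hD1 k b hb P hP hPb
  have hm : ¬ MP P (toO v) := by
    intro h
    apply DI.MP.one_not (P := P)
    have e : (1 : Om) = toO v - 2 * toO w := by
      have e1 : toO v = 1 + 2 * toO w := by
        rw [hv, toO_add, toO_mul, toO_one]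
        have : toO (2 : OO k) = 2 := by exact_mod_cast toO_nat (k := k) 2
        rw [this]
      rw [e1]
      ring
    rw [e]
    exact h.sub (DI.MP.mul_right h2 (toO_VP w))
  refine ⟨fun h => hy ?_, fun h => hy ?_⟩
  · have h1 := d5 y h v 1 hm (by rw [mul_one]; exact hvy)
    rwa [toC_one, one_mul] at h1
  · have h1 : IK P b (2 * (y + ptS b)) := by
      have := d3 2 _ h
      rwa [toC_two] at this
    have h3 : IK P b (2 * y) := by
      have h4 := d1 _ _ h1 (d2 _ (lam_neg hS))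
      have e : 2 * (y + ptS b) + -(2 * ptS b) = 2 * y := by ring
      rwa [e] at h4
    have h5 := d5 _ h3 v 1 hm (by
      rw [mul_one]
      have e : toC v * (2 * y) = ((2 : ℕ) : ℂ) * (toC v * y) := by push_cast; ring
      rw [e]
      exact lam_nat 2 hvy)
    rw [toC_one, one_mul] at h5
    have e : y = toC v * y - toC w * (2 * y) := by
      rw [hv, toC_add, toC_mul, toC_one, toC_two]
      ring
    rw [e]
    exact lam_sub hvy (lam_mul w h5)

private theorem D9a_nl {k : ℕ} [SqK k] {b : Ideal (OO k)} {f : ℕ} (hf3 : 3 ≤ f) (hbf : PrI b f) :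
    (1 / f : ℂ) ∉ Lam b := by
  intro h
  have h1 : (1 : OO k) ∈ b ⊔ Ideal.span {(f : OO k)} := by
    rw [hbf]
    exact Submodule.mem_top
  obtain ⟨v, hv, y, hy, hvy⟩ := Submodule.mem_sup.1 h1
  obtain ⟨u, hu⟩ := Ideal.mem_span_singleton'.1 hy
  obtain ⟨u', hu'⟩ := h v hv
  have hf0 : (f : ℂ) ≠ 0 := by
    have : f ≠ 0 := by omega
    exact_mod_cast this
  have h2 : toC v = toC ((f : OO k) * u') := by
    rw [toC_mul, toC_nat, ← hu']
    field_simp
  have h3 : v = (f : OO k) * u' := toC_inj h2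
  have h4 : (f : OO k) ∣ 1 := ⟨u' + u, by rw [← hvy, h3, ← hu]; ring⟩
  have h5 := ((nat_dvd_iff f (1 : OO k)).1 h4).1
  rw [re_one] at h5
  have h6 := Int.le_of_dvd one_pos h5
  omega

private theorem D9a_tor {k : ℕ} [SqK k] {f : ℕ} (hf3 : 3 ≤ f) : Tor k (1 / f : ℂ) :=
  ⟨1, f, by omega, by rw [toC_one]⟩

/-! ## The odd part -/

private theorem D9a_odd (hL3 : S_L3) (hL6 : S_L6) (hOT : S_OddT) (hD1 : S_D1) (hWf : S_Wf)
    (hWf2 : S_Wf2) (hO6 : S_O6) {k : ℕ} [SqK k] {f : ℕ} (hf : Odd f) (hf3 : 3 ≤ f) {P : Ideal ZZ}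
    (hP : AbP k P) (hPb : ¬ AbPb k P) {a b : Ideal (OO k)} (ha : a ≠ ⊥) (hb : b ≠ ⊥)
    (haf : PrI a f) (hbf : PrI b f) (ha2 : PrI a 2) : TP P 2 (rO f b (a * b) - 1) := by
  have := hP.1.1
  have hf0 : 0 < f := by omega
  have hfC : (f : ℂ) ≠ 0 := by exact_mod_cast hf0.ne'
  have h2 : MP P 2 := hP.2.1
  have hab : a * b ≠ ⊥ := mul_ne_zero ha hb
  have habf : PrI (a * b) f := ((hO6 k).1 f a b).2 ⟨haf, hbf⟩
  obtain ⟨j, hj⟩ := hf
  have hfj : (f : OO k) = 1 + 2 * (j : OO k) := by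
    rw [hj]
    push_cast
    ring
  have hz : (1 / f : ℂ) ∉ Lam (a * b) := D9a_nl hf3 habf
  have hzt : Tor k (1 / f : ℂ) := D9a_tor hf3
  obtain ⟨-, -, R, hR, hRc⟩ := hL3 k a b ha hb
  have hSb : 2 * ptS b ∈ Lam b := (hL6 k b hb).2.2.1.2.1
  have hSab : 2 * ptS (a * b) ∈ Lam (a * b) := (hL6 k (a * b) hab).2.2.1.2.1
  have hfO : Odd f := ⟨j, hj⟩
  -- an odd element of a
  have h1 : (1 : OO k) ∈ a ⊔ Ideal.span {((2 : ℕ) : OO k)} := by
    rw [ha2]
    exact Submodule.mem_top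
  obtain ⟨v, hv, y0, hy0, hvy⟩ := Submodule.mem_sup.1 h1
  obtain ⟨u0, hu0⟩ := Ideal.mem_span_singleton'.1 hy0
  have hv1 : v * (f : OO k) = 1 + 2 * ((j : OO k) - u0 * f) := by
    have e1 : v = 1 - 2 * u0 := by
      rw [← hvy, ← hu0]
      push_cast
      ring
    rw [e1]
    linear_combination hfj
  -- the terms
  have hterm : ∀ u ∈ R, TP P 2 (wfO f b (1 / f + u) / xO b (1 / f + u) - 1) := by
    intro u hu
    have hu' := hR.mem u hu
    have hy : (1 / f + u : ℂ) ∉ Lam b := by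
      intro h
      apply hz
      have h3 : (1 / f : ℂ) = (1 / f + u) - u := by ring
      rw [h3]
      exact lam_sub (lam_mono h) hu'
    have hvy : toC (v * (f : OO k)) * (1 / f + u) ∈ Lam b := by
      have e : toC (v * (f : OO k)) * (1 / f + u) =
          toC v * (f * (1 / f)) + (f : ℂ) * (toC v * u) := by
        rw [toC_mul, toC_nat]
        ring
      rw [e]
      exact lam_add (lam_mul v (one_div_lam b hf0)) (lam_nat f (lam_prod.1 hu' v hv))
    obtain ⟨i1, i2⟩ := D9a_pt hD1 hb hP.1 hPb h2 hSb hv1 hy hvy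
    have hut : Tor k u := tor_lam hab hu'
    exact (hWf2 k f b hfO hf3 hb hbf P hP).2.2.2 _ (tor_add hzt hut) i1 i2
  have hterm0 : TP P 2 (wfO f (a * b) (1 / f) / xO (a * b) (1 / f) - 1) := by
    have hvy : toC (f : OO k) * (1 / f) ∈ Lam (a * b) := by
      rw [toC_nat]
      exact one_div_lam (a * b) hf0
    obtain ⟨i1, i2⟩ := D9a_pt hD1 hab hP.1 hPb h2 hSab hfj hz hvy
    exact (hWf2 k f (a * b) hfO hf3 hab habf P hP).2.2.2 _ hzt i1 i2
  have hx0 : xO (a * b) (1 / f) ≠ 0 := (hWf2 k f (a * b) hfO hf3 hab habf P hP).1.ne_zero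
  have hmain := ((hWf k f b hfO hf3 hb hbf).2.1 a ha ha2 haf R hR (1 / f) hzt hz hx0).2
  have hsum := D9a_sum R (fun u => wfO f b (1 / f + u) / xO b (1 / f + u)) hterm
  obtain ⟨n, hn⟩ := (hOT k a b ha hb ha2).2
  have hsum1 : TP P 2 (∑ u ∈ R, wfO f b (1 / f + u) / xO b (1 / f + u) - 1) := by
    obtain ⟨s, hs, he⟩ := hsum
    refine ⟨s + n, DI.VP.add hs (DI.VP.nat n), ?_⟩
    rw [hRc, hn] at he
    push_cast at he
    linear_combination he
  exact D9a_div (D9a_unit h2 hterm0) hsum1 hterm0 hmain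

/-! ## Squares -/

private theorem D9a_sq {P : Ideal ZZ} [P.IsPrime] (h2 : MP P 2) {th E E' r : Om} (hth : VP P th)
    (hE : TP P 4 (E - 1)) (hE' : TP P 4 (E' - 1)) (h : r ^ 2 * E' = (1 + 4 * th) ^ 2 * E) :
    TP P 2 (r - 1) := by
  have h4 : VP P 4 := by simpa using DI.VP.nat (P := P) 4
  have hs : TP P 4 ((1 + 4 * th) - 1) := ⟨th, hth, by ring⟩
  refine D9a_rt (D9a_div (D9a_unit h2 (D9a_four hE')) ?_ hE' h)
  rw [sq]
  exact D9a_mul h4 (D9a_mul h4 hs hs) hE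

/-- Étale isogenies and the framing above `𝔭`. -/
theorem sD9a (hO4 : S_O4) (hO6 : S_O6) (hL3 : S_L3) (hL6 : S_L6) (_hB1 : S_B1) (hB5 : S_B5)
    (hB6 : S_B6) (hOT : S_OddT) (hR1 : S_R1) (hR5 : S_R5) (_hX : S_XOm) (hDU : S_DUn) (hD1 : S_D1)
    (_hD2 : S_D2) (hWf : S_Wf) (hWf2 : S_Wf2) : S_D9a := by
  intro k _ f hf hf3 P hP
  have := hP.1.1
  have h2 : MP P 2 := hP.2.1
  have hPb : ¬ AbPb k P := by
    intro h
    apply DI.MP.one_not (P := P)
    have e : (1 : Om) = wO k + (1 - wO k) := by ring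
    rw [e]
    exact hP.2.2.add h.2.2
  obtain ⟨o1, -, o3, o4, o5, o6, o7, o8, o9, -, -⟩ := hO4 k
  have htop2 : PrI (⊤ : Ideal (OO k)) 2 := top_sup_eq _
  have htopf : PrI (⊤ : Ideal (OO k)) f := top_sup_eq _
  have htop : (⊤ : Ideal (OO k)) ≠ ⊥ := top_ne_bot
  have hcop : Nat.Coprime 2 f := Nat.coprime_two_left.2 hf
  have hppf : PrI (pp k) f := ((hO6 k).2.2.1 f (pp k) (by omega)).2 (by rw [o5]; exact hcop)
  have hppbf : PrI (ppb k) f := ((hO6 k).2.2.1 f (ppb k) (by omega)).2 (by rw [o6]; exact hcop)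
  have hfr : ∀ b b' : Ideal (OO k), b ≠ ⊥ → b' ≠ ⊥ → PrI b f → PrI b' f →
      fr f b ≠ 0 ∧ io (rO f b b') = fr f b' / fr f b := by
    intro b b' hb hb' h h'
    have h3 := hR5 k f ⊤ b b' hf hf3 htop hb hb' htop2 htopf h h'
    exact ⟨h3.1, h3.2.1⟩
  have htr : ∀ b b' c : Ideal (OO k), b ≠ ⊥ → b' ≠ ⊥ → c ≠ ⊥ → PrI b f → PrI b' f → PrI c f →
      rO f b c = rO f b' c * rO f b b' := by
    intro b b' c hb hb' hc h h' h''
    apply io_inj
    rw [map_mul, (hfr b c hb hc h h'').2, (hfr b' c hb' hc h' h'').2, (hfr b b' hb hb' h h').2]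
    have n1 := (hfr b c hb hc h h'').1
    have n2 := (hfr b' c hb' hc h' h'').1
    field_simp
  -- the isogeny `ppb`
  have hppb : ∀ b : Ideal (OO k), b ≠ ⊥ → PrI b f → TP P 2 (rO f b (ppb k * b) - 1) := by
    intro b hb hbf
    have hb' : ppb k * b ≠ ⊥ := mul_ne_zero o9 hb
    have hbf' : PrI (ppb k * b) f := ((hO6 k).1 f _ _).2 ⟨hppbf, hbf⟩
    obtain ⟨-, ⟨E, hE, hE0, hEs⟩, -, -⟩ := hWf2 k f b hf hf3 hb hbf P hP
    obtain ⟨-, ⟨E', hE', hE0', hEs'⟩, -, -⟩ := hWf2 k f (ppb k * b) hf hf3 hb' hbf' P hP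
    obtain ⟨-, -, hs, -⟩ := hB5 k b hb
    obtain ⟨n1, hr⟩ := hfr b (ppb k * b) hb hb' hbf hbf'
    refine D9a_sq h2 (hDU k b hb P hP.1 hPb).2.2.1.1 hE hE' (io_inj ?_)
    rw [map_mul, map_mul, map_pow, map_pow, hr, map_add, map_mul, (hR1 k b hb).2, map_one]
    have e4 : io 4 = 4 := map_ofNat io 4
    rw [e4, div_pow, div_mul_eq_mul_div, hEs', hs, div_eq_iff (pow_ne_zero 2 n1), ← hEs]
    ring
  refine ⟨?_, ?_⟩
  · intro a b ha hb haf hbf hap
    -- induction on `a`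
    revert ha haf hap
    induction a using WellFoundedGT.induction with
    | ind a ih =>
    intro ha haf hap
    by_cases hab : a ≤ ppb k
    · obtain ⟨a', ha'⟩ := Ideal.dvd_iff_le.2 hab
      have ha'0 : a' ≠ ⊥ := by
        rintro rfl
        apply ha
        rw [ha']
        exact Ideal.mul_bot _
      have hle : a ≤ a' := by
        rw [ha']
        exact Ideal.mul_le_right (I := ppb k) (J := a')
      have hlt : a < a' := by
        refine lt_of_le_of_ne hle fun h => ?_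
        have h3 : ppb k * a' = 1 * a' := by rw [one_mul, ← ha', h]
        have h4 : ppb k = 1 := mul_right_cancel₀ ha'0 h3
        exact o4.ne_top (by rw [h4, Ideal.one_eq_top])
      have haf' : PrI a' f := by
        rw [ha'] at haf
        exact (((hO6 k).1 f _ _).1 haf).2
      have hap' : ¬ a' ≤ pp k := fun h => hap (hle.trans h)
      have h5 := ih a' hlt ha'0 haf' hap'
      have hb1 : a' * b ≠ ⊥ := mul_ne_zero ha'0 hb
      have hbf1 : PrI (a' * b) f := ((hO6 k).1 f _ _).2 ⟨haf', hbf⟩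
      have h6 := hppb (a' * b) hb1 hbf1
      have e : a * b = ppb k * (a' * b) := by rw [ha', mul_assoc]
      have hb2 : a * b ≠ ⊥ := mul_ne_zero ha hb
      have hbf2 : PrI (a * b) f := ((hO6 k).1 f _ _).2 ⟨haf, hbf⟩
      rw [htr b (a' * b) (a * b) hb hb1 hb2 hbf hbf1 hbf2]
      have hV2 : VP P 2 := h2.vp
      refine D9a_mul hV2 ?_ h5
      rw [e]
      exact h6
    · have hm1 : (pp k).IsMaximal := o3.isMaximal o8
      have hm2 : (ppb k).IsMaximal := o4.isMaximal o9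
      have c1 : IsCoprime a (pp k) := by
        rw [Ideal.isCoprime_iff_sup_eq, sup_comm]
        by_contra h
        exact hap (by
          have h3 := hm1.eq_of_le h le_sup_left
          rw [h3]
          exact le_sup_right)
      have c2 : IsCoprime a (ppb k) := by
        rw [Ideal.isCoprime_iff_sup_eq, sup_comm]
        by_contra h
        exact hab (by
          have h3 := hm2.eq_of_le h le_sup_left
          rw [h3]
          exact le_sup_right)
      have c3 : IsCoprime a (pp k * ppb k) := c1.mul_right c2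
      have ha2 : PrI a 2 := by
        rw [o1, Ideal.isCoprime_iff_sup_eq] at c3
        unfold PrI
        push_cast
        exact c3
      exact D9a_odd hL3 hL6 hOT hD1 hWf hWf2 hO6 hf hf3 hP hPb ha hb haf hbf ha2
  · intro b hb hbf
    have hb' : pp k * b ≠ ⊥ := mul_ne_zero o8 hb
    have hbf' : PrI (pp k * b) f := ((hO6 k).1 f _ _).2 ⟨hppf, hbf⟩
    obtain ⟨-, ⟨E, hE, hE0, hEs⟩, -, -⟩ := hWf2 k f b hf hf3 hb hbf P hP
    obtain ⟨-, ⟨E', hE', hE0', hEs'⟩, -, -⟩ := hWf2 k f (pp k * b) hf hf3 hb' hbf' P hP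
    obtain ⟨-, -, hs, -⟩ := hB6 k b hb
    obtain ⟨n1, hr⟩ := hfr (pp k * b) b hb' hb hbf' hbf
    refine D9a_sq h2 (hDU k (pp k * b) hb' P hP.1 hPb).2.2.1.1 hE' hE (io_inj ?_)
    rw [map_mul, map_mul, map_pow, map_pow, map_mul, hr, map_add, map_mul, (hR1 k _ hb').2, map_one]
    have e4 : io 4 = 4 := map_ofNat io 4
    have e2 : io 2 = 2 := map_ofNat io 2
    rw [e4, e2, mul_pow, div_pow]
    have n2 := pow_ne_zero 2 n1
    have h7 : (1 + 4 * ThC (pp k * b)) ^ 2 * (fr f (pp k * b) ^ 2 * io E') =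
        4 * (fr f b ^ 2 * io E) := by
      rw [hEs', hEs]
      exact hs
    field_simp
    linear_combination -h7

end Pool.Agent.DK
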