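import Pool.Agent.Lib.DK.D.Spec

/-!
# Theorem DK, part D, module D9b: the function `g` above `𝔭`
-/

set_option autoImplicit false

open scoped Pointwise nonZeroDivisors

noncomputable section

namespace Pool.Agent.DK

open Pool.Agent.MuZ Pool.Agent.FW NumberField IsDedekindDomain
open Pool.Agent.DI (io ofC io_inj exists_io io_ofC ofC_io VP MP UP TP ex sqr sqr_sq kap)

variable {k : ℕ}

private theorem D9b_not {P : Ideal ZZ} (h : AbP k P) : ¬ AbPb k P := by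
  intro h'
  have := h.1.1
  have h1 := DI.MP.add h.2.2 h'.2.2
  rw [add_sub_cancel] at h1
  exact DI.MP.one_not h1

/-- **D9b.** `g` above `𝔭`. -/
theorem sD9b (hB : S_B14) (_hX : S_XOm) (_hDU : S_DUn) (hD : S_D1) (hT : S_ThU) (hW : S_Wf)
    (hW2 : S_Wf2) : S_D9b := by
  intro k _ f hf hf3 P hP m b hm hb hm2 hmf hbf z hz hQ
  have hP1 := hP.1.1
  have hPb : ¬ AbPb k P := D9b_not hP
  obtain ⟨hH, -⟩ := hB k m b hm hb hm2
  obtain ⟨t1, t2, t3⟩ := hT k m b hm hb hm2 P hP.1 hPb z hz hQ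
  have hzm : z ∉ Lam (m * b) := by
    intro h
    apply hQ (-z) (lam_neg h)
    intro α β _ _
    rw [add_neg_cancel, mul_zero]
    exact lam_zero b
  have hIK : ∀ u ∈ hs m b, ¬ IK P b u := by
    intro u hu hI
    obtain ⟨u1, u2⟩ := hH.mem u hu
    obtain ⟨-, -, -, -, d5, -⟩ := hD k b hb P hP.1 hPb
    have hq := d5 u hI
    have h1 : (1 : OO k) ∈ m ⊔ Ideal.span {((2 : ℕ) : OO k)} := by
      rw [show m ⊔ Ideal.span {((2 : ℕ) : OO k)} = ⊤ from hm2]
      trivial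
    obtain ⟨v, hv, t, ht, hvt⟩ := Submodule.mem_sup.1 h1
    obtain ⟨s, rfl⟩ := Ideal.mem_span_singleton'.1 ht
    have hα : ¬ MP P (toO v) := by
      intro h2
      have e : (1 : Om) = toO v + toO s * 2 := by
        have := congrArg toO hvt
        rw [toO_add, toO_mul, toO_nat, toO_one] at this
        rw [← this]
        push_cast
        ring
      apply DI.MP.one_not (P := P)
      rw [e]
      exact DI.MP.add h2 (DI.MP.mul_left (toO_VP s) hP.2.1)
    have h3 := hq v 1 hα (by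
      rw [mul_one]
      exact lam_prod.1 u1 v hv)
    rw [toC_one, one_mul] at h3
    exact u2 h3
  have hUP : ∀ u ∈ hs m b, UP P (xO b z - xO b u) := by
    intro u hu
    obtain ⟨u1, u2⟩ := hH.mem u hu
    exact ((t3 u u1 u2).2 (hIK u hu)).2.2
  have hg : gO f m b z = ∑ u ∈ hs m b, wfO f b z * (xO b z - xO b u)⁻¹ :=
    (hW k f b hf hf3 hb hbf).2.2 m hm hm2 hmf z hz hzm
  obtain ⟨y, hy, hy2⟩ := (hW2 k f b hf hf3 hb hbf P hP).2.2.1 z hz t1
  have key : gO f m b z - ∑ u ∈ hs m b, xO b z * (xO b z - xO b u)⁻¹ =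
      2 * ∑ u ∈ hs m b, y * (xO b z - xO b u)⁻¹ := by
    rw [hg, ← Finset.sum_sub_distrib, Finset.mul_sum]
    refine Finset.sum_congr rfl fun u _ => ?_
    rw [← sub_mul, hy2, mul_assoc]
  have hV : VP P (∑ u ∈ hs m b, y * (xO b z - xO b u)⁻¹) :=
    DI.VP.sum _ _ fun u hu => DI.VP.mul hy (DI.UP.inv (hUP u hu)).1
  have hV2 : VP P (∑ u ∈ hs m b, xO b z * (xO b z - xO b u)⁻¹) :=
    DI.VP.sum _ _ fun u hu => DI.VP.mul t2 (DI.UP.inv (hUP u hu)).1
  refine ⟨?_, ⟨_, hV, key⟩⟩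
  have e : gO f m b z = 2 * ∑ u ∈ hs m b, y * (xO b z - xO b u)⁻¹ +
      ∑ u ∈ hs m b, xO b z * (xO b z - xO b u)⁻¹ := by
    rw [← key]
    ring
  rw [e]
  exact DI.VP.add (DI.VP.mul hP.2.1.vp hV) hV2

end Pool.Agent.DK
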