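import Pool.Agent.Lib.DK.D.Spec

/-!
# Theorem DK, part D, module DLg: the logarithmic derivative of the product formula
-/

set_option autoImplicit false

open scoped Pointwise Topology
open Filter

noncomputable section

namespace Pool.Agent.DK

open Pool.Agent.MuZ Pool.Agent.FW NumberField IsDedekindDomain
open Pool.Agent.DI (io ofC io_inj exists_io io_ofC ofC_io VP MP UP TP ex sqr sqr_sq kap)

variable {k : ℕ}

/-- Two points of `Lam b` with a distance `< 1/n`, `n ∈ b`, are equal. -/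
private theorem DLg_sep [SqK k] {b : Ideal (OO k)} {n : ℕ} (hn : (n : OO k) ∈ b) {y y' : ℂ}
    (hy : y ∈ Lam b) (hy' : y' ∈ Lam b) (h : (n : ℝ) * ‖y - y'‖ < 1) (hn0 : 0 < n) : y = y' := by
  obtain ⟨u, hu⟩ := lam_sub hy hy' _ hn
  rw [toC_nat] at hu
  have h1 : ‖toC u‖ < 1 := by
    rw [← hu, norm_mul, Complex.norm_natCast]
    exact h
  have h2 : ((Nm u : ℤ) : ℝ) < 1 := by
    rw [Nm_norm]
    nlinarith [norm_nonneg (toC u)]
  have h3 : Nm u < 1 := by exact_mod_cast h2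
  have h4 : Nm u = 0 := le_antisymm (by omega) (Nm_nonneg u)
  have h5 : u = 0 := Nm_eq_zero h4
  rw [h5, toC_zero] at hu
  have hn' : (n : ℂ) ≠ 0 := by exact_mod_cast hn0.ne'
  exact sub_eq_zero.1 ((mul_eq_zero.1 hu).resolve_left hn')

/-- The complement of `Lam b` is open. -/
private theorem DLg_open [SqK k] {b : Ideal (OO k)} (hb : b ≠ ⊥) {z : ℂ} (hz : z ∉ Lam b) :
    ∀ᶠ y in 𝓝 z, y ∉ Lam b := by
  obtain ⟨n, hn, hnb⟩ := exists_nat hb
  have hn' : (0 : ℝ) < n := by exact_mod_cast hn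
  by_cases h : ∃ y0 ∈ Lam b, (n : ℝ) * ‖y0 - z‖ < 1 / 2
  · obtain ⟨y0, hy0, h0⟩ := h
    have hne : 0 < ‖y0 - z‖ := by
      rw [norm_pos_iff, sub_ne_zero]
      rintro rfl
      exact hz hy0
    filter_upwards [Metric.ball_mem_nhds z hne, Metric.ball_mem_nhds z (show (0 : ℝ) < 1 / (2 * n) by
      positivity)] with y hy1 hy2 hy
    rw [mem_ball_iff_norm] at hy1 hy2
    have h1 : (n : ℝ) * ‖y - z‖ < 1 / 2 := by
      have := mul_lt_mul_of_pos_left hy2 hn'
      have e : (n : ℝ) * (1 / (2 * n)) = 1 / 2 := by field_simp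
      rwa [e] at this
    have h2 : (n : ℝ) * ‖y - y0‖ < 1 := by
      have h3 : ‖y - y0‖ ≤ ‖y - z‖ + ‖y0 - z‖ := by
        have e : y - y0 = (y - z) - (y0 - z) := by ring
        rw [e]
        exact norm_sub_le _ _
      have h4 := mul_le_mul_of_nonneg_left h3 hn'.le
      rw [mul_add] at h4
      linarith
    have h5 := DLg_sep hnb hy hy0 h2 hn
    rw [h5] at hy1
    exact lt_irrefl _ hy1
  · push Not at h
    filter_upwards [Metric.ball_mem_nhds z (show (0 : ℝ) < 1 / (2 * n) by positivity)] with y hy1 hy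
    rw [mem_ball_iff_norm] at hy1
    have h1 : (n : ℝ) * ‖y - z‖ < 1 / 2 := by
      have := mul_lt_mul_of_pos_left hy1 hn'
      have e : (n : ℝ) * (1 / (2 * n)) = 1 / 2 := by field_simp
      rwa [e] at this
    exact absurd h1 (not_lt.2 (h y hy))

/-- **DLg.** -/
theorem sDLg (_hL3 : S_L3) (hL6 : S_L6) (hB1 : S_B1) (hB2 : S_B2) (hB8 : S_B8) : S_DLg := by
  classical
  intro k _ a b ha hb ha2 R hR z hz hX
  have hab : a * b ≠ ⊥ := mul_ne_zero ha hb
  obtain ⟨-, ⟨-, hS, -⟩, ⟨-, hS2, -⟩, -, -, hodd, -, -⟩ := hL6 k b hb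
  obtain ⟨hper, -, hs2, -, -, -, -, -, -, hxS, -⟩ := hB1 k b hb
  obtain ⟨hper', -, hs2', -, -, -, -, -, -, hxS', -⟩ := hB1 k (a * b) hab
  obtain ⟨hprod, hne⟩ := hB8 k a b ha hb ha2 R hR (ptS b) hS2 hS
  rw [hxS] at hprod hne
  have hxT : XC (a * b) (ptS b) = 0 := by
    have h1 := (hper' (ptS b) _ (hodd a ha ha2).2.1).2.2
    have e : ptS b + (ptS (a * b) - ptS b) = ptS (a * b) := by ring
    rw [e, hxS'] at h1
    exact h1.symm
  rw [hxT] at hprod
  obtain ⟨C, hC⟩ : ∃ C : ℂ, C = s2 (a * b) / s2 b *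
      ∏ u ∈ R, (if u ∈ Lam b then 1 else XC b u - 0) := ⟨_, rfl⟩
  rw [← hC] at hprod
  simp only [sub_zero] at hprod
  have hC0 : C ≠ 0 := by
    rw [hC]
    refine mul_ne_zero (div_ne_zero hs2' hs2) (Finset.prod_ne_zero_iff.2 fun u hu => ?_)
    split_ifs with h
    · exact one_ne_zero
    · rw [sub_zero]
      exact hne u hu h
  -- the points `z + u`
  have hzu : ∀ u ∈ R, z + u ∉ Lam b := by
    intro u hu h
    apply hz
    have h1 := lam_sub (lam_mono (a := a) h) (hR.mem u hu)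
    rwa [add_sub_cancel_right] at h1
  have hprod0 : ∏ u ∈ R, XC b (z + u) ≠ 0 := by
    rw [hprod z hz]
    exact mul_ne_zero hC0 hX
  have hX0 : ∀ u ∈ R, XC b (z + u) ≠ 0 := Finset.prod_ne_zero_iff.1 hprod0
  refine ⟨hX0, ?_⟩
  -- the derivatives
  have hd : ∀ u ∈ R, HasDerivAt (fun y => XC b (y + u)) (wdC b (z + u) / s2 b) z := by
    intro u hu
    have h1 := (hB2 k b hb _ (hzu u hu)).2.2.2.1
    exact h1.comp_add_const z u
  have hd' : HasDerivAt (XC (a * b)) (wdC (a * b) z / s2 (a * b)) z := (hB2 k _ hab z hz).2.2.2.1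
  have heq : (fun y => ∏ u ∈ R, XC b (y + u)) =ᶠ[𝓝 z] fun y => C * XC (a * b) y := by
    filter_upwards [DLg_open hab hz] with y hy
    exact hprod y hy
  have h1 : logDeriv (fun y => ∏ u ∈ R, XC b (y + u)) z =
      ∑ u ∈ R, wdC b (z + u) / (s2 b * XC b (z + u)) := by
    have h2 := logDeriv_prod (s := R) (f := fun u y => XC b (y + u)) (x := z) hX0
      (fun u hu => (hd u hu).differentiableAt)
    rw [h2]
    refine Finset.sum_congr rfl fun u hu => ?_
    rw [logDeriv_apply, (hd u hu).deriv, div_div]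
  rw [← h1, logDeriv_apply, heq.deriv_eq, heq.eq_of_nhds, (hd'.const_mul C).deriv,
    mul_div_mul_left _ _ hC0, div_div]

end Pool.Agent.DK
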