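import Pool.Agent.Lib.DK.D.Spec

/-!
# Theorem DK, module DUn: units at `Q`
-/

set_option autoImplicit false

noncomputable section

namespace Pool.Agent.DK

open Pool.Agent.MuZ Pool.Agent.FW NumberField IsDedekindDomain
open Pool.Agent.DI (io ofC io_inj exists_io io_ofC ofC_io VP MP UP TP ex sqr sqr_sq kap)

private theorem DUn_bez {Q : Ideal ZZ} [Q.IsPrime] {d t : Om} (hd : UP Q d)
    (hd' : UP Q (1 - 16 * d)) (ht : VP Q t) (h1 : MP Q (t * (t + 4 * d) * (4 * t + 1))) :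
    ¬ MP Q ((t ^ 2 - d) ^ 2) := by
  intro h2
  have h3 : MP Q (t ^ 2 - d) := MP.of_pow h2
  have v4 : VP Q (4 : Om) := by simpa using VP.nat (P := Q) 4
  have v16 : VP Q (16 : Om) := by simpa using VP.nat (P := Q) 16
  have vt : VP Q (t + 4 * d) := ht.add (v4.mul hd.1)
  have vs : VP Q (4 * t + 1) := (v4.mul ht).add VP.one
  rcases MP.mul_cases (ht.mul vt) vs h1 with h | h
  · rcases MP.mul_cases ht vt h with h | h
    · -- `t ∈ m`
      apply hd.2
      have e : d = t * t - (t ^ 2 - d) := by ring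
      rw [e]
      exact (MP.mul_left ht h).sub h3
    · -- `t + 4 d ∈ m`
      have h4 : MP Q (d * (1 - 16 * d)) := by
        have e : d * (1 - 16 * d) = (t + 4 * d) * (t - 4 * d) - (t ^ 2 - d) := by ring
        rw [e]
        exact (MP.mul_right h (ht.sub (v4.mul hd.1))).sub h3
      rcases MP.mul_cases hd.1 hd'.1 h4 with h5 | h5
      · exact hd.2 h5
      · exact hd'.2 h5
  · -- `4 t + 1 ∈ m`
    apply hd'.2
    have e : 1 - 16 * d = 16 * (t ^ 2 - d) - (4 * t + 1) * (4 * t - 1) := by ring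
    rw [e]
    exact (MP.mul_left v16 h3).sub (MP.mul_right h ((v4.mul ht).sub VP.one))

theorem sDUn (_hX : S_XOm) (hA : S_AbQ) (hR2 : S_R2) : S_DUn := by
  intro k _ b hb Q hQ hQb
  haveI : Q.IsPrime := hQ.1
  obtain ⟨r1, r2, -⟩ := hR2 k b hb Q hQ
  by_cases h2 : MP Q (2 : Om)
  · have hP : AbP k Q := (((hA k).2.2.2.2.1 Q).2.2.2 hQ h2).resolve_right hQb
    obtain ⟨u1, u2, -, -⟩ := r2 hP
    have v8 : VP Q (8 : Om) := by simpa using VP.nat (P := Q) 8
    have v2 : VP Q (2 : Om) := by simpa using VP.nat (P := Q) 2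
    have u3 : UP Q (1 - 16 * dO b) := by
      refine UP.one.congr ?_
      have e : 1 - 16 * dO b - 1 = -(2 * (8 * dO b)) := by ring
      rw [e]
      exact (MP.mul_right h2 (v8.mul u1.1)).neg
    have u4 : UP Q (1 + 4 * tO b) := by
      refine UP.one.congr ?_
      have e : 1 + 4 * tO b - 1 = 2 * (2 * tO b) := by ring
      rw [e]
      exact MP.mul_right h2 (v2.mul u2.1)
    exact ⟨u1, u3, u2, u4, Or.inr hP, fun t ht h1 => DUn_bez u1 u3 ht h1⟩
  · obtain ⟨u1, u3, u2, u4⟩ := r1 h2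
    exact ⟨u1, u3, u2, u4, Or.inl h2, fun t ht h1 => DUn_bez u1 u3 ht h1⟩

end Pool.Agent.DK
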