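import Pool.Agent.Lib.DK.D.Spec

/-!
# Theorem DK: the distribution relation of theta for `2`
-/

set_option autoImplicit false

noncomputable section

namespace Pool.Agent.DK

open Pool.Agent.MuZ Pool.Agent.FW NumberField IsDedekindDomain
open Pool.Agent.DI (io ofC io_inj)

variable {k : ℕ}

/-- The product of a periodic function over a system of representatives of the points of order two. -/
private theorem Dis2_sys [SqK k] (h6 : S_L6) {b : Ideal (OO k)} (hb : b ≠ ⊥) {R : Finset ℂ}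
    (hR : IsSys (sp 2) b R) (F : ℂ → Om) (hF : ∀ w l : ℂ, l ∈ Lam b → F (w + l) = F w) :
    ∏ v ∈ R, F v = F 0 * F (ptS b) * F (ptT b) * F (ptS b + ptT b) := by
  classical
  obtain ⟨⟨-, hT, -⟩, ⟨-, hS, -⟩, ⟨h2T, h2S, hST, hST', hall⟩, -⟩ := h6 k b hb
  have m2 : ∀ w : ℂ, w ∈ Lam (sp (2 : OO k) * b) ↔ 2 * w ∈ Lam b := by
    intro w
    rw [lam_sp, toC_two]
  have e0 : (0 : ℂ) ∈ Lam (sp (2 : OO k) * b) := lam_zero _
  have eT : ptT b ∈ Lam (sp (2 : OO k) * b) := (m2 _).2 h2T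
  have eS : ptS b ∈ Lam (sp (2 : OO k) * b) := (m2 _).2 h2S
  have eST : ptS b + ptT b ∈ Lam (sp (2 : OO k) * b) := lam_add eS eT
  obtain ⟨r0, hr0, k0⟩ := hR.ex _ e0
  obtain ⟨rT, hrT, kT⟩ := hR.ex _ eT
  obtain ⟨rS, hrS, kS⟩ := hR.ex _ eS
  obtain ⟨rX, hrX, kX⟩ := hR.ex _ eST
  -- two representatives are different
  have ne : ∀ w w' r r' : ℂ, w - r ∈ Lam b → w' - r' ∈ Lam b → w' - w ∉ Lam b → r ≠ r' := by
    rintro w w' r r' h1 h2 h3 rfl
    apply h3
    have := lam_sub h2 h1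
    rwa [show w' - r - (w - r) = w' - w by ring] at this
  have n0T : r0 ≠ rT := ne 0 _ _ _ k0 kT (by rwa [sub_zero])
  have n0S : r0 ≠ rS := ne 0 _ _ _ k0 kS (by rwa [sub_zero])
  have n0X : r0 ≠ rX := ne 0 _ _ _ k0 kX (by rwa [sub_zero])
  have nST : rS ≠ rT := ne _ _ _ _ kS kT (by
    intro h
    apply hST'
    have := lam_neg h
    rwa [neg_sub] at this)
  have nSX : rS ≠ rX := ne _ _ _ _ kS kX (by rwa [add_sub_cancel_left])
  have nTX : rT ≠ rX := ne _ _ _ _ kT kX (by rwa [add_sub_cancel_right])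
  have eq : ∀ w r u : ℂ, r ∈ R → u ∈ R → w - r ∈ Lam b → u - w ∈ Lam b → u = r := by
    intro w r u h1 h2 h3 h4
    apply hR.uni u h2 r h1
    have := lam_add h4 h3
    rwa [show u - w + (w - r) = u - r by ring] at this
  have hset : R = {r0, rS, rT, rX} := by
    ext u
    simp only [Finset.mem_insert, Finset.mem_singleton]
    constructor
    · intro hu
      have h2u : 2 * u ∈ Lam b := (m2 u).1 (hR.mem u hu)
      rcases hall u h2u with h | h | h | h
      · exact Or.inl (eq 0 _ _ hr0 hu k0 (by rwa [sub_zero]))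
      · exact Or.inr (Or.inr (Or.inl (eq _ _ _ hrT hu kT h)))
      · exact Or.inr (Or.inl (eq _ _ _ hrS hu kS h))
      · exact Or.inr (Or.inr (Or.inr (eq _ _ _ hrX hu kX h)))
    · rintro (rfl | rfl | rfl | rfl)
      · exact hr0
      · exact hrS
      · exact hrT
      · exact hrX
  have fr : ∀ w r : ℂ, w - r ∈ Lam b → F r = F w := by
    intro w r h
    rw [← hF r (w - r) h, add_sub_cancel]
  rw [hset, Finset.prod_insert, Finset.prod_insert, Finset.prod_insert, Finset.prod_singleton,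
    fr 0 r0 k0, fr _ rS kS, fr _ rT kT, fr _ rX kX]
  · ring
  · simpa using nTX
  · simp only [Finset.mem_insert, Finset.mem_singleton, not_or]
    exact ⟨nST, nSX⟩
  · simp only [Finset.mem_insert, Finset.mem_singleton, not_or]
    exact ⟨n0S, n0T, n0X⟩

/-- The points of `Lam (m b)` are of odd order. -/
private theorem Dis2_odd [SqK k] {m b : Ideal (OO k)} (hm2 : PrI m 2) {u : ℂ} (hu : u ∈ Lam (m * b))
    (h : 2 * u ∈ Lam b) : u ∈ Lam b := by
  have h1 : (1 : OO k) ∈ m ⊔ Ideal.span {((2 : ℕ) : OO k)} := by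
    rw [hm2]
    trivial
  obtain ⟨v, hv, w, hw, hvw⟩ := Submodule.mem_sup.1 h1
  obtain ⟨w', hw'⟩ := Ideal.mem_span_singleton'.1 hw
  have e : u = toC v * u + toC w' * (2 * u) := by
    have e1 : toC v + toC w' * 2 = 1 := by
      rw [← toC_two (k := k), ← toC_mul, ← toC_add, ← toC_one (k := k)]
      congr 1
      rw [← hvw, ← hw']
      norm_num
    linear_combination (-u) * e1
  rw [e]
  exact lam_add (lam_prod.1 hu v hv) (lam_mul w' h)

private theorem Dis2_alg {W A D : Om} (h : A = -W * D) : W ^ 4 * (A ^ 3)⁻¹ = -1 * (W * (D ^ 3)⁻¹) := by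
  rw [h]
  by_cases hW : W = 0
  · rw [hW]
    simp
  · rw [show (-W * D) ^ 3 = -(W ^ 3) * D ^ 3 by ring, mul_inv, inv_neg]
    have h3 : W ^ 4 * (W ^ 3)⁻¹ = W := by field_simp
    linear_combination (-(D ^ 3)⁻¹) * h3

theorem sDis2 (_h1 : S_L3) (h2 : S_L6) (h3 : S_B14) (h4 : S_B15) (h5 : S_XOm) (h6 : S_R4)
    (h7 : S_HsP) (h8 : S_D8a) : S_Dis2 := by
  classical
  intro k _ m b hm hb hm2 R hR z hz h2z
  obtain ⟨⟨x1, x2, -, -, -, x6, -⟩, -⟩ := h5 k b hb
  obtain ⟨-, ⟨-, hSS, -⟩, ⟨h2T, h2S, hST, -⟩, -⟩ := h2 k b hb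
  obtain ⟨-, d2, d3, -⟩ := h8 k m b hm hb hm2
  obtain ⟨p1, -, -, p4, -⟩ := h7 k m b hm hb hm2
  have hH : IsHalf m b (hs m b) := (h3 k m b hm hb hm2).1
  have hio : ∀ w : ℂ, Tor k w → io (xO b w) = XC b w := h6.1 k b hb
  have tS : Tor k (ptS b) := (tor_iff hb).2 ⟨2, two_pos, by exact_mod_cast h2S⟩
  have tT : Tor k (ptT b) := (tor_iff hb).2 ⟨2, two_pos, by exact_mod_cast h2T⟩
  have hmb : m * b ≠ ⊥ := mul_ne_zero hm hb
  have hd : io (dO b) = DC b := by
    have e1 : io (xO b (ptS b + ptT b)) = XC b (ptS b + ptT b) := hio _ (tor_add tS tT)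
    rw [x6] at e1
    have e2 : io (-4 * dO b) = -4 * io (dO b) := by
      rw [map_mul, map_neg, map_ofNat]
    rw [e2] at e1
    unfold DC
    rw [← e1]
    ring
  have h2z' : 2 * z ∉ Lam b := fun h => h2z (lam_mono h)
  -- the basic relation
  have key : ∀ u ∈ hs m b, (xO b z - xO b u) * (xO b (z + ptS b) - xO b u) *
      (xO b (z + ptT b) - xO b u) * (xO b (z + (ptS b + ptT b)) - xO b u) =
      -W2 b u * (xO b (2 * z) - xO b (2 * u)) := by
    intro u hu
    obtain ⟨hu1, hu2⟩ := hH.mem u hu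
    have h2u : 2 * u ∉ Lam b := fun h => hu2 (Dis2_odd hm2 hu1 h)
    have tu : Tor k u := tor_lam hmb hu1
    have t2u : Tor k (2 * u) := by
      have := tor_mul (k := k) 2 tu
      rwa [toC_two] at this
    have t2z : Tor k (2 * z) := by
      have := tor_mul (k := k) 2 hz
      rwa [toC_two] at this
    apply io_inj
    have e := h4 k b hb u z h2u h2z'
    rw [← hio z hz, ← hio u tu, ← hio _ (tor_add hz tS), ← hio _ (tor_add hz tT),
      ← hio _ (tor_add hz (tor_add tS tT)), ← hio _ t2z, ← hio _ t2u, ← hd] at e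
    unfold W2
    simp only [map_mul, map_sub, map_neg, map_add, map_ofNat, map_one]
    rw [e]
  -- the product over the system
  have q1 : ∏ v ∈ R, th0 m b (z + v) = th0 m b z * th0 m b (z + ptS b) * th0 m b (z + ptT b) *
      th0 m b (z + (ptS b + ptT b)) := by
    have := Dis2_sys h2 hb hR (fun v => th0 m b (z + v)) (fun w l hl => by
      rw [← add_assoc]
      exact (d3 (z + w)).2 l hl)
    rw [this]
    simp only [add_zero]
  have q2 : ∏ v ∈ R, th0 m b (z + v) =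
      (-1) ^ (hs m b).card * ((∏ u ∈ hs m b, W2 b u) *
        ∏ u ∈ hs m b, ((xO b (2 * z) - xO b (2 * u)) ^ 3)⁻¹) := by
    rw [q1]
    unfold th0
    rw [← Finset.prod_mul_distrib, ← Finset.prod_mul_distrib, ← Finset.prod_mul_distrib,
      ← Finset.prod_mul_distrib, ← Finset.prod_const, ← Finset.prod_mul_distrib]
    refine Finset.prod_congr rfl fun u hu => ?_
    rw [← Dis2_alg (key u hu)]
    simp only [mul_pow, mul_inv]
    ring
  -- the half system `2 hs`
  have hcop : sp (2 : OO k) ⊔ m = ⊤ := by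
    rw [sup_comm]
    have := hm2
    unfold PrI at this
    exact_mod_cast this
  have hH2 : IsHalf m b ((hs m b).image fun u => toC (2 : OO k) * u) := p4 2 _ hcop hH
  have hinj : ∀ u ∈ hs m b, ∀ u' ∈ hs m b, toC (2 : OO k) * u = toC (2 : OO k) * u' → u = u' := by
    intro u _ u' _ h
    rw [toC_two] at h
    exact mul_left_cancel₀ two_ne_zero h
  have q3 : ∏ u ∈ hs m b, W2 b u = ∏ u ∈ hs m b, W2 b (2 * u) := by
    have hW : ∀ w ∈ Lam (m * b), W2 b (-w) = W2 b w ∧ ∀ l ∈ Lam b, W2 b (w + l) = W2 b w := by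
      intro w _
      refine ⟨?_, fun l hl => ?_⟩
      · unfold W2
        rw [x2]
      · unfold W2
        rw [x1 w l hl]
    rw [p1 _ _ hH hH2 (W2 b) hW, Finset.prod_image hinj, toC_two]
  have q4 : th0 m b (2 * z) = (∏ u ∈ hs m b, W2 b (2 * u)) *
      ∏ u ∈ hs m b, ((xO b (2 * z) - xO b (2 * u)) ^ 3)⁻¹ := by
    rw [← d2 _ hH2 (2 * z), Finset.prod_image hinj, toC_two, ← Finset.prod_mul_distrib]
  rw [q2, q4, q3]

end Pool.Agent.DK
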