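import Pool.Agent.Lib.DK.D.Spec

/-!
# Theorem DK, part D, module KN2: the kernel of reduction and the two isogenies of degree two
-/

set_option autoImplicit false

open scoped Pointwise nonZeroDivisors

noncomputable section

namespace Pool.Agent.DK

open Pool.Agent.MuZ Pool.Agent.FW NumberField IsDedekindDomain
open Pool.Agent.DI (io ofC io_inj exists_io io_ofC ofC_io VP MP UP TP ex sqr sqr_sq kap)

private theorem KN2_pp (k : ℕ) {b : Ideal (OO k)} [SqK k] (hb : b ≠ ⊥) : pp k * b ≠ ⊥ := by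
  have h1 : pp k ≠ ⊥ := by
    intro h
    have h2 : (2 : OO k) ∈ pp k := Ideal.subset_span (by simp)
    rw [h, Ideal.mem_bot] at h2
    have h3 : ((2 : ℕ) : OO k).re = (0 : OO k).re := by
      rw [show ((2 : ℕ) : OO k) = 2 by norm_num, h2]
    rw [re_nat] at h3
    have h4 : (0 : OO k).re = 0 := rfl
    rw [h4] at h3
    norm_num at h3
  exact mul_ne_zero h1 hb

/-- Pure algebra: the isogeny of degree two with kernel generated by `S`. -/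
private theorem KN2_alg1 {Q : Ideal ZZ} (hP : Npr Q) {X X' t : Om} (hX0 : X ≠ 0) (hX : MP Q X⁻¹)
    (ht : VP Q t) (h1 : VP Q (1 + 4 * t)) (h : X' * ((1 + 4 * t) ^ 2 * X) = (X - t) ^ 2) :
    ¬ VP Q X' := by
  have := hP.1
  intro hv
  have e : X' * (1 + 4 * t) ^ 2 * X⁻¹ = (1 - t * X⁻¹) ^ 2 := by
    have e1 : X' * (1 + 4 * t) ^ 2 * X⁻¹ = X' * ((1 + 4 * t) ^ 2 * X) * (X⁻¹) ^ 2 := by
      field_simp
    rw [e1, h]
    field_simp
  have h2 : MP Q ((1 - t * X⁻¹) ^ 2) := by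
    rw [← e]
    exact DI.MP.mul_left (DI.VP.mul hv (DI.VP.pow h1 2)) hX
  have h3 : MP Q (1 - t * X⁻¹) := DI.MP.of_pow h2
  have h4 : MP Q (t * X⁻¹) := DI.MP.mul_left ht hX
  have h5 := DI.MP.add h3 h4
  rw [sub_add_cancel] at h5
  exact DI.MP.one_not h5

/-- Pure algebra: the isogeny of degree two with kernel generated by `T`. -/
private theorem KN2_alg2 {Q : Ideal ZZ} (hP : Npr Q) {X X' t d : Om} (hX0 : X ≠ 0) (hX : MP Q X⁻¹)
    (hd : VP Q d) (h1 : UP Q (1 + 4 * t))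
    (h : X' * (4 * X + 1) = (1 + 4 * t) ^ 2 * (X * (X + 4 * d))) : ¬ VP Q X' := by
  have := hP.1
  intro hv
  have e : X' * ((4 + X⁻¹) * X⁻¹) = (1 + 4 * t) ^ 2 * (1 + 4 * d * X⁻¹) := by
    have e1 : X' * ((4 + X⁻¹) * X⁻¹) = X' * (4 * X + 1) * (X⁻¹) ^ 2 := by
      field_simp
    rw [e1, h]
    field_simp
  have v4 : VP Q (4 : Om) := by
    have := DI.VP.nat (P := Q) 4
    simpa using this
  have h2 : MP Q (X' * ((4 + X⁻¹) * X⁻¹)) :=
    DI.MP.mul_left hv (DI.MP.mul_left (DI.VP.add v4 (DI.MP.vp hX)) hX)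
  have h3 : UP Q (1 + 4 * d * X⁻¹) := by
    refine DI.UP.congr DI.UP.one ?_
    rw [add_sub_cancel_left]
    exact DI.MP.mul_left (DI.VP.mul v4 hd) hX
  have h4 : UP Q ((1 + 4 * t) ^ 2 * (1 + 4 * d * X⁻¹)) := DI.UP.mul (DI.UP.pow h1 2) h3
  rw [e] at h2
  exact h4.2 h2

theorem sKN2 (hX : S_XOm) (hD : S_DUn) : S_KN2 := by
  intro k _ b hb Q hQ hA z hz
  have := hQ.1
  obtain ⟨ht, hz⟩ := hz
  rcases hz with hz | hz
  · exact ⟨⟨ht, Or.inl (lam_mono hz)⟩, ⟨ht, Or.inl (lam_mono hz)⟩⟩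
  obtain ⟨hX0, hXi⟩ := DI.VP.not_iff.1 hz
  obtain ⟨-, -, -, -, -, -, ⟨-, -, hS⟩, ⟨-, -, hT⟩, -⟩ := hX k b hb
  obtain ⟨d1, -, d3, d4, -, -⟩ := hD k b hb Q hQ hA
  obtain ⟨-, -, -, d4', -, -⟩ := hD k (pp k * b) (KN2_pp k hb) Q hQ hA
  refine ⟨⟨ht, ?_⟩, ⟨ht, ?_⟩⟩
  · by_cases h1 : z ∈ Lam (ppb k * b)
    · exact Or.inl h1
    · exact Or.inr (KN2_alg1 hQ hX0 hXi d3.1 d4.1 (hS z ht h1))
  · by_cases h1 : z ∈ Lam (pp k * b)
    · exact Or.inl h1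
    · exact Or.inr (KN2_alg2 hQ hX0 hXi d1.1 d4' (hT z ht h1))

end Pool.Agent.DK
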