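import Pool.Agent.Lib.DK.D.Spec

/-!
# Theorem DK, part D, module KNa: the kernel of reduction is an `O`-module (helper49)
-/

set_option autoImplicit false

open scoped Pointwise nonZeroDivisors

noncomputable section

namespace Pool.Agent.DK

open Pool.Agent.MuZ Pool.Agent.FW NumberField IsDedekindDomain
open Pool.Agent.DI (io ofC io_inj exists_io io_ofC ofC_io VP MP UP TP ex sqr sqr_sq kap)

variable {k : ℕ}

private theorem KNa_eq [SqK k] {p q : Ideal (OO k)} (hq : q.IsPrime) (hq0 : q ≠ ⊥) (hp : p.IsPrime)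
    (h : q ≤ p) : p = q :=
  ((hq.isMaximal hq0).eq_of_le hp.ne_top h).symm

private theorem KNa_cases [SqK k] (h4 : S_O4) {p : Ideal (OO k)} (hp : p.IsPrime) (hp0 : p ≠ ⊥) :
    p = pp k ∨ p = ppb k ∨ PrI p 2 := by
  obtain ⟨h1, -, h2, h3, -, -, -, h5, h6, -, -⟩ := h4 k
  by_cases h : PrI p 2
  · exact Or.inr (Or.inr h)
  · have h7 : p ⊔ Ideal.span {((2 : ℕ) : OO k)} = p :=
      ((hp.isMaximal hp0).eq_of_le h le_sup_left).symm
    have h8 : pp k * ppb k ≤ p := by
      rw [h1, sp]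
      rw [← h7]
      rw [Nat.cast_ofNat]
      exact le_sup_right
    rcases hp.mul_le.1 h8 with h9 | h9
    · exact Or.inl (KNa_eq h2 h5 hp h9)
    · exact Or.inr (Or.inl (KNa_eq h3 h6 hp h9))

theorem sKNa (h4 : S_O4) (hX : S_XOm) (h2 : S_KN2) (hq : S_KNq) : S_KNa := by
  intro k _ b hb Q hQ hQb
  have main : ∀ (a : Ideal (OO k)) (b : Ideal (OO k)) (z : ℂ), b ≠ ⊥ → a ≠ ⊥ → IK Q b z →
      IK Q (a * b) z := by
    intro a
    induction a using UniqueFactorizationMonoid.induction_on_prime with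
    | h₁ => intro b z _ h; exact absurd rfl h
    | h₂ x hx =>
      intro b z _ _ h
      rw [Ideal.isUnit_iff.1 hx, Ideal.top_mul]
      exact h
    | h₃ a p ha hp ih =>
      intro b z hb _ h
      have h5 := ih b z hb ha h
      have h6 : a * b ≠ ⊥ := mul_ne_zero ha hb
      have hp' : p.IsPrime := Ideal.isPrime_of_prime hp
      rw [mul_assoc]
      rcases KNa_cases h4 hp' hp.ne_zero with rfl | rfl | h7
      · exact (h2 k (a * b) h6 Q hQ hQb z h5).2
      · exact (h2 k (a * b) h6 Q hQ hQb z h5).1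
      · exact (hq k p (a * b) hp.ne_zero h6 h7 Q hQ hQb).2 z h5
  refine ⟨fun a z ha h => main a b z hb ha h, fun v z h => ?_⟩
  by_cases hv : v = 0
  · subst hv
    rw [toC_zero, zero_mul]
    exact ⟨tor_lam hb (lam_zero b), Or.inl (lam_zero b)⟩
  · have h5 : sp v ≠ ⊥ := by
      rwa [sp, Ne, Ideal.span_singleton_eq_bot]
    obtain ⟨h6, h7⟩ := main (sp v) b z hb h5 h
    refine ⟨tor_mul v h6, ?_⟩
    obtain ⟨-, -, -, -, -, -, -, -, h8⟩ := hX k b hb
    rcases h7 with h7 | h7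
    · exact Or.inl (lam_sp.1 h7)
    · right
      rwa [(h8 v hv).1 z] at h7

end Pool.Agent.DK
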