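import Pool.Agent.Lib.DK.D.Spec

/-!
# Theorem DK, part D, module KNq: the kernel and isogenies of odd degree
-/

set_option autoImplicit false

open scoped Pointwise nonZeroDivisors

noncomputable section

namespace Pool.Agent.DK

open Pool.Agent.MuZ Pool.Agent.FW NumberField IsDedekindDomain
open Pool.Agent.DI (io ofC io_inj exists_io io_ofC ofC_io VP MP UP TP ex sqr sqr_sq kap)

variable {k : ℕ}

/-- The norm of an ideal is in the ideal. -/
private theorem KNq_norm_mem (a : Ideal (OO k)) : ((NI a : ℕ) : OO k) ∈ a := by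
  rw [← Ideal.Quotient.eq_zero_iff_mem, map_natCast]
  have h := card_nsmul_eq_zero' (x := (1 : OO k ⧸ a))
  rw [nsmul_one] at h
  exact h

private theorem KNq_norm_lam [SqK k] {a b : Ideal (OO k)} {u : ℂ} (hu : u ∈ Lam (a * b)) :
    ((NI a : ℕ) : ℂ) * u ∈ Lam b := by
  rw [← toC_nat (k := k)]
  exact lam_prod.1 hu _ (KNq_norm_mem a)

private theorem KNq_two_mem : (2 : OO k) ∈ ppb k := Ideal.subset_span (Set.mem_insert _ _)

private theorem KNq_two_ne : (2 : OO k) ≠ 0 := by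
  intro h
  have h1 := congrArg QuadraticAlgebra.re h
  have h2 : ((2 : OO k)).re = 2 := by
    have := re_nat (k := k) 2
    exact_mod_cast this
  rw [h2, QuadraticAlgebra.re_zero] at h1
  omega

private theorem KNq_ppb_ne : ppb k ≠ ⊥ := by
  intro h
  have h1 := KNq_two_mem (k := k)
  rw [h] at h1
  exact KNq_two_ne ((Submodule.mem_bot _).1 h1)

/-- Twice the point `S` is in the lattice. -/
private theorem KNq_twoS [SqK k] (hL3 : S_L3) {b : Ideal (OO k)} (hb : b ≠ ⊥) :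
    2 * ptS b ∈ Lam b := by
  have h := (hL3 k (ppb k) b KNq_ppb_ne hb).1
  have h1 : ptS b ∈ Lam (ppb k * b) := by
    unfold ptS gen
    rw [dif_pos h]
    exact h.choose_spec.1
  have h2 := lam_prod.1 h1 2 KNq_two_mem
  rwa [toC_two] at h2

private theorem KNq_nat [SqK k] {Q : Ideal ZZ} {b : Ideal (OO k)}
    (hK : (∀ z z' : ℂ, IK Q b z → IK Q b z' → IK Q b (z + z')) ∧ (∀ z : ℂ, IK Q b z → IK Q b (-z)) ∧
      ∀ z ∈ Lam b, IK Q b z) {z : ℂ} (hz : IK Q b z) (n : ℕ) : IK Q b ((n : ℂ) * z) := by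
  induction n with
  | zero =>
    rw [Nat.cast_zero, zero_mul]
    exact hK.2.2 0 (lam_zero b)
  | succ n ih =>
    rw [Nat.cast_succ, add_mul, one_mul]
    exact hK.1 _ _ ih hz

/-- A point of `Lam (a b)` is in the kernel if its double is. -/
private theorem KNq_half [SqK k] {Q : Ideal ZZ} {a b : Ideal (OO k)}
    (hK : (∀ z z' : ℂ, IK Q b z → IK Q b z' → IK Q b (z + z')) ∧ (∀ z : ℂ, IK Q b z → IK Q b (-z)) ∧
      ∀ z ∈ Lam b, IK Q b z) (hodd : Odd (NI a)) {u : ℂ} (hu : u ∈ Lam (a * b))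
    (h2 : IK Q b (2 * u)) : IK Q b u := by
  obtain ⟨m, hm⟩ := hodd
  have h3 := hK.2.2 _ (KNq_norm_lam hu)
  have h4 := hK.1 _ _ h3 (hK.2.1 _ (KNq_nat hK h2 m))
  have e : ((NI a : ℕ) : ℂ) * u + -((m : ℂ) * (2 * u)) = u := by
    rw [hm]
    push_cast
    ring
  rwa [e] at h4

theorem sKNq (hL3 : S_L3) (hOddT : S_OddT) (hXOm : S_XOm) (hDUn : S_DUn) (hKSub : S_KSub)
    (hKRed : S_KRed) (hKSep : S_KSep) (hKTST : S_KTST) (hPrC : S_PrC) : S_KNq := by
  intro k _ a b ha hb ha2 Q hQ hQb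
  have : Q.IsPrime := hQ.1
  have hab : a * b ≠ ⊥ := mul_ne_zero ha hb
  have hK := hKSub k b hb Q hQ hQb
  have hodd := (hOddT k a b ha hb ha2).2
  have hS := hKTST k b hb Q hQ hQb
  have hxS : xO b (ptS b) = 0 := (hXOm k b hb).1.2.2.2.1
  have h2S : 2 * ptS b ∈ Lam b := KNq_twoS hL3 hb
  have hone : ∀ u ∈ Lam (a * b), ¬ IK Q b u → UP Q (xO b u) := by
    intro u hu hnu
    have htu : Tor k u := tor_lam hab hu
    have hv : VP Q (xO b u) := by
      by_contra h
      exact hnu ⟨htu, Or.inr h⟩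
    refine ⟨hv, fun hm => hnu (KNq_half hK hodd hu ?_)⟩
    have h1 : MP Q (xO b u - xO b (ptS b)) := by
      rw [hxS, sub_zero]
      exact hm
    rcases hKSep k b hb Q hQ hQb u (ptS b) htu hS.2.1 hnu hS.2.2.1 h1 with h | h
    · have h3 := hK.1 _ _ (hK.1 _ _ h h) (hK.2.1 _ (hK.2.2 _ h2S))
      have e : u + ptS b + (u + ptS b) + -(2 * ptS b) = 2 * u := by ring
      rwa [e] at h3
    · have h3 := hK.1 _ _ (hK.1 _ _ h h) (hK.2.2 _ h2S)
      have e : u - ptS b + (u - ptS b) + 2 * ptS b = 2 * u := by ring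
      rwa [e] at h3
  refine ⟨hone, fun z hz => ?_⟩
  refine ⟨hz.1, ?_⟩
  by_cases hzl : z ∈ Lam (a * b)
  · exact Or.inl hzl
  refine Or.inr fun hv => ?_
  obtain ⟨R, hR, -⟩ := (hL3 k a b ha hb).2.2
  obtain ⟨-, C, hC0, -, hC2, hprod⟩ := hPrC k a b ha hb ha2 R hR
  have hp := hprod z hz.1 hzl
  have hCv : VP Q C := by
    have h1 : UP Q (dO b ^ NI a) := (hDUn k b hb Q hQ hQb).1.pow _
    have h2 : UP Q (dO (a * b)) := (hDUn k (a * b) hab Q hQ hQb).1
    have h3 : C ^ 2 = dO b ^ NI a / dO (a * b) := by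
      rw [eq_div_iff h2.ne_zero]
      exact hC2
    refine VP.of_pow (n := 2) two_pos ?_
    rw [h3]
    exact (h1.div h2).1
  have hVprod : VP Q (∏ u ∈ R, xO b (z + u)) := by
    rw [hp]
    exact hCv.mul hv
  have hker : ∀ u ∈ R, IK Q b u → xO b (z + u) ≠ 0 ∧ MP Q (xO b (z + u))⁻¹ := by
    intro u hu hiu
    have h1 := hK.1 _ _ hz hiu
    have h2 : z + u ∉ Lam b := by
      intro h
      refine hzl ?_
      have h3 := lam_sub (lam_mono (a := a) h) (hR.mem u hu)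
      rwa [add_sub_cancel_right] at h3
    rcases h1.2 with h | h
    · exact absurd h h2
    · exact VP.not_iff.1 h
  have hinv : ∀ u ∈ R, xO b (z + u) ≠ 0 ∧ VP Q (xO b (z + u))⁻¹ := by
    intro u hu
    by_cases hiu : IK Q b u
    · exact ⟨(hker u hu hiu).1, (hker u hu hiu).2.vp⟩
    · have h1 := hone u (hR.mem u hu) hiu
      have h2 := hKRed k b hb Q hQ hQb u z (tor_lam hab (hR.mem u hu)) hiu hz
      rw [add_comm u z] at h2
      have h3 := UP.congr h1 h2
      exact ⟨h3.ne_zero, h3.inv.1⟩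
  obtain ⟨u0, hu0, hu0'⟩ := hR.ex 0 (lam_zero _)
  have hu0l : u0 ∈ Lam b := by
    rw [zero_sub] at hu0'
    exact lam_neg_iff.1 hu0'
  have hm : MP Q (∏ u ∈ R, (xO b (z + u))⁻¹) := by
    rw [← Finset.mul_prod_erase R _ hu0]
    exact MP.mul_right (hker u0 hu0 (hK.2.2 _ hu0l)).2
      (VP.prod _ _ fun u hu => (hinv u (Finset.mem_of_mem_erase hu)).2)
  have h1 := MP.mul_left hVprod hm
  rw [← Finset.prod_mul_distrib, Finset.prod_congr rfl
    (fun u hu => mul_inv_cancel₀ (hinv u hu).1), Finset.prod_const_one] at h1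
  exact MP.one_not h1

end Pool.Agent.DK
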