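import Pool.Agent.Lib.DK.D.Spec

/-!
# Theorem DK, part D, module KQp: the kernel of reduction has only `Q`-primary torsion
-/

set_option autoImplicit false

open scoped Pointwise nonZeroDivisors

noncomputable section

namespace Pool.Agent.DK

open Pool.Agent.MuZ Pool.Agent.FW NumberField IsDedekindDomain
open Pool.Agent.DI (io ofC io_inj exists_io io_ofC ofC_io VP MP UP TP ex sqr sqr_sq kap)

variable {k : ℕ}

/-- An ideal `≠ ⊤` which contains `2`, `w` is contained in `𝔭`. -/
private theorem KQp_le {l : Ideal (OO k)} (hl : l ≠ ⊤) (h2 : (2 : OO k) ∈ l) (hw : wI k ∈ l) :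
    l ≤ pp k := by
  intro v hv
  have e : v = (v.re : OO k) + (v.im : OO k) * wI k := by
    apply ext'
    · rw [QuadraticAlgebra.re_add, re_int, re_mul, im_int, re_int]
      simp [wI]
    · rw [QuadraticAlgebra.im_add, im_int, im_mul, im_int, re_int]
      simp [wI]
  have h2p : (2 : OO k) ∈ pp k := Ideal.subset_span (by simp)
  have hwp : wI k ∈ pp k := Ideal.subset_span (by simp)
  rcases Int.even_or_odd' v.re with ⟨m, hm | hm⟩
  · rw [e, hm]
    push_cast
    exact (pp k).add_mem (Ideal.mul_mem_right _ _ h2p) (Ideal.mul_mem_left _ _ hwp)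
  · exfalso
    apply hl
    rw [Ideal.eq_top_iff_one]
    have e0 : v = 2 * (m : OO k) + 1 + (v.im : OO k) * wI k := by
      have e2 : (v.re : OO k) = 2 * (m : OO k) + 1 := by
        rw [hm]
        push_cast
        ring
      rw [← e2]
      exact e
    have e1 : (1 : OO k) = v - 2 * (m : OO k) - (v.im : OO k) * wI k := by
      linear_combination -e0
    rw [e1]
    exact l.sub_mem (l.sub_mem hv (Ideal.mul_mem_right _ _ h2)) (Ideal.mul_mem_left _ _ hw)

private theorem KQp_w [SqK k] : wI k * (1 - wI k) = 2 * (k : OO k) := by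
  apply ext'
  · rw [re_mul]
    have h2 : ((2 : OO k) * (k : OO k)).re = 2 * k := by
      have : (2 : OO k) * (k : OO k) = ((2 * k : ℕ) : OO k) := by push_cast; ring
      rw [this, re_nat]
      push_cast
      ring
    rw [h2, QuadraticAlgebra.re_sub, QuadraticAlgebra.im_sub, re_one, im_one]
    simp only [wI]
    ring
  · rw [im_mul]
    have h2 : ((2 : OO k) * (k : OO k)).im = 0 := by
      have : (2 : OO k) * (k : OO k) = ((2 * k : ℕ) : OO k) := by push_cast; ring
      rw [this, im_nat]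
    rw [h2, QuadraticAlgebra.re_sub, QuadraticAlgebra.im_sub, re_one, im_one]
    simp only [wI]
    ring

/-- **KQp.** The kernel has only `Q`-primary torsion. -/
theorem sKQp (_hL3 : S_L3) (hL4 : S_L4) (hL6 : S_L6) (hA : S_AbQ) (hN : S_KNa) (hS : S_KSub)
    (hT : S_KTST) (hU : S_LaU) : S_KQp := by
  intro k _ b hb Q hQ hQ' z hz α β hα hab
  have := hQ.1
  by_contra hcon
  obtain ⟨a1, -, a3⟩ := hS k b hb Q hQ hQ'
  obtain ⟨-, b2⟩ := hN k b hb Q hQ hQ'
  have hz' : IK Q b (toC β * z) := b2 β z hz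
  obtain ⟨c, hc0, -, hc⟩ := (hL4 k b hb).1 (toC β * z) hz'.1
  have hαc : α ∈ c := by
    rw [← hc, ← mul_assoc, ← toC_mul]
    exact hab
  have hct : c ≠ ⊤ := by
    intro h
    apply hcon
    have h1 : (1 : OO k) ∈ c := by rw [h]; trivial
    rw [← hc, toC_one, one_mul] at h1
    exact h1
  obtain ⟨l, hlm, hcl⟩ := Ideal.exists_le_maximal c hct
  obtain ⟨c', hcc⟩ := Ideal.dvd_iff_le.2 hcl
  have hl0 : l ≠ ⊥ := by
    rintro rfl
    exact hc0 (le_bot_iff.1 hcl)
  have hlt : l ≠ ⊤ := hlm.ne_top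
  have hlp : l.IsPrime := hlm.isPrime
  have hnl : ¬ c' ≤ c := by
    intro h
    have h1 : c' = c := le_antisymm h (hcc ▸ Ideal.mul_le_right (I := l) (J := c'))
    rw [h1] at hcc
    have h2 : l * c = 1 * c := by rw [one_mul]; exact hcc.symm
    have h3 : l = 1 := mul_right_cancel₀ (by exact hc0) h2
    exact hlt (by rw [h3, Ideal.one_eq_top])
  obtain ⟨v, hv, hvc⟩ := SetLike.not_le_iff_exists.1 hnl
  -- the point `z''`
  have hz2 : IK Q b (toC v * (toC β * z)) := b2 v _ hz'
  have hz3 : toC v * (toC β * z) ∉ Lam b := fun h => hvc ((hc v).1 h)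
  have hz4 : toC v * (toC β * z) ∈ Lam (l * b) := by
    rw [lam_prod]
    intro w hw
    rw [← mul_assoc, ← toC_mul, hc, hcc]
    exact Ideal.mul_mem_mul hw hv
  have hAl : ¬ Abv Q l := fun h => hα (h α (hcl hαc))
  set z'' : ℂ := toC v * (toC β * z) with hz''
  by_cases hl2 : PrI l 2
  · obtain ⟨-, c2, c3, -⟩ := hU k l hl0 hl2 Q hQ hQ'
    exact (c2 hAl b hb).2 ((c3 b hb).1 ⟨z'', hz4, hz3, hz2⟩)
  · have h2 : (2 : OO k) ∈ l := by
      by_contra h2
      apply hl2
      unfold PrI
      refine hlm.1.2 _ (lt_of_le_of_ne le_sup_left ?_)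
      intro h5
      apply h2
      rw [h5]
      have h6 : ((2 : ℕ) : OO k) ∈ Ideal.span {((2 : ℕ) : OO k)} := Ideal.mem_span_singleton_self _
      exact Ideal.mem_sup_right (by exact_mod_cast h6)
    have hw : wI k * (1 - wI k) ∈ l := by
      rw [KQp_w]
      exact Ideal.mul_mem_right _ _ h2
    -- translation by a lattice point
    have htr : ∀ t : ℂ, z'' - t ∈ Lam b → IK Q b t := by
      intro t ht
      have e : t = z'' + -(z'' - t) := by ring
      rw [e]
      exact a1 _ _ hz2 (a3 _ (lam_neg ht))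
    obtain ⟨t1, t2, t3, t4, t5, t6⟩ := hT k b hb Q hQ hQ'
    obtain ⟨⟨-, -, l1⟩, ⟨-, -, l2⟩, -⟩ := hL6 k b hb
    rcases hlp.mem_or_mem hw with hw1 | hw1
    · -- `l = 𝔭`
      have hple : pp k ≤ l := by
        unfold pp
        rw [Ideal.span_le]
        rintro x (rfl | rfl)
        · exact h2
        · exact hw1
      have hz5 : z'' ∈ Lam (pp k * b) := lam_anti (Ideal.mul_mono_left hple) hz4
      rcases l1 z'' hz5 with h | h
      · exact hz3 h
      · have h5 : MP Q 2 := by
          by_contra h5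
          exact t5 h5 (htr _ h)
        obtain ⟨-, -, -, -, q5, -⟩ := hA k
        obtain ⟨r1, -, -, r4⟩ := q5 Q
        rcases r4 hQ h5 with h6 | h6
        · apply hAl
          intro u hu
          exact (r1.1 h6).2 u (KQp_le hlt h2 hw1 hu)
        · exact hQ' h6
    · -- `l = 𝔭̄`
      have hple : ppb k ≤ l := by
        unfold ppb
        rw [Ideal.span_le]
        rintro x (rfl | rfl)
        · exact h2
        · exact hw1
      have hz5 : z'' ∈ Lam (ppb k * b) := lam_anti (Ideal.mul_mono_left hple) hz4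
      rcases l2 z'' hz5 with h | h
      · exact hz3 h
      · exact t3 (htr _ h)

end Pool.Agent.DK
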