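import Pool.Agent.Lib.DK.D.Spec

/-!
# Theorem DK, part D, module `KSub`: the kernel of reduction is closed under addition
-/

set_option autoImplicit false

open scoped Pointwise

noncomputable section

namespace Pool.Agent.DK

open Pool.Agent.MuZ Pool.Agent.FW Pool.Agent.DI NumberField

/-- Everything with two non lattice points. -/
private theorem KSub_dbl {Q : Ideal ZZ} [hP : Q.IsPrime] {b2 b4 b6 b8 X s : Om}
    (v2 : VP Q b2) (v4 : VP Q b4) (v6 : VP Q b6) (v8 : VP Q b8) (hX : ¬ VP Q X)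
    (h : s * (4 * X ^ 3 + b2 * X ^ 2 + 2 * b4 * X + b6) =
      X ^ 4 - b4 * X ^ 2 - 2 * b6 * X - b8) : ¬ VP Q s := by
  intro hs
  obtain ⟨h0, ha⟩ := VP.not_iff.1 hX
  set a : Om := X⁻¹ with hadef
  have hXa : X * a = 1 := mul_inv_cancel₀ h0
  have hav := ha.vp
  have h4 : VP Q (4 : Om) := by exact_mod_cast VP.nat (P := Q) 4
  have h2 : VP Q (2 : Om) := by exact_mod_cast VP.nat (P := Q) 2
  have h1 : (1 : Om) = s * (a * (4 + b2 * a + 2 * b4 * a ^ 2 + b6 * a ^ 3)) +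
      a * (b4 * a + 2 * b6 * a ^ 2 + b8 * a ^ 3) := by
    have e1 : X ^ 4 * a ^ 4 = 1 := by rw [← mul_pow, hXa, one_pow]
    have e2 : X ^ 3 * a ^ 4 = a := by
      calc X ^ 3 * a ^ 4 = (X * a) ^ 3 * a := by ring
        _ = a := by rw [hXa]; ring
    have e3 : X ^ 2 * a ^ 4 = a ^ 2 := by
      calc X ^ 2 * a ^ 4 = (X * a) ^ 2 * a ^ 2 := by ring
        _ = a ^ 2 := by rw [hXa]; ring
    have e4 : X * a ^ 4 = a ^ 3 := by
      calc X * a ^ 4 = (X * a) * a ^ 3 := by ring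
        _ = a ^ 3 := by rw [hXa]; ring
    have h5 := congrArg (fun t => t * a ^ 4) h
    linear_combination -h5 - e1 + 4 * s * e2 + s * b2 * e3 + 2 * s * b4 * e4 + b4 * e3 + 2 * b6 * e4
  apply MP.one_not (P := Q)
  rw [h1]
  refine MP.add (MP.mul_left hs (MP.mul_right ha ?_)) (MP.mul_right ha ?_)
  · exact (((h4.add (v2.mul hav)).add ((h2.mul v4).mul (hav.pow 2))).add (v6.mul (hav.pow 3)))
  · exact (((v4.mul hav).add ((h2.mul v6).mul (hav.pow 2))).add (v8.mul (hav.pow 3)))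

private theorem KSub_add {Q : Ideal ZZ} [hP : Q.IsPrime] {b2 b4 b6 b8 X X' s t : Om}
    (v2 : VP Q b2) (v4 : VP Q b4) (v6 : VP Q b6) (v8 : VP Q b8) (hX : ¬ VP Q X) (hX' : ¬ VP Q X')
    (h : (s + t) * (X - X') ^ 2 = 2 * X * X' * (X + X') + b2 * X * X' + b4 * (X + X') + b6)
    (h' : s * t * (X - X') ^ 2 = X ^ 2 * X' ^ 2 - b4 * X * X' - b6 * (X + X') - b8) :
    ¬ VP Q s := by
  intro hs
  obtain ⟨h0, ha⟩ := VP.not_iff.1 hX
  obtain ⟨h0', hb⟩ := VP.not_iff.1 hX'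
  set a : Om := X⁻¹ with hadef
  set b : Om := X'⁻¹ with hbdef
  have hXa : X * a = 1 := mul_inv_cancel₀ h0
  have hXb : X' * b = 1 := mul_inv_cancel₀ h0'
  have hav := ha.vp
  have hbv := hb.vp
  have h2 : VP Q (2 : Om) := by exact_mod_cast VP.nat (P := Q) 2
  have e1 : (X - X') ^ 2 * (a ^ 2 * b ^ 2) = (b - a) ^ 2 := by
    calc (X - X') ^ 2 * (a ^ 2 * b ^ 2) = ((X * a) * b - (X' * b) * a) ^ 2 := by ring
      _ = (b - a) ^ 2 := by rw [hXa, hXb]; ring
  have e2 : (s + t) * (b - a) ^ 2 = 2 * (a + b) + b2 * a * b + b4 * a * b * (a + b) +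
      b6 * a ^ 2 * b ^ 2 := by
    calc (s + t) * (b - a) ^ 2 = ((s + t) * (X - X') ^ 2) * (a ^ 2 * b ^ 2) := by rw [← e1]; ring
      _ = 2 * (X * a) * (X' * b) * ((X * a) * b + (X' * b) * a) + b2 * (X * a) * (X' * b) * a * b
        + b4 * ((X * a) * b + (X' * b) * a) * a * b + b6 * a ^ 2 * b ^ 2 := by rw [h]; ring
      _ = _ := by rw [hXa, hXb]; ring
  have e3 : s * t * (b - a) ^ 2 = 1 - (b4 * a * b + b6 * a * b * (a + b) +
      b8 * a ^ 2 * b ^ 2) := by
    calc s * t * (b - a) ^ 2 = (s * t * (X - X') ^ 2) * (a ^ 2 * b ^ 2) := by rw [← e1]; ring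
      _ = (X * a) ^ 2 * (X' * b) ^ 2 - b4 * (X * a) * (X' * b) * a * b
        - b6 * ((X * a) * b + (X' * b) * a) * a * b - b8 * a ^ 2 * b ^ 2 := by rw [h']; ring
      _ = _ := by rw [hXa, hXb]; ring
  have hn : MP Q (2 * (a + b) + b2 * a * b + b4 * a * b * (a + b) + b6 * a ^ 2 * b ^ 2) := by
    refine MP.add (MP.add (MP.add (MP.mul_left h2 (ha.add hb)) ?_) ?_) ?_
    · exact MP.mul_right (MP.mul_left v2 ha) hbv
    · exact MP.mul_right (MP.mul_right (MP.mul_left v4 ha) hbv) (hav.add hbv)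
    · rw [pow_two a, show b6 * (a * a) * b ^ 2 = (b6 * a * b ^ 2) * a by ring]
      exact MP.mul_left ((v6.mul hav).mul (hbv.pow 2)) ha
  have hn' : MP Q (b4 * a * b + b6 * a * b * (a + b) + b8 * a ^ 2 * b ^ 2) := by
    refine MP.add (MP.add ?_ ?_) ?_
    · exact MP.mul_right (MP.mul_left v4 ha) hbv
    · exact MP.mul_right (MP.mul_right (MP.mul_left v6 ha) hbv) (hav.add hbv)
    · rw [pow_two a, show b8 * (a * a) * b ^ 2 = (b8 * a * b ^ 2) * a by ring]
      exact MP.mul_left ((v8.mul hav).mul (hbv.pow 2)) ha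
  have hq : MP Q ((b - a) ^ 2) := by
    rw [pow_two]
    exact MP.mul_right (hb.sub ha) (hbv.sub hav)
  have h3 : (1 : Om) = s * ((2 * (a + b) + b2 * a * b + b4 * a * b * (a + b) +
      b6 * a ^ 2 * b ^ 2) - s * (b - a) ^ 2) + (b4 * a * b + b6 * a * b * (a + b) +
      b8 * a ^ 2 * b ^ 2) := by
    linear_combination s * e2 - e3
  apply MP.one_not (P := Q)
  rw [h3]
  exact MP.add (MP.mul_left hs (hn.sub (MP.mul_left hs hq))) hn'


/-- The case of a lattice point. -/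
private theorem KSub_lat {k : ℕ} {Q : Ideal ZZ} {b : Ideal (OO k)}
    (per : ∀ z l : ℂ, l ∈ Lam b → xO b (z + l) = xO b z)
    (ladd : ∀ z z' : ℂ, z ∈ Lam b → z' ∈ Lam b → z + z' ∈ Lam b)
    {z z' : ℂ} (hz : z ∈ Lam b) (hz' : IK Q b z') (ht : Tor k (z + z')) : IK Q b (z + z') := by
  refine ⟨ht, ?_⟩
  rcases hz'.2 with h | h
  · exact Or.inl (ladd z z' hz h)
  · right
    rw [add_comm, per z' z hz]
    exact h

/-- **The kernel is closed under addition.** -/
theorem sKSub (hX : S_XOm) (hD : S_DUn) : S_KSub := by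
  intro k _ b hb Q hQ hQb
  have hP : Q.IsPrime := hQ.1
  obtain ⟨⟨per, neg, -⟩, -, hadd, hdbl, -⟩ := hX k b hb
  obtain ⟨hdU, -⟩ := hD k b hb Q hQ hQb
  have hdv : VP Q (dO b) := hdU.1
  have ladd : ∀ z z' : ℂ, z ∈ Lam b → z' ∈ Lam b → z + z' ∈ Lam b := fun z z' h h' => lam_add h h'
  have h16 : VP Q (16 : Om) := by exact_mod_cast VP.nat (P := Q) 16
  have h2 : VP Q (2 : Om) := by exact_mod_cast VP.nat (P := Q) 2
  have v2 : VP Q (1 + 16 * dO b) := VP.one.add (h16.mul hdv)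
  have v4 : VP Q (2 * dO b) := h2.mul hdv
  have v6 : VP Q (0 : Om) := VP.zero
  have v8 : VP Q (-(dO b) ^ 2) := (hdv.pow 2).neg
  refine ⟨?_, ?_, ?_⟩
  · intro z z' hz hz'
    have ht : Tor k (z + z') := tor_add hz.1 hz'.1
    by_cases hl : z ∈ Lam b
    · exact KSub_lat per ladd hl hz' ht
    by_cases hl' : z' ∈ Lam b
    · rw [add_comm] at ht ⊢
      exact KSub_lat per ladd hl' hz ht
    refine ⟨ht, ?_⟩
    by_cases hs : z + z' ∈ Lam b
    · exact Or.inl hs
    right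
    have hX : ¬ VP Q (xO b z) := hz.2.resolve_left hl
    have hX' : ¬ VP Q (xO b z') := hz'.2.resolve_left hl'
    by_cases hd : z - z' ∈ Lam b
    · have e : z + z' = 2 * z + -(z - z') := by ring
      have hn : -(z - z') ∈ Lam b := lam_neg hd
      have h3 : 2 * z ∉ Lam b := by
        intro h
        apply hs
        rw [e]
        exact lam_add h hn
      rw [e, per _ _ hn]
      refine KSub_dbl v2 v4 v6 v8 hX (s := xO b (2 * z)) ?_
      have h4 := hdbl z hz.1 h3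
      unfold W2 at h4
      linear_combination h4
    · obtain ⟨h5, h6⟩ := hadd z z' hz.1 hz'.1 hl hl' hs hd
      refine KSub_add v2 v4 v6 v8 hX hX' (s := xO b (z + z')) (t := xO b (z - z')) ?_ ?_
      · linear_combination h5
      · linear_combination h6
  · intro z hz
    refine ⟨tor_neg hz.1, ?_⟩
    rcases hz.2 with h | h
    · exact Or.inl (lam_neg h)
    · right
      rw [neg]
      exact h
  · intro z hz
    exact ⟨tor_lam hb hz, Or.inl hz⟩

end Pool.Agent.DK
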