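import Pool.Agent.Lib.DK.D.Spec

/-!
# Theorem DK, part D, module KTST: the points of order two
-/

set_option autoImplicit false

open scoped Pointwise nonZeroDivisors

noncomputable section

namespace Pool.Agent.DK

open Pool.Agent.MuZ Pool.Agent.FW NumberField IsDedekindDomain
open Pool.Agent.DI (io ofC io_inj exists_io io_ofC ofC_io VP MP UP TP ex sqr sqr_sq kap)

theorem sKTST (h6 : S_L6) (hX : S_XOm) (hU : S_DUn) : S_KTST := by
  intro k _ b hb Q hQ hQb
  have hP : Q.IsPrime := hQ.1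
  obtain ⟨⟨-, hT, -⟩, ⟨-, hS, -⟩, ⟨h2T, h2S, hST, -, -⟩, -⟩ := h6 k b hb
  obtain ⟨⟨-, -, -, hxS, hxT, hxST, -⟩, -⟩ := hX k b hb
  obtain ⟨hd, -⟩ := hU k b hb Q hQ hQb
  have htor : ∀ z : ℂ, 2 * z ∈ Lam b → Tor k z := fun z hz =>
    (tor_iff hb).2 ⟨2, two_pos, by exact_mod_cast hz⟩
  have h2V : VP Q (2 : Om) := by
    have := DI.VP.nat (P := Q) 2
    exact_mod_cast this
  refine ⟨htor _ h2T, htor _ h2S, fun h => ?_, fun h => ?_, fun h2 h => ?_, fun h => ?_⟩
  · rcases h.2 with h1 | h1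
    · exact hS h1
    · rw [hxS] at h1
      exact h1 DI.VP.zero
  · rcases h.2 with h1 | h1
    · exact hST h1
    · rw [hxST] at h1
      have e : (-4 * dO b : Om) = -(2 * 2 * dO b) := by ring
      rw [e] at h1
      exact h1 ((h2V.mul h2V).mul hd.1).neg
  · rcases h.2 with h1 | h1
    · exact hT h1
    · rw [hxT] at h1
      have h3 : VP Q (2 : Om)⁻¹ := h2V.inv h2
      have e : (-1 / 4 : Om) = -((2 : Om)⁻¹ * (2 : Om)⁻¹) := by norm_num
      rw [e] at h1
      exact h1 (h3.mul h3).neg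
  · refine ⟨htor _ h2T, Or.inr fun h1 => ?_⟩
    rw [hxT] at h1
    have h3 : MP Q (2 : Om) := h.2.1
    have h4 : MP Q (2 * 2 * (-1 / 4) : Om) := (h3.mul_right h2V).mul_right h1
    have e : (2 * 2 * (-1 / 4) : Om) = -1 := by norm_num
    rw [e] at h4
    have h5 := h4.neg
    rw [neg_neg] at h5
    exact DI.MP.one_not h5

end Pool.Agent.DK
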