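import Pool.Agent.Lib.DK.D.Spec

/-!
# Theorem DK, part D, module LaU: the numbers `laO a b`
-/

set_option autoImplicit false

open scoped Pointwise nonZeroDivisors

noncomputable section

namespace Pool.Agent.DK

open Pool.Agent.MuZ Pool.Agent.FW NumberField IsDedekindDomain
open Pool.Agent.DI (io ofC io_inj exists_io io_ofC ofC_io VP MP UP TP ex sqr sqr_sq kap)

variable {k : ℕ}

open Classical in
/-- `laO a b` is a unit times the product of the inverses of the `x(u)`. -/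
private theorem LaU_form (hL3 : S_L3) (hPrC : S_PrC) (hDUn : S_DUn) [SqK k] {a b : Ideal (OO k)}
    (ha : a ≠ ⊥) (hb : b ≠ ⊥) (ha2 : PrI a 2) {Q : Ideal ZZ} (hQ : Npr Q) (hQb : ¬ AbPb k Q) :
    ∃ R : Finset ℂ, IsSys a b R ∧ ∃ C : Om, UP Q C ∧ laO a b ≠ 0 ∧
      io (laO a b) = s2 (a * b) / s2 b ∧
      laO a b = C * ∏ u ∈ R, (if u ∈ Lam b then 1 else xO b u)⁻¹ := by
  have := hQ.1
  obtain ⟨-, -, R, hR, -⟩ := hL3 k a b ha hb
  obtain ⟨hio, C, hC0, hC, hC2, -⟩ := hPrC k a b ha hb ha2 R hR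
  have hab : a * b ≠ ⊥ := mul_ne_zero (a := a) (b := b) ha hb
  have hd : UP Q (dO b) := (hDUn k b hb Q hQ hQb).1
  have hd' : UP Q (dO (a * b)) := (hDUn k (a * b) hab Q hQ hQb).1
  have hCU : UP Q C := by
    apply DI.UP.of_pow (n := 2) two_pos
    have h1 : C ^ 2 = dO b ^ NI a / dO (a * b) := by
      rw [← hC2, mul_div_cancel_right₀ _ hd'.ne_zero]
    rw [h1]
    exact (hd.pow _).div hd'
  have hP0 : ∏ u ∈ R, (if u ∈ Lam b then 1 else xO b u) ≠ 0 := by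
    intro h
    rw [h, mul_zero] at hC
    exact hC0 hC
  refine ⟨R, hR, C, hCU, ?_, hio, ?_⟩
  · intro h
    rw [h, zero_mul] at hC
    exact hC0 hC
  · rw [Finset.prod_inv_distrib, hC, mul_assoc, mul_inv_cancel₀ hP0, mul_one]

/-- The inverse of `x(u)`, `u` a point of `Lam (a b)`. -/
private theorem LaU_inv (hKNq : S_KNq) [SqK k] {a b : Ideal (OO k)}
    (ha : a ≠ ⊥) (hb : b ≠ ⊥) (ha2 : PrI a 2) {Q : Ideal ZZ} (hQ : Npr Q) (hQb : ¬ AbPb k Q)
    {u : ℂ} (hu : u ∈ Lam (a * b)) (hub : u ∉ Lam b) :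
    (IK Q b u ∧ MP Q (xO b u)⁻¹) ∨ (¬ IK Q b u ∧ UP Q (xO b u)⁻¹) := by
  have := hQ.1
  by_cases h : IK Q b u
  · left
    exact ⟨h, (DI.VP.not_iff.1 (h.2.resolve_left hub)).2⟩
  · right
    exact ⟨h, ((hKNq k a b ha hb ha2 Q hQ hQb).1 u hu h).inv⟩

/-- The telescoping product. -/
private theorem LaU_tele [SqK k] {a b : Ideal (OO k)}
    (h : ∀ i : ℕ, s2 (a ^ i * b) ≠ 0 ∧
      io (laO a (a ^ i * b)) = s2 (a * (a ^ i * b)) / s2 (a ^ i * b)) (n : ℕ) :
    io (∏ i ∈ Finset.range n, laO a (a ^ i * b)) * s2 b = s2 (a ^ n * b) := by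
  induction n with
  | zero => rw [Finset.range_zero, Finset.prod_empty, map_one, one_mul, pow_zero, one_mul]
  | succ n ih =>
    rw [Finset.prod_range_succ, map_mul, mul_right_comm, ih, (h n).2, mul_div_cancel₀ _ (h n).1,
      pow_succ', mul_assoc]

theorem sLaU (hO5 : S_O5) (hL3 : S_L3) (hB7 : S_B7) (hAbQ : S_AbQ) (hPrC : S_PrC) (hKNq : S_KNq)
    (hDUn : S_DUn) (hB1 : S_B1) : S_LaU := by
  classical
  intro k _ a ha ha2 Q hQ hQb
  have := hQ.1
  have hpow : ∀ i : ℕ, a ^ i ≠ ⊥ := fun i => pow_ne_zero (M₀ := Ideal (OO k)) i ha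
  have hpb : ∀ (b : Ideal (OO k)), b ≠ ⊥ → ∀ i : ℕ, a ^ i * b ≠ ⊥ := fun b hb i =>
    mul_ne_zero (a := a ^ i) (b := b) (hpow i) hb
  have hVP : ∀ b : Ideal (OO k), b ≠ ⊥ → VP Q (laO a b) := by
    intro b hb
    obtain ⟨R, hR, C, hC, -, -, hla⟩ := LaU_form hL3 hPrC hDUn ha hb ha2 hQ hQb
    rw [hla]
    refine hC.1.mul (DI.VP.prod _ _ fun u hu => ?_)
    by_cases hub : u ∈ Lam b
    · rw [if_pos hub, inv_one]
      exact DI.VP.one
    · rw [if_neg hub]
      rcases LaU_inv hKNq ha hb ha2 hQ hQb (hR.mem u hu) hub with h | h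
      · exact h.2.vp
      · exact h.2.1
  have htele : ∀ b : Ideal (OO k), b ≠ ⊥ → ∃ (h : ℕ) (la : OO k), 0 < h ∧ a ^ h = sp la ∧ la ≠ 0 ∧
      ∏ i ∈ Finset.range h, laO a (a ^ i * b) = toO la ^ 2 := by
    intro b hb
    obtain ⟨h, la, hh, hla, he⟩ := hO5 k a ha
    refine ⟨h, la, hh, he, hla, io_inj ?_⟩
    have hs : s2 b ≠ 0 := (hB1 k b hb).2.2.1
    apply mul_right_cancel₀ hs
    rw [LaU_tele (fun i => ⟨(hB1 k _ (hpb b hb i)).2.2.1, ?_⟩) h, he, map_pow, io_toO]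
    · exact ((hB7 k b hb).1 la hla).2.2.2
    · obtain ⟨-, -, -, -, -, hio, -⟩ := LaU_form hL3 hPrC hDUn ha (hpb b hb i) ha2 hQ hQb
      exact hio
  refine ⟨hVP, ?_, ?_, htele⟩
  · intro hA b hb
    obtain ⟨h, la, hh, he, hla, hprod⟩ := htele b hb
    obtain ⟨q, hqp, -, -, hq⟩ := (hAbQ k).1 Q hQ
    have h1 : ¬ MP Q (toO la) := by
      intro h2
      apply hA
      have h3 : Abv Q (sp la) := ((hAbQ k).2.2.2.1 Q hQ la).2 h2
      rw [← he, hq] at h3
      exact (hq a).2 (Ideal.IsPrime.le_of_pow_le h3)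
    have h2 : UP Q (toO la) := ⟨toO_VP la, h1⟩
    refine ⟨hVP b hb, fun h3 => ?_⟩
    apply (h2.pow 2).2
    rw [← hprod]
    obtain ⟨j, rfl⟩ : ∃ j, h = j + 1 := ⟨h - 1, by omega⟩
    rw [Finset.prod_range_succ', pow_zero, one_mul]
    exact DI.MP.mul_left (DI.VP.prod _ _ fun i _ => hVP _ (hpb b hb (i + 1))) h3
  · intro b hb
    obtain ⟨R, hR, C, hC, -, -, hla⟩ := LaU_form hL3 hPrC hDUn ha hb ha2 hQ hQb
    constructor
    · rintro ⟨u, hu, hub, hIK⟩
      obtain ⟨v, hvR, huv⟩ := hR.ex u hu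
      have hvb : v ∉ Lam b := fun h => hub ((lam_sub_iff huv).2 h)
      have hx : xO b u = xO b v := by
        have h1 := ((hB1 k b hb).1 v (u - v) huv).2.2
        rw [add_sub_cancel] at h1
        unfold xO
        rw [h1]
      have hv : MP Q (xO b v)⁻¹ := by
        rw [← hx]
        exact (DI.VP.not_iff.1 (hIK.2.resolve_left hub)).2
      rw [hla]
      refine DI.MP.mul_left hC.1 ?_
      rw [← Finset.mul_prod_erase R _ hvR, if_neg hvb]
      refine DI.MP.mul_right hv (DI.VP.prod _ _ fun w hw => ?_)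
      have hwR := Finset.mem_of_mem_erase hw
      by_cases hwb : w ∈ Lam b
      · rw [if_pos hwb, inv_one]
        exact DI.VP.one
      · rw [if_neg hwb]
        rcases LaU_inv hKNq ha hb ha2 hQ hQb (hR.mem w hwR) hwb with h | h
        · exact h.2.vp
        · exact h.2.1
    · intro hno
      rw [hla]
      refine hC.mul (DI.UP.prod _ _ fun u hu => ?_)
      by_cases hub : u ∈ Lam b
      · rw [if_pos hub, inv_one]
        exact DI.UP.one
      · rw [if_neg hub]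
        rcases LaU_inv hKNq ha hb ha2 hQ hQb (hR.mem u hu) hub with h | h
        · exact absurd h.1 (hno u (hR.mem u hu) hub)
        · exact h.2

end Pool.Agent.DK
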