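import Pool.Agent.Lib.DK.D.Spec

/-!
# Theorem DK, part D, module OddT: odd torsion
-/

set_option autoImplicit false

open scoped Pointwise nonZeroDivisors

noncomputable section

namespace Pool.Agent.DK

open Pool.Agent.MuZ Pool.Agent.FW NumberField IsDedekindDomain
open Pool.Agent.DI (io ofC io_inj exists_io io_ofC ofC_io VP MP UP TP ex sqr sqr_sq kap)

/-- Odd torsion. -/
theorem sOddT (h6 : S_O6) : S_OddT := by
  intro k _ a b _ _ h2
  refine ⟨?_, ?_⟩
  · intro z hz hz2
    have h1 : (1 : OO k) ∈ a ⊔ Ideal.span {((2 : ℕ) : OO k)} := by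
      rw [h2]
      exact Submodule.mem_top
    obtain ⟨v, hv, y, hy, hvy⟩ := Submodule.mem_sup.1 h1
    obtain ⟨u, hu⟩ := Ideal.mem_span_singleton'.1 hy
    have h3 : toC v + toC u * 2 = 1 := by
      have h4 := congrArg toC hvy
      rw [toC_add, ← hu, toC_mul, toC_nat, toC_one] at h4
      exact_mod_cast h4
    have h5 : z = toC v * z + toC u * (2 * z) := by
      linear_combination (-z) * h3
    rw [h5]
    exact lam_add (lam_prod.1 hz v hv) (lam_mul u hz2)
  · exact Nat.coprime_two_right.1 (((h6 k).2.2.1 2 a (by norm_num)).1 h2)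

end Pool.Agent.DK
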