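import Pool.Agent.Lib.DK.D.Spec

/-!
# Theorem DK, part D, module PrC: the product formula and its constant
-/

set_option autoImplicit false

open scoped Pointwise nonZeroDivisors

noncomputable section

namespace Pool.Agent.DK

open Pool.Agent.MuZ Pool.Agent.FW NumberField IsDedekindDomain
open Pool.Agent.DI (io ofC io_inj exists_io io_ofC ofC_io VP MP UP TP ex sqr sqr_sq kap)

variable {k : ℕ}

private theorem PrC_card_le {a b : Ideal (OO k)} {R R' : Finset ℂ} (h : IsSys a b R)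
    (h' : IsSys a b R') : R.card ≤ R'.card := by
  classical
  choose! f hf1 hf2 using fun z (hz : z ∈ Lam (a * b)) => h'.ex z hz
  refine Finset.card_le_card_of_injOn f (fun u hu => hf1 u (h.mem u hu)) ?_
  intro u hu v hv huv
  refine h.uni u hu v hv ?_
  have h1 := lam_sub (hf2 u (h.mem u hu)) (hf2 v (h.mem v hv))
  have h2 : u - f u - (v - f v) = u - v := by
    rw [huv]
    ring
  rwa [h2] at h1

open Classical in
/-- The product formula in `Om`, for a point `T` of order two. -/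
private theorem PrC_form (hB8 : S_B8) (hR4 : S_R4) [SqK k] {a b : Ideal (OO k)} (ha : a ≠ ⊥)
    (hb : b ≠ ⊥) (ha2 : PrI a 2) {R : Finset ℂ} (hR : IsSys a b R)
    (hla : io (laO a b) = s2 (a * b) / s2 b) (hla0 : laO a b ≠ 0)
    {T : ℂ} (hT2 : 2 * T ∈ Lam b) (hT : T ∉ Lam b) :
    laO a b * ∏ u ∈ R, (if u ∈ Lam b then 1 else xO b u - xO b T) ≠ 0 ∧
    ∀ z : ℂ, Tor k z → z ∉ Lam (a * b) →
      ∏ u ∈ R, (xO b (z + u) - xO b T) =
        (laO a b * ∏ u ∈ R, (if u ∈ Lam b then 1 else xO b u - xO b T)) *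
          (xO (a * b) z - xO (a * b) T) := by
  have hab : a * b ≠ ⊥ := by
    rw [Ne, Ideal.mul_eq_bot]
    rintro (h | h)
    · exact ha h
    · exact hb h
  have hTt : Tor k T := (tor_iff hb).2 ⟨2, two_pos, by exact_mod_cast hT2⟩
  have hu : ∀ u ∈ R, Tor k u := fun u hu => tor_lam hab (hR.mem u hu)
  obtain ⟨h1, h2⟩ := hB8 k a b ha hb ha2 R hR T hT2 hT
  have hio : ∀ z : ℂ, Tor k z → io (xO b z) = XC b z := fun z hz => hR4.1 k b hb z hz
  have hio' : ∀ z : ℂ, Tor k z → io (xO (a * b) z) = XC (a * b) z :=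
    fun z hz => hR4.1 k (a * b) hab z hz
  constructor
  · refine mul_ne_zero hla0 (Finset.prod_ne_zero_iff.2 fun u huR => ?_)
    by_cases hL : u ∈ Lam b
    · rw [if_pos hL]
      exact one_ne_zero
    · rw [if_neg hL]
      intro h3
      apply h2 u huR hL
      rw [← hio u (hu u huR), ← hio T hTt, sub_eq_zero.1 h3]
  · intro z hz hzL
    apply io_inj
    have e1 : io (∏ u ∈ R, (xO b (z + u) - xO b T)) = ∏ u ∈ R, (XC b (z + u) - XC b T) := by
      rw [map_prod]
      refine Finset.prod_congr rfl fun u huR => ?_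
      rw [map_sub, hio _ (tor_add hz (hu u huR)), hio T hTt]
    have e2 : io (∏ u ∈ R, (if u ∈ Lam b then 1 else xO b u - xO b T)) =
        ∏ u ∈ R, (if u ∈ Lam b then 1 else XC b u - XC b T) := by
      rw [map_prod]
      refine Finset.prod_congr rfl fun u huR => ?_
      split_ifs
      · exact map_one io
      · rw [map_sub, hio u (hu u huR), hio T hTt]
    rw [e1, h1 z hzL, map_mul, map_mul, hla, e2, map_sub, hio' z hz, hio' T hTt]

open Classical in
/-- A product over the system as a power and a product over the points outside of the lattice. -/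
private theorem PrC_prod {R : Finset ℂ} {L : Set ℂ} (f g h : ℂ → Om) (c : Om)
    (h1 : ∀ u ∈ R, u ∈ L → f u = c) (h2 : ∀ u ∈ R, u ∉ L → f u * g u = c * h u) :
    (∏ u ∈ R, f u) * ∏ u ∈ R, (if u ∈ L then 1 else g u) =
      c ^ R.card * ∏ u ∈ R, (if u ∈ L then 1 else h u) := by
  rw [← Finset.prod_const, ← Finset.prod_mul_distrib, ← Finset.prod_mul_distrib]
  refine Finset.prod_congr rfl fun u hu => ?_
  by_cases hL : u ∈ L
  · rw [if_pos hL, if_pos hL, mul_one, mul_one, h1 u hu hL]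
  · rw [if_neg hL, if_neg hL, h2 u hu hL]

theorem sPrC (hL3 : S_L3) (hL6 : S_L6) (hOdd : S_OddT) (hB1 : S_B1) (hB8 : S_B8) (hX : S_XOm)
    (hR4 : S_R4) (hR5a : S_R5a) : S_PrC := by
  classical
  intro k _ a b ha hb ha2 R hR
  have hab : a * b ≠ ⊥ := by
    rw [Ne, Ideal.mul_eq_bot]
    rintro (h | h)
    · exact ha h
    · exact hb h
  have hs0 : s2 b ≠ 0 := (hB1 k b hb).2.2.1
  have hs0' : s2 (a * b) ≠ 0 := (hB1 k (a * b) hab).2.2.1
  have hla : io (laO a b) = s2 (a * b) / s2 b := io_ofC _ (hR5a k b (a * b) hb hab)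
  have hla0 : laO a b ≠ 0 := by
    intro h
    rw [h, map_zero] at hla
    exact div_ne_zero hs0' hs0 hla.symm
  refine ⟨hla, ?_⟩
  have hodd := (hOdd k a b ha hb ha2).1
  have hcard : R.card = NI a := by
    obtain ⟨R', hR', hc⟩ := (hL3 k a b ha hb).2.2
    rw [← hc]
    exact le_antisymm (PrC_card_le hR hR') (PrC_card_le hR' hR)
  -- the points of order two
  obtain ⟨⟨-, hTn, -⟩, ⟨-, hSn, -⟩, ⟨hT2, hS2, hSTn, -, -⟩, -, -, hprim, -, -⟩ := hL6 k b hb
  obtain ⟨hpT, hpS, -⟩ := hprim a ha ha2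
  have hST2 : 2 * (ptS b + ptT b) ∈ Lam b := by
    rw [mul_add]
    exact lam_add hS2 hT2
  have htor : ∀ z : ℂ, 2 * z ∈ Lam b → Tor k z := fun z hz =>
    (tor_iff hb).2 ⟨2, two_pos, by exact_mod_cast hz⟩
  have hTt := htor _ hT2
  have hSt := htor _ hS2
  have hSTt := htor _ hST2
  have hnab : ∀ z : ℂ, 2 * z ∈ Lam b → z ∉ Lam b → z ∉ Lam (a * b) := fun z h1 h2 h3 =>
    h2 (hodd z h3 h1)
  -- the values
  obtain ⟨⟨xper, -, -, xS, xT, xST, -, hd0, -⟩, -, -, -, trT, trS, -, -, -⟩ := hX k b hb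
  obtain ⟨⟨xper', -, -, xS', xT', xST', -, hd0', -⟩, -, -, -, -, -, -, -, -⟩ := hX k (a * b) hab
  have vS : xO (a * b) (ptS b) = 0 := by
    rw [← xper' (ptS b) _ hpS, add_sub_cancel, xS']
  have vT : xO (a * b) (ptT b) = -1 / 4 := by
    rw [← xper' (ptT b) _ hpT, add_sub_cancel, xT']
  have vST : xO (a * b) (ptS b + ptT b) = -4 * dO (a * b) := by
    rw [← xper' (ptS b + ptT b) _ (lam_add hpS hpT)]
    have h1 : ptS b + ptT b + (ptS (a * b) - ptS b + (ptT (a * b) - ptT b)) =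
        ptS (a * b) + ptT (a * b) := by ring
    rw [h1, xST']
  -- the three product formulas
  obtain ⟨cS0, fS⟩ := PrC_form hB8 hR4 ha hb ha2 hR hla hla0 hS2 hSn
  obtain ⟨cT0, -⟩ := PrC_form hB8 hR4 ha hb ha2 hR hla hla0 hT2 hTn
  obtain ⟨cR0, -⟩ := PrC_form hB8 hR4 ha hb ha2 hR hla hla0 hST2 hSTn
  rw [xS] at cS0 fS
  rw [xT] at cT0
  rw [xST] at cR0
  rw [vS] at fS
  simp only [sub_zero] at cS0 fS
  -- the points of `R`
  have hRt : ∀ u ∈ R, Tor k u := fun u hu => tor_lam hab (hR.mem u hu)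
  have hadd : ∀ u ∈ R, u ∉ Lam b → ∀ t : ℂ, 2 * t ∈ Lam b → u + t ∉ Lam b := by
    intro u hu huL t ht h
    apply huL
    apply hodd u (hR.mem u hu)
    have h1 := lam_sub (lam_add h h) ht
    have h2 : u + t + (u + t) - 2 * t = 2 * u := by ring
    rwa [h2] at h1
  have f1 := fS (ptT b) hTt (hnab _ hT2 hTn)
  have f2 := fS (ptS b + ptT b) hSTt (hnab _ hST2 hSTn)
  rw [vT] at f1
  rw [vST] at f2
  have f4 : (4 : Om) ≠ 0 := by norm_num
  have hper0 : ∀ t u : ℂ, u ∈ Lam b → xO b (t + u) = xO b t := fun t u hu => xper t u hu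
  -- the first relation
  have g1 := PrC_prod (R := R) (L := Lam b) (fun u => xO b (ptT b + u))
    (fun u => xO b u - -1 / 4) (fun u => xO b u - -4 * dO b) (-1 / 4)
    (fun u _ huL => by
      change xO b (ptT b + u) = -1 / 4
      rw [hper0 _ u huL, xT])
    (fun u hu huL => by
      change xO b (ptT b + u) * (xO b u - -1 / 4) = -1 / 4 * (xO b u - -4 * dO b)
      have h1 := (trT u (hRt u hu) huL (hadd u hu huL _ hT2)).2
      rw [add_comm (ptT b) u]
      linear_combination (1 / 4) * h1)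
  -- the second relation
  have g2 := PrC_prod (R := R) (L := Lam b) (fun u => xO b (ptS b + ptT b + u))
    (fun u => xO b u - -4 * dO b) (fun u => xO b u - -1 / 4) (-4 * dO b)
    (fun u _ huL => by
      change xO b (ptS b + ptT b + u) = -4 * dO b
      rw [hper0 _ u huL, xST])
    (fun u hu huL => by
      change xO b (ptS b + ptT b + u) * (xO b u - -4 * dO b) = -4 * dO b * (xO b u - -1 / 4)
      have hn1 := hadd u hu huL _ hT2
      have hn2 : u + ptT b + ptS b ∉ Lam b := by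
        have h1 := hadd u hu huL _ hST2
        have h2 : u + ptT b + ptS b = u + (ptS b + ptT b) := by ring
        rwa [h2]
      obtain ⟨h1, h2⟩ := trT u (hRt u hu) huL hn1
      obtain ⟨h3, h4⟩ := trS (u + ptT b) (tor_add (hRt u hu) hTt) hn1 hn2
      have h5 : ptS b + ptT b + u = u + ptT b + ptS b := by ring
      rw [h5]
      refine mul_left_cancel₀ h3 ?_
      linear_combination (xO b u + 4 * dO b) * h4 + dO b * h2)
  rw [hcard] at g1 g2
  refine ⟨laO a b * ∏ u ∈ R, (if u ∈ Lam b then 1 else xO b u), cS0, rfl, ?_, fun z hz hzL =>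
    fS z hz hzL⟩
  have hR0 := cR0
  have hT0 := cT0
  obtain ⟨CS, hCS⟩ : ∃ c, c = laO a b * ∏ u ∈ R, (if u ∈ Lam b then 1 else xO b u) := ⟨_, rfl⟩
  obtain ⟨PT, hPT⟩ : ∃ c, c = ∏ u ∈ R, (if u ∈ Lam b then 1 else xO b u - -1 / 4) := ⟨_, rfl⟩
  obtain ⟨PR, hPR⟩ : ∃ c, c = ∏ u ∈ R, (if u ∈ Lam b then 1 else xO b u - -4 * dO b) := ⟨_, rfl⟩
  rw [← hCS] at f1 f2 ⊢
  rw [← hPT] at g1 g2 hT0
  rw [← hPR] at g1 g2 hR0
  rw [f1] at g1
  rw [f2] at g2
  have hPT0 : PT ≠ 0 := right_ne_zero_of_mul hT0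
  have hPR0 : PR ≠ 0 := right_ne_zero_of_mul hR0
  -- multiply the two relations
  have hm : (CS * (-1 / 4) * PT) * (CS * (-4 * dO (a * b)) * PR) =
      ((-1 / 4) ^ NI a * PR) * ((-4 * dO b) ^ NI a * PT) := by
    rw [g1, g2]
  have hp : ((-1 / 4 : Om)) ^ NI a * (-4 * dO b) ^ NI a = dO b ^ NI a := by
    rw [← mul_pow]
    congr 1
    ring
  refine mul_right_cancel₀ (mul_ne_zero hPT0 hPR0) ?_
  calc CS ^ 2 * dO (a * b) * (PT * PR)
      = (CS * (-1 / 4) * PT) * (CS * (-4 * dO (a * b)) * PR) := by ring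
    _ = ((-1 / 4) ^ NI a * PR) * ((-4 * dO b) ^ NI a * PT) := hm
    _ = ((-1 / 4 : Om) ^ NI a * (-4 * dO b) ^ NI a) * (PT * PR) := by ring
    _ = dO b ^ NI a * (PT * PR) := by rw [hp]

end Pool.Agent.DK
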