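import Pool.Agent.Lib.DK.D.Spec

/-!
# Theorem DK, part D, module ThC: complex conjugation of theta
-/

set_option autoImplicit false

open scoped Pointwise nonZeroDivisors

noncomputable section

namespace Pool.Agent.DK

open Pool.Agent.MuZ Pool.Agent.FW NumberField IsDedekindDomain
open Pool.Agent.DI (io ofC io_inj exists_io io_ofC ofC_io VP MP UP TP ex sqr sqr_sq kap)

private theorem ThC_bot {k : ℕ} [SqK k] (hO3 : S_O3) {b : Ideal (OO k)} (hb : b ≠ ⊥) : cjI b ≠ ⊥ := by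
  intro h
  obtain ⟨v, hv, hv0⟩ := Submodule.exists_mem_ne_zero_of_ne_bot hb
  have h1 : cjO v ∈ cjI b := by
    rw [(hO3 k).1, cjO_cjO]
    exact hv
  rw [h, Submodule.mem_bot] at h1
  apply hv0
  rw [← cjO_cjO v, h1, cjO_zero]

theorem sThC (_ : S_L2) (hO3 : S_O3) (_ : S_B7) (hB14 : S_B14) (hR4 : S_R4) (hHsP : S_HsP)
    (hD8a : S_D8a) : S_ThC := by
  classical
  intro k _ c hc m b hm hb hm2 z hz hzb
  obtain ⟨-, c0, hc0, hc1⟩ := hR4
  have hcc : c = c0 := by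
    ext x
    apply io_inj
    rw [hc, hc0]
  subst hcc
  obtain ⟨e1, e2, -, -⟩ := hc1 k b hb
  have hb' : cjI b ≠ ⊥ := ThC_bot hO3 hb
  have hm' : cjI m ≠ ⊥ := ThC_bot hO3 hm
  have hm2' : PrI (cjI m) 2 := ((hO3 k).2.2.2.2.1 m 2).2 hm2
  have hS := (hB14 k m b hm hb hm2).1
  have hS' := (hHsP k m b hm hb hm2).2.2.2.2 _ hS
  obtain ⟨f1, f2, -, -, -⟩ := hD8a k (cjI m) (cjI b) hm' hb' hm2'
  have hmb : m * b ≠ ⊥ := by
    intro h1
    rcases Ideal.mul_eq_bot.1 h1 with h2 | h2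
    · exact hm h2
    · exact hb h2
  rw [f1, ← f2 _ hS', ← Finset.prod_pow]
  rw [Finset.prod_image (fun x _ y _ h => (starRingEnd ℂ).injective h)]
  unfold Theta
  rw [map_prod]
  refine Finset.prod_congr rfl fun u hu => ?_
  obtain ⟨hu1, hu2⟩ := hS.mem u hu
  have hut : Tor k u := tor_lam hmb hu1
  unfold W2
  simp only [map_pow, map_mul, map_inv₀, map_sub, map_add, map_one, map_ofNat]
  rw [e2 z hz hzb, e2 u hut hu2, e1]
  have h3 : (-xO (cjI b) ((starRingEnd ℂ) z) - 1 / 4 - (-xO (cjI b) ((starRingEnd ℂ) u) - 1 / 4)) ^ 3 =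
      -(xO (cjI b) ((starRingEnd ℂ) z) - xO (cjI b) ((starRingEnd ℂ) u)) ^ 3 := by ring
  rw [h3, inv_neg]
  congr 1
  ring

end Pool.Agent.DK
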