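import Pool.Agent.Lib.DK.D.Spec

/-!
# Theorem DK, module ThU: the factors of theta are units
-/

set_option autoImplicit false

noncomputable section

namespace Pool.Agent.DK

open Pool.Agent.MuZ Pool.Agent.FW NumberField IsDedekindDomain
open Pool.Agent.DI (io ofC io_inj exists_io io_ofC ofC_io VP MP UP TP ex sqr sqr_sq kap)

/-- The case of a point of the kernel. -/
private theorem ThU_alg {Q : Ideal ZZ} [hP : Q.IsPrime] {X x d : Om} (hX : ¬ VP Q X) (hx : VP Q x)
    (hd : VP Q d) (h2 : ¬ MP Q 2) :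
    UP Q (X * (X + 4 * d) * (4 * X + 1) * ((x - X) ^ 3)⁻¹) := by
  obtain ⟨hX0, ha⟩ := DI.VP.not_iff.1 hX
  set a : Om := X⁻¹ with hadef
  have hXa : X * a = 1 := mul_inv_cancel₀ hX0
  have n2 : VP Q (2 : Om) := by exact_mod_cast DI.VP.nat (P := Q) 2
  have n4 : VP Q (4 : Om) := by exact_mod_cast DI.VP.nat (P := Q) 4
  have u2 : UP Q (2 : Om) := ⟨n2, h2⟩
  have u4 : UP Q (4 : Om) := by
    have h := u2.mul u2
    have e : (2 : Om) * 2 = 4 := by norm_num
    rwa [e] at h
  have w1 : UP Q (1 + 4 * d * a) := by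
    refine DI.UP.congr DI.UP.one ?_
    rw [add_sub_cancel_left]
    exact DI.MP.mul_left (n4.mul hd) ha
  have w2 : UP Q (4 + a) := by
    refine DI.UP.congr u4 ?_
    rw [add_sub_cancel_left]
    exact ha
  have w3 : UP Q (1 - x * a) := by
    refine DI.UP.congr DI.UP.one ?_
    have e : 1 - x * a - 1 = -(x * a) := by ring
    rw [e]
    exact (DI.MP.mul_left hx ha).neg
  have w30 := w3.ne_zero
  have e : X * (X + 4 * d) * (4 * X + 1) * ((x - X) ^ 3)⁻¹ =
      -((1 + 4 * d * a) * (4 + a) * ((1 - x * a) ^ 3)⁻¹) := by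
    have e1 : x - X = -(X * (1 - x * a)) := by linear_combination -x * hXa
    have e2 : X * (X + 4 * d) * (4 * X + 1) = X ^ 3 * ((1 + 4 * d * a) * (4 + a)) := by
      have e3 : X ^ 3 * ((1 + 4 * d * a) * (4 + a)) =
        X * (X + 4 * d * (X * a)) * (4 * X + X * a) := by ring
      rw [e3, hXa, mul_one]
    rw [e1, e2]
    have hX3 : X ^ 3 ≠ 0 := pow_ne_zero 3 hX0
    have hw3 : (1 - x * a) ^ 3 ≠ 0 := pow_ne_zero 3 w30
    have e4 : (-(X * (1 - x * a))) ^ 3 = -(X ^ 3 * (1 - x * a) ^ 3) := by ring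
    rw [e4]
    field_simp
  rw [e]
  exact (((w1.mul w2).mul (w3.pow 3).inv)).neg

theorem sThU (hL4 : S_L4) (hL6 : S_L6) (hB14 : S_B14) (hXOm : S_XOm) (hDUn : S_DUn)
    (hKSub : S_KSub) (hKSep : S_KSep) (hKTST : S_KTST) (hKNq : S_KNq) (hD1 : S_D1)
    (hD2 : S_D2) : S_ThU := by
  intro k _ m b hm hb hm2 Q hQ hn z htz hz
  have hP : Q.IsPrime := hQ.1
  obtain ⟨⟨-, -, -, -, xT, xST, -, -, -⟩, -⟩ := hXOm k b hb
  obtain ⟨ksadd, ksneg, kslat⟩ := hKSub k b hb Q hQ hn
  obtain ⟨-, -, d1v, -, d1q, -, -⟩ := hD1 k b hb Q hQ hn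
  obtain ⟨tT, tS, -, kST, kT, -⟩ := hKTST k b hb Q hQ hn
  obtain ⟨-, -, ⟨lT, lS, -, -, -⟩, -⟩ := hL6 k b hb
  have vd : VP Q (dO b) := (hDUn k b hb Q hQ hn).1.1
  have hmb : m * b ≠ ⊥ := by
    rw [← Ideal.zero_eq_bot] at hm hb ⊢
    exact mul_ne_zero hm hb
  have n1 : VP Q (1 : Om) := DI.VP.one
  have n2 : VP Q (2 : Om) := by exact_mod_cast DI.VP.nat (P := Q) 2
  have n4 : VP Q (4 : Om) := by exact_mod_cast DI.VP.nat (P := Q) 4
  -- an element of `m` which is `1` modulo `2`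
  obtain ⟨v, hv, w, hvw⟩ : ∃ v ∈ m, ∃ w : OO k, v + 2 * w = 1 := by
    have h1 : (1 : OO k) ∈ m ⊔ Ideal.span {((2 : ℕ) : OO k)} := by
      rw [show m ⊔ Ideal.span {((2 : ℕ) : OO k)} = ⊤ from hm2]
      trivial
    obtain ⟨v, hv, y, hy, hvy⟩ := Submodule.mem_sup.1 h1
    obtain ⟨w, hw⟩ := Ideal.mem_span_singleton'.1 hy
    refine ⟨v, hv, w, ?_⟩
    rw [← hvy, ← hw]
    push_cast
    ring
  have hvu : ∀ u ∈ Lam (m * b), toC v * u ∈ Lam b := fun u hu => lam_prod.1 hu v hv
  -- `2 u` in the kernel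
  have hodd : ∀ u ∈ Lam (m * b), IK Q b (2 * u) → IK Q b u := by
    intro u hu h2
    have e : u = toC v * u + toC w * (2 * u) := by
      have h3 : toC v + 2 * toC w = 1 := by
        rw [← toC_two (k := k), ← toC_mul, ← toC_add, hvw, toC_one]
      linear_combination (-u) * h3
    rw [e]
    exact ksadd _ _ (kslat _ (hvu u hu)) (d1v w _ h2)
  have hnk : ∀ u ∈ Lam (m * b), ¬ IK Q b (z + u) := fun u hu h => hz u hu (d1q _ h)
  have hkz : ¬ IK Q b z := by
    have h := hnk 0 (lam_zero _)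
    rwa [add_zero] at h
  have split : ∀ y : ℂ, Tor k y → ¬ IK Q b y → y ∉ Lam b ∧ VP Q (xO b y) := by
    intro y hy h
    constructor
    · intro h1
      exact h ⟨hy, Or.inl h1⟩
    · by_contra h1
      exact h ⟨hy, Or.inr h1⟩
  have hxz := (split z htz hkz).2
  refine ⟨hkz, hxz, ?_⟩
  intro u hu hub
  have tu : Tor k u := tor_lam hmb hu
  by_cases hku : IK Q b u
  · refine ⟨?_, fun h => absurd hku h⟩
    have h2 : ¬ MP Q 2 := by
      intro h2
      have h3 : ¬ MP Q (toO v) := by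
        intro h4
        apply DI.MP.one_not (P := Q)
        have e : (1 : Om) = toO v + 2 * toO w := by
          have h5 : toO (v + 2 * w) = toO (1 : OO k) := by rw [hvw]
          have h6 : toO ((2 : ℕ) : OO k) = ((2 : ℕ) : Om) := toO_nat 2
          push_cast at h6
          rw [toO_add, toO_mul, toO_one, h6] at h5
          exact h5.symm
        rw [e]
        exact DI.MP.add h4 (DI.MP.mul_right h2 (toO_VP w))
      have h7 := d1q u hku v 1 h3 (by rw [mul_one]; exact hvu u hu)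
      rw [toC_one, one_mul] at h7
      exact hub h7
    exact ThU_alg (hku.2.resolve_left hub) hxz vd h2
  · have hX : UP Q (xO b u) := (hKNq k m b hm hb hm2 Q hQ hn).1 u hu hku
    -- points of order two
    have hsep : ∀ y : ℂ, Tor k y → ¬ IK Q b y → 2 * y ∈ Lam b → ¬ MP Q (xO b u - xO b y) := by
      intro y ty ky ly h
      apply hku
      apply hodd u hu
      rcases hKSep k b hb Q hQ hn u y tu ty hku ky h with h1 | h1
      · have e : 2 * u = (u + y) + (u + y) + -(2 * y) := by ring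
        rw [e]
        exact ksadd _ _ (ksadd _ _ h1 h1) (kslat _ (lam_neg ly))
      · have e : 2 * u = (u - y) + (u - y) + 2 * y := by ring
        rw [e]
        exact ksadd _ _ (ksadd _ _ h1 h1) (kslat _ ly)
    have hA : UP Q (xO b u + 4 * dO b) := by
      refine ⟨hX.1.add (n4.mul vd), fun h => ?_⟩
      apply hsep (ptS b + ptT b) (tor_add tS tT) kST (by
        rw [mul_add]
        exact lam_add lS lT)
      rw [xST]
      have e : xO b u - -4 * dO b = xO b u + 4 * dO b := by ring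
      rw [e]
      exact h
    have hB : UP Q (4 * xO b u + 1) := by
      by_cases h2 : MP Q 2
      · refine DI.UP.congr DI.UP.one ?_
        rw [add_sub_cancel_right]
        have e : (4 : Om) * xO b u = 2 * (2 * xO b u) := by ring
        rw [e]
        exact DI.MP.mul_right h2 (n2.mul hX.1)
      · refine ⟨(n4.mul hX.1).add n1, fun h => ?_⟩
        apply hsep (ptT b) tT (kT h2) lT
        rw [xT]
        have u2 : UP Q (2 : Om) := ⟨n2, h2⟩
        have e : xO b u - -1 / 4 = (4 * xO b u + 1) * ((2 : Om)⁻¹ * (2 : Om)⁻¹) := by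
          ring
        rw [e]
        exact DI.MP.mul_right h (u2.inv.1.mul u2.inv.1)
    have hW : UP Q (W2 b u) := (hX.mul hA).mul hB
    have hd : UP Q (xO b z - xO b u) := by
      refine ⟨hxz.sub hX.1, fun h => ?_⟩
      rcases hKSep k b hb Q hQ hn z u htz tu hkz hku h with h1 | h1
      · exact hnk u hu h1
      · rw [sub_eq_add_neg] at h1
        exact hnk (-u) (lam_neg hu) h1
    exact ⟨hW.mul (hd.pow 3).inv, fun _ => ⟨hX.1, hW, hd⟩⟩

end Pool.Agent.DK
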