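import Pool.Agent.Lib.DK.D.Spec

/-!
# Theorem DK, part D, module Wf (helper47): the function `wfO`
-/

set_option autoImplicit false

noncomputable section

namespace Pool.Agent.DK

open Pool.Agent.MuZ Pool.Agent.FW NumberField IsDedekindDomain
open Pool.Agent.DI (io ofC io_inj exists_io io_ofC ofC_io VP MP UP TP ex sqr sqr_sq kap)

variable {k : ℕ}

/-- A complex number whose square is in the image of `io` is in the image of `io`. -/
private theorem Wf_sq (q : ℂ) (x : Om) (h : q ^ 2 = io x) : io (ofC q) = q := by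
  obtain ⟨y, hy⟩ := IsAlgClosed.exists_pow_nat_eq x (n := 2) (by norm_num)
  have h1 : q ^ 2 = io y ^ 2 := by rw [h, ← hy, map_pow]
  rcases sq_eq_sq_iff_eq_or_eq_neg.1 h1 with h2 | h2
  · rw [h2, ofC_io]
  · rw [h2, ← map_neg, ofC_io]

private theorem Wf_coprime {a b : Ideal (OO k)} {N : ℕ} (ha : PrI a N) (hb : PrI b N) :
    PrI (a * b) N := by
  unfold PrI at *
  rw [← Ideal.isCoprime_iff_sup_eq] at *
  exact ha.mul_left hb

private theorem Wf_tor_inv {f : ℕ} (hf : 0 < f) : Tor k (1 / (f : ℂ)) := by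
  have h := tor_div (k := k) hf 1
  rwa [toC_one] at h

/-- The main algebra. -/
private theorem Wf_alg (w s r n x1 x2 : ℂ) (hs : s ≠ 0) (hr : r ≠ 0)
    (h1 : w ^ 2 = s ^ 3 * x1) (h3 : r ^ 2 * x2 = s * n ^ 2) :
    (w / (s * r)) ^ 2 * n ^ 2 = x1 * x2 := by
  have h4 : n ^ 2 = r ^ 2 * x2 / s := by
    rw [h3]
    field_simp
  rw [div_pow, h1, h4, mul_pow]
  field_simp

theorem sWf (hL3 : S_L3) (hB1 : S_B1) (hB2 : S_B2) (hB11 : S_B11) (hB14 : S_B14) (hR1 : S_R1)
    (hR4 : S_R4) (hR5 : S_R5) (hR5b : S_R5b) (hDLg : S_DLg) : S_Wf := by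
  intro k _ f b hf h3 hb hbf
  have hf0 : 0 < f := by omega
  have htop : ∀ N : ℕ, PrI (⊤ : Ideal (OO k)) N := fun N => by
    unfold PrI
    exact top_sup_eq _
  have htne : (⊤ : Ideal (OO k)) ≠ ⊥ := top_ne_bot
  -- (1) for every ideal prime to `f`
  have key : ∀ c : Ideal (OO k), c ≠ ⊥ → PrI c f → ∀ z : ℂ, Tor k z → z ∉ Lam c →
      io (wfO f c z) = wdC c z / (s2 c * fr f c) ∧
      wfO f c z ^ 2 * (6 * xO c (1 / f) ^ 2 + (1 + 16 * dO c) * xO c (1 / f) + 2 * dO c) ^ 2 =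
        W2 c z * W2 c (1 / f) := by
    intro c hc hcf z hz hzc
    obtain ⟨-, hN, -, hfr, hrel⟩ := hR5b k f c hf h3 hc hcf
    obtain ⟨-, -, hs, -⟩ := hB1 k c hc
    have hx : io (xO c z) = XC c z := hR4.1 k c hc z hz
    have hd : io (dO c) = DC c := (hR1 k c hc).1
    have hW : wdC c z ^ 2 = s2 c ^ 3 * io (W2 c z) := by
      rw [(hB2 k c hc z hzc).1]
      unfold W2
      rw [map_mul, map_mul, map_add, map_add, map_mul, map_mul, map_one, map_ofNat, hx, hd]
    have hq := Wf_alg (wdC c z) (s2 c) (fr f c)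
      (io (6 * xO c (1 / f) ^ 2 + (1 + 16 * dO c) * xO c (1 / f) + 2 * dO c)) (io (W2 c z))
      (io (W2 c (1 / f))) hs hfr hW hrel
    set Nn : Om := 6 * xO c (1 / f) ^ 2 + (1 + 16 * dO c) * xO c (1 / f) + 2 * dO c with hNn
    have hNi : io Nn ≠ 0 := by
      rw [Ne, map_eq_zero]
      exact hN
    have hio : io (wfO f c z) = wdC c z / (s2 c * fr f c) := by
      unfold wfO
      apply Wf_sq _ (W2 c z * W2 c (1 / f) / Nn ^ 2)
      rw [map_div₀, map_mul, map_pow, ← hq]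
      field_simp
    refine ⟨hio, ?_⟩
    apply io_inj
    rw [map_mul, map_pow, map_pow, map_mul, hio, hq]
  refine ⟨key b hb hbf, ?_, ?_⟩
  · intro a ha ha2 haf R hR z hz hzab hxz
    have hab : a * b ≠ ⊥ := mul_ne_zero ha hb
    have habf : PrI (a * b) f := Wf_coprime haf hbf
    have hxab : io (xO (a * b) z) = XC (a * b) z := hR4.1 k (a * b) hab z hz
    have hXz : XC (a * b) z ≠ 0 := by
      rw [← hxab, Ne, map_eq_zero]
      exact hxz
    obtain ⟨hne, hsum⟩ := hDLg k a b ha hb ha2 R hR z hzab hXz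
    have htu : ∀ u ∈ R, Tor k (z + u) := fun u hu => tor_add hz (tor_lam hab (hR.mem u hu))
    have hzu : ∀ u ∈ R, z + u ∉ Lam b := by
      intro u hu h
      apply hzab
      have h5 : z = z + u - u := by ring
      rw [h5]
      exact lam_sub (lam_mono h) (hR.mem u hu)
    have hxu : ∀ u ∈ R, io (xO b (z + u)) = XC b (z + u) := fun u hu =>
      hR4.1 k b hb (z + u) (htu u hu)
    refine ⟨?_, ?_⟩
    · intro u hu h
      apply hne u hu
      rw [← hxu u hu, h, map_zero]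
    · apply io_inj
      obtain ⟨hfr, hrO, -⟩ := hR5 k f ⊤ b (a * b) hf h3 htne hb hab (htop 2) (htop f) hbf habf
      obtain ⟨hfr', -, -⟩ := hR5 k f ⊤ (a * b) b hf h3 htne hab hb (htop 2) (htop f) habf hbf
      obtain ⟨-, -, hs, -⟩ := hB1 k (a * b) hab
      rw [map_mul, hrO, map_div₀, (key (a * b) hab habf z hz hzab).1, hxab, map_sum]
      have h6 : fr f (a * b) / fr f b * (wdC (a * b) z / (s2 (a * b) * fr f (a * b)) /
          XC (a * b) z) = (fr f b)⁻¹ * (wdC (a * b) z / (s2 (a * b) * XC (a * b) z)) := by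
        field_simp
      rw [h6, ← hsum, Finset.mul_sum]
      apply Finset.sum_congr rfl
      intro u hu
      rw [map_div₀, (key b hb hbf (z + u) (htu u hu) (hzu u hu)).1, hxu u hu]
      rw [div_div, mul_comm (s2 b) (fr f b), mul_assoc, inv_eq_one_div, div_mul_div_comm, one_mul]
  · intro m hm hm2 hmf z hz hzm
    have hmb : m * b ≠ ⊥ := mul_ne_zero hm hb
    obtain ⟨-, -, h5⟩ := hR5 k f m b b hf h3 hm hb hb hm2 hmf hbf hbf
    have hzb : z ∉ Lam b := fun h => hzm (lam_mono h)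
    apply io_inj
    rw [(h5 z hz).2 hzm, hB11 k f m b hf h3 hm hb hm2 hbf z hzm, map_sum]
    apply Finset.sum_congr rfl
    intro u hu
    have hu' := (hB14 k m b hm hb hm2).1.mem u hu
    have htu : Tor k u := tor_lam hmb hu'.1
    rw [map_mul, map_inv₀, map_sub, hR4.1 k b hb z hz, hR4.1 k b hb u htu,
      (key b hb hbf z hz hzb).1, ← div_eq_mul_inv, div_div, mul_comm (s2 b) (fr f b)]

end Pool.Agent.DK
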