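import Pool.Agent.Lib.DK.D.Spec

/-!
# Theorem DK, part D, module Wf2: the function `wfO` and the framing modulo `2`, above `𝔭`
-/

set_option autoImplicit false

open scoped Pointwise nonZeroDivisors

noncomputable section

namespace Pool.Agent.DK

open Pool.Agent.MuZ Pool.Agent.FW NumberField IsDedekindDomain
open Pool.Agent.DI (io ofC io_inj exists_io io_ofC ofC_io VP MP UP TP ex sqr sqr_sq kap)

private theorem Wf2_excl {k : ℕ} {P : Ideal ZZ} (h : AbP k P) : ¬ AbPb k P := by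
  intro h'
  have := h.1.1
  have h1 := DI.MP.add h.2.2 h'.2.2
  rw [add_sub_cancel] at h1
  exact DI.MP.one_not h1

private theorem Wf2_two {k : ℕ} [SqK k] (b : Ideal (OO k)) : 2 * ptS b ∈ Lam b := by
  have h1 : ptS b ∈ Lam (ppb k * b) := by
    unfold ptS gen
    split_ifs with h
    · exact h.choose_spec.1
    · exact lam_zero _
  have h2 : (2 : OO k) ∈ ppb k := Ideal.subset_span (by simp)
  have h3 := lam_prod.1 h1 2 h2
  rwa [toC_two] at h3

private theorem Wf2_odd {P : Ideal ZZ} (hP : Npr P) (h2 : MP P 2) {f : ℕ} (hf : Odd f) :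
    ¬ MP P (f : Om) := by
  have := hP.1
  intro h
  obtain ⟨j, rfl⟩ := hf
  have h3 : MP P ((2 : Om) * (j : Om)) := DI.MP.mul_right h2 (DI.VP.nat j)
  have h4 := DI.MP.sub h h3
  have e : ((2 * j + 1 : ℕ) : Om) - 2 * (j : Om) = 1 := by push_cast; ring
  rw [e] at h4
  exact DI.MP.one_not h4

/-- `w ^ 2 - X ^ 2 ∈ 4 V` implies `w - X ∈ 2 V`. -/
private theorem Wf2_sqrt {P : Ideal ZZ} (hP : Npr P) {w X B : Om} (hX : VP P X) (hB : VP P B)
    (h : w ^ 2 - X ^ 2 = 4 * B) : TP P 2 (w - X) := by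
  have := hP.1
  set y : Om := (w - X) / 2 with hy
  have e : w - X = 2 * y := by rw [hy]; field_simp
  have e2 : y ^ 2 + X * y = B := by
    have e3 : w = X + 2 * y := by rw [← e]; ring
    rw [e3] at h
    have h4 : (4 : Om) ≠ 0 := by norm_num
    apply mul_left_cancel₀ h4
    rw [← h]
    ring
  refine ⟨y, ?_, e⟩
  by_contra hv
  obtain ⟨h0, h1⟩ := DI.VP.not_iff.1 hv
  have e4 : (1 : Om) = B * (y⁻¹) ^ 2 - X * y⁻¹ := by
    rw [← e2]
    field_simp
    ring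
  have h5 : MP P (B * (y⁻¹) ^ 2 - X * y⁻¹) := by
    refine DI.MP.sub (DI.MP.mul_left hB ?_) (DI.MP.mul_left hX h1)
    rw [pow_two]
    exact DI.MP.mul_left (DI.MP.vp h1) h1
  rw [← e4] at h5
  exact DI.MP.one_not h5

private theorem Wf2_E {P : Ideal ZZ} (hP : Npr P) (h2 : MP P 2) {X d : Om} (hX : UP P X)
    (hd : VP P d) :
    TP P 4 (X * (X + 4 * d) * (4 * X + 1) / (6 * X ^ 2 + (1 + 16 * d) * X + 2 * d) ^ 2 - 1) := by
  have := hP.1
  have v1 : VP P (1 : Om) := DI.VP.one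
  have vn : ∀ n : ℕ, VP P (n : Om) := fun n => DI.VP.nat n
  have v2 : VP P (2 : Om) := by simpa using vn 2
  have v3 : VP P (3 : Om) := by simpa using vn 3
  have v4 : VP P (4 : Om) := by simpa using vn 4
  have v8 : VP P (8 : Om) := by simpa using vn 8
  have hX0 := hX.ne_zero
  set y : Om := 3 * X + 8 * d + d * X⁻¹ with hy
  have vy : VP P y := ((v3.mul hX.1).add (v8.mul hd)).add (hd.mul hX.inv.1)
  have u1 : UP P (1 + 2 * y) := by
    refine DI.UP.congr DI.UP.one ?_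
    rw [add_sub_cancel_left]
    exact DI.MP.mul_right h2 vy
  have u0 := u1.ne_zero
  have eN : 6 * X ^ 2 + (1 + 16 * d) * X + 2 * d = X * (1 + 2 * y) := by
    rw [hy]
    field_simp
    ring
  refine ⟨(X + d * (4 + X⁻¹) - y - y ^ 2) * ((1 + 2 * y) ^ 2)⁻¹, ?_, ?_⟩
  · refine DI.VP.mul ?_ (DI.UP.inv (DI.UP.pow u1 2)).1
    exact ((hX.1.add (hd.mul (v4.add hX.inv.1))).sub vy).sub (vy.pow 2)
  · rw [eN]
    have e1 : X * (X + 4 * d) * (4 * X + 1) =
        X ^ 2 * ((1 + 4 * (d * X⁻¹)) * (4 * X + 1)) := by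
      field_simp
    rw [e1]
    have e2 : X ^ 2 * ((1 + 4 * (d * X⁻¹)) * (4 * X + 1)) / (X * (1 + 2 * y)) ^ 2 =
        ((1 + 4 * (d * X⁻¹)) * (4 * X + 1)) * ((1 + 2 * y) ^ 2)⁻¹ := by
      field_simp
    rw [e2]
    have e3 : (1 : Om) = (1 + 2 * y) ^ 2 * ((1 + 2 * y) ^ 2)⁻¹ :=
      (mul_inv_cancel₀ (pow_ne_zero 2 u0)).symm
    have e4 : (1 + 4 * (d * X⁻¹)) * (4 * X + 1) - (1 + 2 * y) ^ 2 =
        4 * (X + d * (4 + X⁻¹) - y - y ^ 2) := by
      have e5 : X⁻¹ * X = 1 := inv_mul_cancel₀ hX0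
      linear_combination (16 * d) * e5
    calc ((1 + 4 * (d * X⁻¹)) * (4 * X + 1)) * ((1 + 2 * y) ^ 2)⁻¹ - 1
        = ((1 + 4 * (d * X⁻¹)) * (4 * X + 1)) * ((1 + 2 * y) ^ 2)⁻¹ -
            (1 + 2 * y) ^ 2 * ((1 + 2 * y) ^ 2)⁻¹ := by rw [← e3]
      _ = ((1 + 4 * (d * X⁻¹)) * (4 * X + 1) - (1 + 2 * y) ^ 2) * ((1 + 2 * y) ^ 2)⁻¹ := by ring
      _ = _ := by rw [e4]; ring

theorem sWf2 (h1 : S_R5b) (h2 : S_XOm) (h3 : S_DUn) (h4 : S_D1) (h5 : S_D2) (h6 : S_Wf) :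
    S_Wf2 := by
  intro k _ f b hf hf3 hb hbf P hAb
  have hP := hAb.1
  have := hP.1
  have hn := Wf2_excl hAb
  obtain ⟨r1, r2, r3, r4, r5⟩ := h1 k f b hf hf3 hb hbf
  obtain ⟨d1, -, -, -, -, -⟩ := h3 k b hb P hP hn
  obtain ⟨k1, k2, k3, -, k5, -, -⟩ := h4 k b hb P hP hn
  obtain ⟨-, -, -, -, -, q6, -⟩ := h5 k b hb P hAb
  obtain ⟨w1, -, -⟩ := h6 k f b hf hf3 hb hbf
  obtain ⟨-, -, -, -, -, xS, -⟩ := h2 k b hb
  have hf0 : 0 < f := by omega
  have hfC : (f : ℂ) ≠ 0 := by exact_mod_cast hf0.ne'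
  have hodd : ¬ MP P (toO ((f : ℕ) : OO k)) := by
    rw [toO_nat]
    exact Wf2_odd hP hAb.2.1 hf
  have hlam : ∀ v : OO k, toC v ∈ Lam b := fun v u _ => ⟨u * v, (toC_mul u v).symm⟩
  -- the unit at a point outside of the kernel and of the kernel plus S
  have unit : ∀ z : ℂ, Tor k z → ¬ IK P b z → ¬ IK P b (z + ptS b) → UP P (xO b z) := by
    intro z hz i1 i2
    have l1 : z ∉ Lam b := fun h => i1 ⟨hz, Or.inl h⟩
    have t2 : Tor k (z + ptS b) := by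
      have hS : Tor k (ptS b) := by
        rw [tor_iff hb]
        exact ⟨2, by norm_num, by simpa using Wf2_two b⟩
      exact tor_add hz hS
    have l2 : z + ptS b ∉ Lam b := fun h => i2 ⟨t2, Or.inl h⟩
    have v1 : VP P (xO b z) := by
      by_contra h
      exact i1 ⟨hz, Or.inr h⟩
    have v2 : VP P (xO b (z + ptS b)) := by
      by_contra h
      exact i2 ⟨t2, Or.inr h⟩
    refine ⟨v1, fun hm => d1.2 ?_⟩
    rw [← (xS z hz l1 l2).2]
    exact DI.MP.mul_left v2 hm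
  have ht : Tor k (1 / f) := by
    have := tor_div (k := k) hf0 1
    rwa [toC_one] at this
  -- `2 / f` and `1 / f` are not primary
  have qp2 : ¬ Qp P b (2 * (1 / f)) := by
    intro h
    apply r1
    have h7 := h (f : OO k) 1 hodd ?_
    · rwa [toC_one, one_mul] at h7
    · rw [mul_one, toC_nat]
      have e : (f : ℂ) * (2 * (1 / f)) = toC (2 : OO k) := by
        rw [toC_two]
        field_simp
      rw [e]
      exact hlam 2
  have ik2 : ¬ IK P b (2 * (1 / f)) := fun h => qp2 (k5 _ h)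
  have ik1 : ¬ IK P b (1 / f) := by
    intro h
    apply ik2
    have := k3 2 _ h
    rwa [toC_two] at this
  have ikS : ¬ IK P b (1 / f + ptS b) := by
    intro h
    apply ik2
    have h7 := k3 2 _ h
    rw [toC_two] at h7
    have h8 : IK P b (-(2 * ptS b)) := k2 _ (lam_neg (Wf2_two b))
    have h9 := k1 _ _ h7 h8
    have e : 2 * (1 / (f : ℂ) + ptS b) + -(2 * ptS b) = 2 * (1 / f) := by ring
    rwa [e] at h9
  have uX : UP P (xO b (1 / f)) := unit _ ht ik1 ikS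
  set X₁ : Om := xO b (1 / f) with hX₁
  set N : Om := 6 * X₁ ^ 2 + (1 + 16 * dO b) * X₁ + 2 * dO b with hN
  have hW : W2 b (1 / f) = X₁ * (X₁ + 4 * dO b) * (4 * X₁ + 1) := rfl
  have hE := Wf2_E hP hAb.2.1 uX d1.1
  rw [← hN, ← hW] at hE
  have hiN : io N ≠ 0 := by
    rw [map_ne_zero]
    exact r2
  have key : ∀ z : ℂ, Tor k z → ¬ IK P b z → TP P 2 (wfO f b z - xO b z) := by
    intro z hz i1
    have l1 : z ∉ Lam b := fun h => i1 ⟨hz, Or.inl h⟩
    have v1 : VP P (xO b z) := by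
      by_contra h
      exact i1 ⟨hz, Or.inr h⟩
    obtain ⟨Y, vY, eY⟩ := hE
    have eY' : W2 b (1 / f) / N ^ 2 = 1 + 4 * Y := by rw [← eY]; ring
    have vn : ∀ n : ℕ, VP P (n : Om) := fun n => DI.VP.nat n
    have v4 : VP P (4 : Om) := by simpa using vn 4
    have hw : wfO f b z ^ 2 = W2 b z * (1 + 4 * Y) := by
      have h7 := (w1 z hz l1).2
      rw [← eY', ← mul_div_assoc, eq_div_iff (pow_ne_zero 2 r2)]
      exact h7
    have hWz : W2 b z = xO b z * (xO b z + 4 * dO b) * (4 * xO b z + 1) := rfl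
    refine Wf2_sqrt hP v1 (B := xO b z ^ 2 * Y + (xO b z ^ 3 + 4 * dO b * xO b z ^ 2 +
      dO b * xO b z) * (1 + 4 * Y)) ?_ ?_
    · refine ((v1.pow 2).mul vY).add (DI.VP.mul ?_ (DI.VP.one.add (v4.mul vY)))
      exact ((v1.pow 3).add ((v4.mul d1.1).mul (v1.pow 2))).add (d1.1.mul v1)
    · rw [hw, hWz]
      ring
  refine ⟨uX, ⟨W2 b (1 / f) / N ^ 2, hE, div_ne_zero r3 (pow_ne_zero 2 r2), ?_⟩, key, ?_⟩
  · rw [map_div₀, map_pow, ← mul_div_assoc, div_eq_iff (pow_ne_zero 2 hiN)]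
    exact r5
  · intro z hz i1 i2
    have u := unit z hz i1 i2
    obtain ⟨y, vy, ey⟩ := key z hz i1
    refine ⟨y * (xO b z)⁻¹, vy.mul u.inv.1, ?_⟩
    have h0 := u.ne_zero
    rw [← mul_assoc, ← ey]
    field_simp

end Pool.Agent.DK
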