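import Pool.Agent.Lib.DK.D.Spec

/-!
# Theorem DK, part D, module XOm: the formulas in `Om`
-/

set_option autoImplicit false

open scoped Pointwise nonZeroDivisors

noncomputable section

namespace Pool.Agent.DK

open Pool.Agent.MuZ Pool.Agent.FW NumberField IsDedekindDomain
open Pool.Agent.DI (io ofC io_inj exists_io io_ofC ofC_io VP MP UP TP ex sqr sqr_sq kap)

private theorem XOm_of {x : ℂ} {y : Om} (h : x = io y) : ofC x = y := by rw [h, ofC_io]

private theorem XOm_two {k : ℕ} [SqK k] : (2 : OO k) ≠ 0 := by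
  intro h
  have h1 := congrArg toC h
  rw [toC_two, toC_zero] at h1
  exact two_ne_zero h1

private theorem XOm_pp {k : ℕ} [SqK k] {b : Ideal (OO k)} (hb : b ≠ ⊥) : pp k * b ≠ ⊥ := by
  intro h
  rcases Ideal.mul_eq_bot.1 h with h1 | h1
  · have h2 : (2 : OO k) ∈ pp k := Ideal.subset_span (by simp)
    rw [h1] at h2
    exact XOm_two ((Submodule.mem_bot (OO k)).1 h2)
  · exact hb h1

private theorem XOm_ppb {k : ℕ} [SqK k] {b : Ideal (OO k)} (hb : b ≠ ⊥) : ppb k * b ≠ ⊥ := by
  intro h
  rcases Ideal.mul_eq_bot.1 h with h1 | h1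
  · have h2 : (2 : OO k) ∈ ppb k := Ideal.subset_span (by simp)
    rw [h1] at h2
    exact XOm_two ((Submodule.mem_bot (OO k)).1 h2)
  · exact hb h1

set_option linter.unusedSimpArgs false in
theorem sXOm (_ : S_L2) (hB1 : S_B1) (hB3 : S_B3) (hB4 : S_B4) (hB5 : S_B5) (hB6 : S_B6)
    (hB7 : S_B7) (hR1 : S_R1) (hR4 : S_R4) : S_XOm := by
  intro k _ b hb
  have hx : ∀ b' : Ideal (OO k), b' ≠ ⊥ → ∀ z : ℂ, Tor k z → io (xO b' z) = XC b' z :=
    fun b' hb' z hz => hR4.1 k b' hb' z hz
  have hd : ∀ b' : Ideal (OO k), b' ≠ ⊥ → io (dO b') = DC b' := fun b' hb' => (hR1 k b' hb').1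
  have ht : ∀ b' : Ideal (OO k), b' ≠ ⊥ → io (tO b') = ThC b' := fun b' hb' => (hR1 k b' hb').2
  obtain ⟨p1, p2, -, p4, p5, p6, -, -, p9, p10, p11, p12, p13⟩ := hB1 k b hb
  have hpp := XOm_pp hb
  have hppb := XOm_ppb hb
  refine ⟨⟨?_, ?_, ?_, ?_, ?_, ?_, ?_, ?_, ?_⟩, ?_, ?_, ?_, ?_, ?_, ⟨?_, ?_, ?_⟩, ⟨?_, ?_, ?_⟩, ?_⟩
  · intro z l hl
    unfold xO
    rw [(p1 z l hl).2.2]
  · intro z
    unfold xO
    rw [(p2 z).2.2]
  · intro z hz
    apply XOm_of
    rw [(p9 z hz).1]
    simp only [map_div₀, map_neg, map_add, map_one, map_mul, map_ofNat]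
    rw [hd b hb]
  · apply XOm_of
    rw [p10, map_zero]
  · apply XOm_of
    rw [p11]
    simp only [map_div₀, map_neg, map_one, map_ofNat]
  · apply XOm_of
    rw [p12]
    simp only [map_neg, map_mul, map_ofNat]
    rw [hd b hb]
  · apply io_inj
    rw [map_pow, ht b hb, hd b hb]
    exact p13
  · intro h
    apply p4
    rw [← hd b hb, h, map_zero]
  · intro h
    apply p5
    rw [← hd b hb]
    have h1 := congrArg io h
    simpa only [map_sub, map_one, map_mul, map_ofNat, map_zero] using h1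
  · intro z z' hz hz' h1 h2
    rw [← p6 z z' h1 h2, ← hx b hb z hz, ← hx b hb z' hz']
    exact io_inj.eq_iff.symm
  · intro z z' hz hz' h1 h2 h3 h4
    obtain ⟨q1, q2, -⟩ := (hB3 k b hb).1 z z' h1 h2 h3 h4
    rw [← hx b hb z hz, ← hx b hb z' hz', ← hx b hb (z + z') (tor_add hz hz'),
      ← hx b hb (z - z') (tor_sub hz hz'), ← hd b hb] at q1 q2
    constructor
    · apply io_inj
      simp only [map_div₀, map_neg, map_add, map_sub, map_one, map_mul, map_ofNat, map_pow]
      exact q1
    · apply io_inj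
      simp only [map_div₀, map_neg, map_add, map_sub, map_one, map_mul, map_ofNat, map_pow]
      exact q2
  · intro z hz h2
    have q := (hB3 k b hb).2 z h2
    have hz2 : Tor k (2 * z) := by
      have := tor_mul (2 : OO k) hz
      rwa [toC_two] at this
    rw [← hx b hb z hz, ← hx b hb (2 * z) hz2, ← hd b hb] at q
    apply io_inj
    unfold W2
    simp only [map_div₀, map_neg, map_add, map_sub, map_one, map_mul, map_ofNat, map_pow]
    exact q
  · intro z hz h1 h2
    obtain ⟨q1, q2⟩ := (hB4 k b hb).1 z h1 h2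
    have hq1 : 4 * xO b z + 1 ≠ 0 := by
      intro h
      apply q1
      rw [← hx b hb z hz]
      have h3 := congrArg io h
      simpa only [map_add, map_one, map_mul, map_ofNat, map_zero] using h3
    refine ⟨hq1, ?_⟩
    have e : XC b (z + ptT b) = io (-(xO b z + 4 * dO b) / (4 * xO b z + 1)) := by
      simp only [map_div₀, map_neg, map_add, map_one, map_mul, map_ofNat]
      rw [hx b hb z hz, hd b hb, eq_div_iff q1]
      exact q2
    have e' : xO b (z + ptT b) = -(xO b z + 4 * dO b) / (4 * xO b z + 1) := XOm_of e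
    rw [e', div_mul_cancel₀ _ hq1]
  · intro z hz h1 h2
    obtain ⟨q1, q2⟩ := (hB4 k b hb).2 z h1 h2
    have hq1 : xO b z ≠ 0 := by
      intro h
      apply q1
      rw [← hx b hb z hz, h, map_zero]
    refine ⟨hq1, ?_⟩
    have e : XC b (z + ptS b) = io (dO b / xO b z) := by
      rw [map_div₀, hx b hb z hz, hd b hb, eq_div_iff q1]
      exact q2
    have e' : xO b (z + ptS b) = dO b / xO b z := XOm_of e
    rw [e', div_mul_cancel₀ _ hq1]
  · intro h
    apply (hB5 k b hb).1
    rw [← ht b hb]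
    have h1 := congrArg io h
    simpa only [map_add, map_one, map_mul, map_ofNat, map_zero] using h1
  · apply io_inj
    simp only [map_add, map_one, map_mul, map_ofNat, map_pow]
    rw [ht b hb, hd _ hppb]
    exact (hB5 k b hb).2.1
  · intro z hz h1
    have q := ((hB5 k b hb).2.2.2 z h1).1
    apply io_inj
    simp only [map_add, map_sub, map_one, map_mul, map_ofNat, map_pow]
    rw [ht b hb, hx b hb z hz, hx _ hppb z hz]
    exact q
  · intro h
    apply (hB6 k b hb).1
    rw [← ht _ hpp]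
    have h1 := congrArg io h
    simpa only [map_add, map_one, map_mul, map_ofNat, map_zero] using h1
  · apply io_inj
    simp only [map_add, map_one, map_mul, map_ofNat, map_pow]
    rw [ht _ hpp, hd b hb]
    exact (hB6 k b hb).2.1
  · intro z hz h1
    have q := ((hB6 k b hb).2.2.2 z h1).1
    apply io_inj
    simp only [map_add, map_sub, map_one, map_mul, map_ofNat, map_pow]
    rw [ht _ hpp, hx b hb z hz, hx _ hpp z hz, hd b hb]
    exact q
  · intro α hα
    obtain ⟨q1, q2, q3, -⟩ := (hB7 k b hb).1 α hα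
    refine ⟨?_, ?_, ?_⟩
    · intro z
      unfold xO
      rw [(q1 z).1]
    · unfold dO
      rw [q2]
    · unfold tO
      rw [q3]

end Pool.Agent.DK
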