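import Pool.Agent.Lib.DK.O.All
import Pool.Agent.Lib.DK.R.AbQ
import Pool.Agent.Lib.DK.R.R0
import Pool.Agent.Lib.DK.R.R0O
import Pool.Agent.Lib.DK.R.R1
import Pool.Agent.Lib.DK.R.R2
import Pool.Agent.Lib.DK.R.R2a
import Pool.Agent.Lib.DK.R.R3
import Pool.Agent.Lib.DK.R.R4
import Pool.Agent.Lib.DK.R.R4a
import Pool.Agent.Lib.DK.R.R5
import Pool.Agent.Lib.DK.R.R5a
import Pool.Agent.Lib.DK.R.R5b
import Pool.Agent.Lib.DK.R.RA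
import Pool.Agent.Lib.DK.R.RB
import Pool.Agent.Lib.DK.R.RC
import Pool.Agent.Lib.DK.R.RD
import Pool.Agent.Lib.DK.R.RV
import Pool.Agent.Lib.DK.D.D1
import Pool.Agent.Lib.DK.D.D2
import Pool.Agent.Lib.DK.D.D3
import Pool.Agent.Lib.DK.D.D3a
import Pool.Agent.Lib.DK.D.D4
import Pool.Agent.Lib.DK.D.D5
import Pool.Agent.Lib.DK.D.D6
import Pool.Agent.Lib.DK.D.D7
import Pool.Agent.Lib.DK.D.D8
import Pool.Agent.Lib.DK.D.D8a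
import Pool.Agent.Lib.DK.D.D9
import Pool.Agent.Lib.DK.D.D9a
import Pool.Agent.Lib.DK.D.D9b
import Pool.Agent.Lib.DK.D.DLg
import Pool.Agent.Lib.DK.D.DUn
import Pool.Agent.Lib.DK.D.Dis
import Pool.Agent.Lib.DK.D.Dis2
import Pool.Agent.Lib.DK.D.Fer
import Pool.Agent.Lib.DK.D.HsP
import Pool.Agent.Lib.DK.D.KN2
import Pool.Agent.Lib.DK.D.KNa
import Pool.Agent.Lib.DK.D.KNq
import Pool.Agent.Lib.DK.D.KQp
import Pool.Agent.Lib.DK.D.KRed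
import Pool.Agent.Lib.DK.D.KSep
import Pool.Agent.Lib.DK.D.KSub
import Pool.Agent.Lib.DK.D.KTST
import Pool.Agent.Lib.DK.D.LaU
import Pool.Agent.Lib.DK.D.OddT
import Pool.Agent.Lib.DK.D.PrC
import Pool.Agent.Lib.DK.D.QpC
import Pool.Agent.Lib.DK.D.Ref
import Pool.Agent.Lib.DK.D.ThC
import Pool.Agent.Lib.DK.D.ThU
import Pool.Agent.Lib.DK.D.Wf
import Pool.Agent.Lib.DK.D.Wf2
import Pool.Agent.Lib.DK.D.XOm

/-!
# Theorem DK, parts R and D: assembly, given Part B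

`HB` : the statements of Part B. `aR1 (B : HB) : S_R1`, .., `aD1 (B : HB) : S_D1`, ...
-/

set_option autoImplicit false

noncomputable section

namespace Pool.Agent.DK

/-- The statements of Part B. -/
structure HB : Prop where
  b1 : S_B1
  b2 : S_B2
  b3 : S_B3
  b4 : S_B4
  b5 : S_B5
  b6 : S_B6
  b7 : S_B7
  b8 : S_B8
  b9 : S_B9
  b10 : S_B10
  b11 : S_B11
  b12 : S_B12
  b13 : S_B13
  b14 : S_B14
  b15 : S_B15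
  b16 : S_B16

theorem aAbQ : S_AbQ := sAbQ aO4
theorem aRA : S_RA := sRA
theorem aRV : S_RV := sRV
theorem aRB : S_RB := sRB
theorem aRC : S_RC := sRC aRB
theorem aRD : S_RD := sRD
theorem aOddT : S_OddT := sOddT aO6
theorem aFer : S_Fer := sFer aAbQ
theorem aHsP : S_HsP := sHsP aO3 aL2

theorem aR0 (B : HB) : S_R0 := sR0 aO4 aO5 B.b1 B.b5 B.b7
theorem aR1 (B : HB) : S_R1 := sR1 aRA aRB (aR0 B)
theorem aR0O (B : HB) : S_R0O := sR0O (aR0 B) (aR1 B)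
theorem aR2a (B : HB) : S_R2a := sR2a aO2 aO4 aRV aRC aRD (aR0O B) (aR1 B) B.b6
theorem aR4a (B : HB) : S_R4a := sR4a aL2 aL3 aL6 B.b1 B.b3 aRA (aR1 B)
theorem aR4 (B : HB) : S_R4 := sR4 aL2 B.b7 (aR1 B) (aR4a B)
theorem aR2 (B : HB) : S_R2 := sR2 aO3 (aR2a B) (aR4 B)
theorem aR3 (B : HB) : S_R3 := sR3 aO4 aO5 B.b6 B.b7 (aR1 B) (aR2a B) B.b1
theorem aR5a (B : HB) : S_R5a := sR5a aL3 aL4 aL6 B.b1 B.b9 (aR4a B)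

theorem aXOm (B : HB) : S_XOm := sXOm aL2 B.b1 B.b3 B.b4 B.b5 B.b6 B.b7 (aR1 B) (aR4 B)
theorem aDUn (B : HB) : S_DUn := sDUn (aXOm B) aAbQ (aR2 B)
theorem aKSub (B : HB) : S_KSub := sKSub (aXOm B) (aDUn B)
theorem aKRed (B : HB) : S_KRed := sKRed (aXOm B) (aDUn B)
theorem aKSep (B : HB) : S_KSep := sKSep (aXOm B) (aDUn B)
theorem aKTST (B : HB) : S_KTST := sKTST aL6 (aXOm B) (aDUn B)
theorem aKN2 (B : HB) : S_KN2 := sKN2 (aXOm B) (aDUn B)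
theorem aPrC (B : HB) : S_PrC := sPrC aL3 aL6 aOddT B.b1 B.b8 (aXOm B) (aR4 B) (aR5a B)
theorem aKNq (B : HB) : S_KNq :=
  sKNq aL3 aOddT (aXOm B) (aDUn B) (aKSub B) (aKRed B) (aKSep B) (aKTST B) (aPrC B)
theorem aKNa (B : HB) : S_KNa := sKNa aO4 (aXOm B) (aKN2 B) (aKNq B)
theorem aLaU (B : HB) : S_LaU := sLaU aO5 aL3 B.b7 aAbQ (aPrC B) (aKNq B) (aDUn B) B.b1
theorem aKQp (B : HB) : S_KQp := sKQp aL3 aL4 aL6 aAbQ (aKNa B) (aKSub B) (aKTST B) (aLaU B)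
theorem aD1 (B : HB) : S_D1 := sD1 (aKSub B) (aKRed B) (aKSep B) (aKNa B) (aKQp B)
theorem aD2 (B : HB) : S_D2 := sD2 aL6 (aXOm B) (aDUn B) (aKTST B) (aD1 B)
theorem aD3a (B : HB) : S_D3a :=
  sD3a aL3 aL4 (aD1 B) (aKNa B) (aPrC B) (aKNq B) (aLaU B) aFer
theorem aD3 (B : HB) : S_D3 :=
  sD3 aL3 aL6 (aXOm B) (aDUn B) (aKTST B) (aD1 B) (aPrC B) aFer (aD3a B)
theorem aRef (B : HB) : S_Ref := sRef (aXOm B) (aDUn B)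
theorem aD4 (B : HB) : S_D4 :=
  sD4 aL3 B.b7 (aXOm B) (aD1 B) (aPrC B) aFer (aD3a B) (aRef B) (aDUn B)
theorem aD8a (B : HB) : S_D8a := sD8a aL2 B.b14 (aXOm B) aHsP
theorem aD8 (B : HB) : S_D8 := sD8 (aD8a B)
theorem aThU (B : HB) : S_ThU :=
  sThU aL4 aL6 B.b14 (aXOm B) (aDUn B) (aKSub B) (aKSep B) (aKTST B) (aKNq B) (aD1 B) (aD2 B)
theorem aQpC (B : HB) : S_QpC := sQpC aO3 aL2 (aR4 B)
theorem aThC (B : HB) : S_ThC := sThC aL2 aO3 B.b7 B.b14 (aR4 B) aHsP (aD8a B)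
theorem aD5 (B : HB) : S_D5 := sD5 aO3 B.b14 (aR4 B) aAbQ (aThU B) (aQpC B) (aThC B)
theorem aD6 (B : HB) : S_D6 :=
  sD6 B.b14 (aXOm B) aAbQ aFer (aD1 B) (aD3 B) aHsP (aD8 B) (aThU B) aL6
theorem aDis (B : HB) : S_Dis := sDis aL3 aL4 B.b14 B.b16 (aXOm B) (aR4 B) (aD8a B)
theorem aDis2 (B : HB) : S_Dis2 :=
  sDis2 aL3 aL6 B.b14 B.b15 (aXOm B) (aR4 B) aHsP (aD8a B)
theorem aD7 (B : HB) : S_D7 :=
  sD7 aL3 aL5 B.b14 aOddT (aXOm B) (aD8a B) (aDis B) (aDis2 B)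
theorem aR5b (B : HB) : S_R5b :=
  sR5b aAbQ B.b1 B.b2 B.b12 (aR4 B) (aD1 B) (aD2 B) aL6
theorem aR5 (B : HB) : S_R5 :=
  sR5 B.b1 B.b2 B.b11 B.b14 (aR1 B) (aR4 B) (aR5a B) (aR5b B)
theorem aDLg (B : HB) : S_DLg := sDLg aL3 aL6 B.b1 B.b2 B.b8
theorem aWf (B : HB) : S_Wf :=
  sWf aL3 B.b1 B.b2 B.b11 B.b14 (aR1 B) (aR4 B) (aR5 B) (aR5b B) (aDLg B)
theorem aWf2 (B : HB) : S_Wf2 :=
  sWf2 (aR5b B) (aXOm B) (aDUn B) (aD1 B) (aD2 B) (aWf B)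
theorem aD9a (B : HB) : S_D9a :=
  sD9a aO4 aO6 aL3 aL6 B.b1 B.b5 B.b6 aOddT (aR1 B) (aR5 B) (aXOm B) (aDUn B) (aD1 B) (aD2 B)
    (aWf B) (aWf2 B)
theorem aD9b (B : HB) : S_D9b :=
  sD9b B.b14 (aXOm B) (aDUn B) (aD1 B) (aThU B) (aWf B) (aWf2 B)
theorem aD9 (B : HB) : S_D9 :=
  sD9 aO3 aO4 aL2 B.b7 B.b12 (aR4 B) (aR5 B) aAbQ (aQpC B) (aD9a B) (aD9b B)

end Pool.Agent.DK
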