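import Pool.Agent.Lib.DK.D.Spec

/-!
# Theorem DK, part D, module D8a: theta is well defined (author helper31)
-/

set_option autoImplicit false

open scoped Pointwise nonZeroDivisors

noncomputable section

namespace Pool.Agent.DK

open Pool.Agent.MuZ Pool.Agent.FW NumberField IsDedekindDomain
open Pool.Agent.DI (io ofC io_inj exists_io io_ofC ofC_io VP MP UP TP ex sqr sqr_sq kap)

variable {k : ℕ}

/-- Odd torsion. -/
private theorem D8a_odd [SqK k] {m b : Ideal (OO k)} (hm : PrI m 2) {z : ℂ} (hz : z ∈ Lam (m * b))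
    (h2 : 2 * z ∈ Lam b) : z ∈ Lam b := by
  have h1 : (1 : OO k) ∈ m ⊔ Ideal.span {((2 : ℕ) : OO k)} := by
    rw [show m ⊔ Ideal.span {((2 : ℕ) : OO k)} = ⊤ from hm]
    trivial
  obtain ⟨v, hv, y, hy, hvy⟩ := Submodule.mem_sup.1 h1
  obtain ⟨w, rfl⟩ := Ideal.mem_span_singleton.1 hy
  have e : z = toC v * z + toC w * (2 * z) := by
    have e1 := congrArg (fun x : OO k => toC x) hvy
    simp only [toC_add, toC_mul, toC_nat, toC_one] at e1
    linear_combination (-z) * e1
  rw [e]
  exact lam_add (lam_prod.1 hz v hv) (lam_mul w h2)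

theorem sD8a (_hL2 : S_L2) (hB14 : S_B14) (hX : S_XOm) (hH : S_HsP) : S_D8a := by
  classical
  intro k _ m b hm hb hm2
  have key : ∀ S : Finset ℂ, IsHalf m b S → ∀ z : ℂ,
      ∏ u ∈ S, W2 b u * ((xO b z - xO b u) ^ 3)⁻¹ = th0 m b z := by
    intro S hS z
    obtain ⟨⟨hper, hneg, -⟩, -⟩ := hX k b hb
    refine (hH k m b hm hb hm2).1 S (hs m b) hS (hB14 k m b hm hb hm2).1
      (fun u => W2 b u * ((xO b z - xO b u) ^ 3)⁻¹) fun u _ => ⟨?_, fun l hl => ?_⟩
    · simp only [W2, hneg]
    · simp only [W2, hper u l hl]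
  refine ⟨fun z => ?_, key, fun z => ⟨?_, fun l hl => ?_⟩, fun α z hα => ?_, fun z hz hzm => ?_⟩
  · exact Finset.prod_pow _ _ _
  · obtain ⟨⟨-, hneg, -⟩, -⟩ := hX k b hb
    simp only [th0, hneg]
  · obtain ⟨⟨hper, -⟩, -⟩ := hX k b hb
    simp only [th0, hper z l hl]
  · have hspα : sp α ≠ ⊥ := fun h => hα (Ideal.span_singleton_eq_bot.1 h)
    have hab : sp α * b ≠ ⊥ := mul_ne_zero hspα hb
    have h1 := (hH k m b hm hb hm2).2.1 α (hs m (sp α * b)) hα (hB14 k m _ hm hab hm2).1
    have h2 := key _ h1 (toC α * z)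
    obtain ⟨-, -, -, -, -, -, -, -, hhom⟩ := hX k b hb
    obtain ⟨hx, hd, -⟩ := hhom α hα
    rw [← h2, Finset.prod_image (fun x _ y _ hxy => mul_left_cancel₀ (toC_ne hα) hxy)]
    simp only [th0, W2, hx, hd]
  · obtain ⟨⟨-, -, -, -, -, -, -, hd0, hd1⟩, hinj, -, hdup, -⟩ := hX k b hb
    have hzb : z ∉ Lam b := fun h => hzm (lam_mono h)
    refine Finset.prod_ne_zero_iff.2 fun u hu => ?_
    obtain ⟨hu1, hu2⟩ := (hB14 k m b hm hb hm2).1.mem u hu
    have htu : Tor k u := tor_lam (mul_ne_zero hm hb) hu1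
    have h2u : 2 * u ∉ Lam b := fun h => hu2 (D8a_odd hm2 hu1 h)
    have hdu := hdup u htu h2u
    refine mul_ne_zero (fun h0 => ?_) (inv_ne_zero (pow_ne_zero _ (sub_ne_zero.2 fun he => ?_)))
    · rw [h0, mul_zero] at hdu
      have h3 : xO b u ^ 2 - dO b = 0 := by
        have := hdu.symm
        exact pow_eq_zero_iff (two_ne_zero) |>.1 this
      unfold W2 at h0
      rcases mul_eq_zero.1 h0 with h4 | h4
      · rcases mul_eq_zero.1 h4 with h5 | h5
        · rw [h5] at h3
          exact hd0 (by linear_combination -h3)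
        · have h6 : xO b u = -4 * dO b := by linear_combination h5
          rw [h6] at h3
          have h7 : dO b * (1 - 16 * dO b) = 0 := by linear_combination -h3
          rcases mul_eq_zero.1 h7 with h8 | h8
          · exact hd0 h8
          · exact hd1 h8
      · apply hd1
        linear_combination (4 * xO b u - 1) * h4 * (-1) + 16 * h3 
    · rcases (hinj z u hz htu hzb hu2).1 he with h3 | h3
      · exact hzm ((lam_sub_iff (lam_mono h3)).2 hu1)
      · have h4 := lam_sub (lam_mono (a := m) h3) hu1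
        rw [add_sub_cancel_right] at h4
        exact hzm h4

end Pool.Agent.DK
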