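import Pool.Agent.Lib.DK.R.Spec

/-!
# Theorem DK, part D (reduction, theta units): statements of the modules with proofs

Every statement `S_..` is proved in the file `DK/D/<name>.lean` as `theorem s<name> (hypotheses) : S_<name>`:
hypotheses exactly the statements named after (from ..), in that order. Read `DK/Defs.lean`, `DK/Iface.lean`,
`DK/Base.lean` first; facts on `VP`, `MP`, `UP`: `DI/Val.lean` (namespace `Pool.Agent.DI`). Models (many proofs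
can be copied, with `Lat` replaced by `Lam b`): `DI/D/*.lean`, `DI/D/SpecA.lean`, `SpecB.lean`, `SpecC.lean`.

NOTATION. `Q` a nonzero prime of `ZZ` NOT above `𝔭̄` (`¬ AbPb k Q`): so `2` is a unit at `Q`, or `Q` is above `𝔭`;
`V`, `m` the valuation ring and its maximal ideal (`VP Q`, `MP Q`); `x z = xO b z`, `d = dO b` (a unit),
`th = tO b` (a unit); the Kummer line: `b2 = 1 + 16 d`, `b4 = 2 d`, `b6 = 0`, `b8 = - d ^ 2`,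
`W2 = x (x + 4 d) (4 x + 1)`. `IK Q b z`: kernel of reduction. A system: `IsSys`.
-/

set_option autoImplicit false

open scoped Pointwise nonZeroDivisors

noncomputable section

namespace Pool.Agent.DK

open Pool.Agent.MuZ Pool.Agent.FW NumberField IsDedekindDomain
open Pool.Agent.DI (io ofC io_inj exists_io io_ofC ofC_io VP MP UP TP ex sqr sqr_sq kap)

/-! ## 1. The formulas in `Om` -/

/-- MODULE `XOm` (150 lines; from `S_L2`, `S_B1`, `S_B3`, `S_B4`, `S_B5`, `S_B6`, `S_B7`, `S_R1`, `S_R4`). THE FORMULAS IN `Om`.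
PROOF. Apply the injective map `io` (`io_inj`; `io (xO b z) = XC b z` for torsion points: `S_R4`; `io (dO b) = DC b`,
`io (tO b) = ThC b`: `S_R1`). The periodicity, the parity and the homogeneity hold for all `z` because
`xO b z = ofC (XC b z)`. `Tor k z` for `z ∈ Lam b`: `tor_lam`. -/
def S_XOm : Prop :=
  ∀ (k : ℕ) [SqK k] (b : Ideal (OO k)), b ≠ ⊥ →
    ((∀ z l : ℂ, l ∈ Lam b → xO b (z + l) = xO b z) ∧ (∀ z : ℂ, xO b (-z) = xO b z) ∧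
      (∀ z ∈ Lam b, xO b z = -(1 + 16 * dO b) / 12) ∧ xO b (ptS b) = 0 ∧ xO b (ptT b) = -1 / 4 ∧
      xO b (ptS b + ptT b) = -4 * dO b ∧ tO b ^ 2 = dO b ∧ dO b ≠ 0 ∧ 1 - 16 * dO b ≠ 0) ∧
    (∀ z z' : ℂ, Tor k z → Tor k z' → z ∉ Lam b → z' ∉ Lam b →
      (xO b z = xO b z' ↔ z - z' ∈ Lam b ∨ z + z' ∈ Lam b)) ∧
    (∀ z z' : ℂ, Tor k z → Tor k z' → z ∉ Lam b → z' ∉ Lam b → z + z' ∉ Lam b → z - z' ∉ Lam b →
      (xO b (z + z') + xO b (z - z')) * (xO b z - xO b z') ^ 2 =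
        2 * xO b z * xO b z' * (xO b z + xO b z') + (1 + 16 * dO b) * xO b z * xO b z' +
          2 * dO b * (xO b z + xO b z') ∧
      xO b (z + z') * xO b (z - z') * (xO b z - xO b z') ^ 2 = (xO b z * xO b z' - dO b) ^ 2) ∧
    (∀ z : ℂ, Tor k z → 2 * z ∉ Lam b → xO b (2 * z) * W2 b z = (xO b z ^ 2 - dO b) ^ 2) ∧
    (∀ z : ℂ, Tor k z → z ∉ Lam b → z + ptT b ∉ Lam b →
      4 * xO b z + 1 ≠ 0 ∧ xO b (z + ptT b) * (4 * xO b z + 1) = -(xO b z + 4 * dO b)) ∧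
    (∀ z : ℂ, Tor k z → z ∉ Lam b → z + ptS b ∉ Lam b → xO b z ≠ 0 ∧ xO b (z + ptS b) * xO b z = dO b) ∧
    (1 + 4 * tO b ≠ 0 ∧ dO (ppb k * b) * (1 + 4 * tO b) ^ 2 = tO b ∧
      ∀ z : ℂ, Tor k z → z ∉ Lam (ppb k * b) →
        xO (ppb k * b) z * ((1 + 4 * tO b) ^ 2 * xO b z) = (xO b z - tO b) ^ 2) ∧
    (1 + 4 * tO (pp k * b) ≠ 0 ∧ dO b * (1 + 4 * tO (pp k * b)) ^ 2 = tO (pp k * b) ∧
      ∀ z : ℂ, Tor k z → z ∉ Lam (pp k * b) →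
        xO (pp k * b) z * (4 * xO b z + 1) =
          (1 + 4 * tO (pp k * b)) ^ 2 * (xO b z * (xO b z + 4 * dO b))) ∧
    ∀ α : OO k, α ≠ 0 → (∀ z : ℂ, xO (sp α * b) z = xO b (toC α * z)) ∧ dO (sp α * b) = dO b ∧
      tO (sp α * b) = tO b

/-- MODULE `DUn` (60 lines; from `S_XOm`, `S_AbQ`, `S_R2`). UNITS AT `Q`. PROOF. If `2` is a unit at `Q`: `S_R2`; otherwise
`AbP k Q` (`S_AbQ`), `d`, `th` are units, `1 - 16 d`, `1 + 4 th` are units because `2 ∈ m` (`UP.congr`). Last claim: let `t ∈ V`,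
`t (t + 4 d) (4 t + 1) ∈ m` and `(t ^ 2 - d) ^ 2 ∈ m`, so `t ^ 2 - d ∈ m`. `t ∈ m` gives `d ∈ m`; `t + 4 d ∈ m` gives
`16 d ^ 2 - d ∈ m` (as `t ^ 2 - 16 d ^ 2 = (t + 4 d)(t - 4 d)`), so `d ∈ m` or `1 - 16 d ∈ m`; `4 t + 1 ∈ m` gives `16 t ^ 2 - 1 ∈ m`,
`16 d - 1 ∈ m`. -/
def S_DUn : Prop :=
  ∀ (k : ℕ) [SqK k] (b : Ideal (OO k)), b ≠ ⊥ → ∀ Q : Ideal ZZ, Npr Q → ¬ AbPb k Q →
    UP Q (dO b) ∧ UP Q (1 - 16 * dO b) ∧ UP Q (tO b) ∧ UP Q (1 + 4 * tO b) ∧ (¬ MP Q 2 ∨ AbP k Q) ∧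
    ∀ t : Om, VP Q t → MP Q (t * (t + 4 * dO b) * (4 * t + 1)) → ¬ MP Q ((t ^ 2 - dO b) ^ 2)

/-! ## 2. The kernel of reduction -/

/-- MODULE `KSub` (150 lines; from `S_XOm`, `S_DUn`). THE KERNEL IS CLOSED UNDER ADDITION. PROOF. As `DI/D/KSub.lean`
(`Pool.Agent.DI.D.S_KSub`, docstring in `DI/D/SpecA.lean`; the private lemmas `KSub_dbl`, `KSub_add` are pure algebra and
can be copied) with `b2 = 1 + 16 d`, `b4 = 2 d`, `b6 = 0`, `b8 = - d ^ 2`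
(`(x x' - d) ^ 2 = x ^ 2 x' ^ 2 - b4 x x' - b6 (x + x') - b8`). Also `-z` and the lattice points are in the kernel. -/
def S_KSub : Prop :=
  ∀ (k : ℕ) [SqK k] (b : Ideal (OO k)), b ≠ ⊥ → ∀ Q : Ideal ZZ, Npr Q → ¬ AbPb k Q →
    (∀ z z' : ℂ, IK Q b z → IK Q b z' → IK Q b (z + z')) ∧ (∀ z : ℂ, IK Q b z → IK Q b (-z)) ∧
    ∀ z ∈ Lam b, IK Q b z

/-- MODULE `KRed` (120 lines; from `S_XOm`, `S_DUn`). TRANSLATION BY THE KERNEL DOES NOT CHANGE THE REDUCTION. PROOF. As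
`DI/D/KRed.lean` (`Pool.Agent.DI.D.S_KRed`; `KRed_alg` is pure algebra). -/
def S_KRed : Prop :=
  ∀ (k : ℕ) [SqK k] (b : Ideal (OO k)), b ≠ ⊥ → ∀ Q : Ideal ZZ, Npr Q → ¬ AbPb k Q →
    ∀ z z' : ℂ, Tor k z → ¬ IK Q b z → IK Q b z' → MP Q (xO b (z + z') - xO b z)

/-- MODULE `KSep` (90 lines; from `S_XOm`, `S_DUn`). THE REDUCTION IS INJECTIVE MODULO SIGN AND KERNEL. PROOF. As
`DI/D/KSep.lean` (`Pool.Agent.DI.D.S_KSep`), `G(t) = t (t + 4 d)(4 t + 1)`, `F(t) = (t ^ 2 - d) ^ 2`; `bez` is the last claim of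
`S_DUn`. -/
def S_KSep : Prop :=
  ∀ (k : ℕ) [SqK k] (b : Ideal (OO k)), b ≠ ⊥ → ∀ Q : Ideal ZZ, Npr Q → ¬ AbPb k Q →
    ∀ z z' : ℂ, Tor k z → Tor k z' → ¬ IK Q b z → ¬ IK Q b z' → MP Q (xO b z - xO b z') →
      IK Q b (z + z') ∨ IK Q b (z - z')

/-- MODULE `KTST` (60 lines; from `S_L6`, `S_XOm`, `S_DUn`). THE POINTS OF ORDER TWO. PROOF. `xO b (ptS b) = 0 ∈ V` and
`ptS b ∉ Lam b`; `xO (S + T) = - 4 d`; `xO (T) = - 1/4` is in `V` iff `2` is a unit (`4 * (1/4) = 1`). -/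
def S_KTST : Prop :=
  ∀ (k : ℕ) [SqK k] (b : Ideal (OO k)), b ≠ ⊥ → ∀ Q : Ideal ZZ, Npr Q → ¬ AbPb k Q →
    Tor k (ptT b) ∧ Tor k (ptS b) ∧ ¬ IK Q b (ptS b) ∧ ¬ IK Q b (ptS b + ptT b) ∧
    (¬ MP Q 2 → ¬ IK Q b (ptT b)) ∧ (AbP k Q → IK Q b (ptT b))

/-- MODULE `KN2` (120 lines; from `S_XOm`, `S_DUn`). THE KERNEL AND THE TWO ISOGENIES OF DEGREE TWO. PROOF. Let `X = x z ∉ V`, `a = X⁻¹ ∈ m`
(for `z ∈ Lam b` everything is clear: `lam_mono`). (1) `z ∉ Lam (ppb b)`: `X' (1 + 4 th) ^ 2 X = (X - th) ^ 2`, so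
`X' ^ (-1) = (1 + 4 th) ^ 2 a ((1 - th a) ^ 2)⁻¹ ∈ m` (`1 - th a` is a unit; `X' ≠ 0`): `X' ∉ V`. (2) `z ∉ Lam (pp b)`, `th' = tO (pp b)`:
`X' (4 X + 1) = (1 + 4 th') ^ 2 X (X + 4 d)`, so `X'⁻¹ = (4 a + a ^ 2) ((1 + 4 th') ^ 2 (1 + 4 d a))⁻¹ ∈ m` (the right side of
the relation is not `0`, so `X' ≠ 0`, `4 X + 1 ≠ 0`). -/
def S_KN2 : Prop :=
  ∀ (k : ℕ) [SqK k] (b : Ideal (OO k)), b ≠ ⊥ → ∀ Q : Ideal ZZ, Npr Q → ¬ AbPb k Q →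
    ∀ z : ℂ, IK Q b z → IK Q (ppb k * b) z ∧ IK Q (pp k * b) z

/-- The quotient `s2 (a b) / s2 b` in `Om`. -/
def laO {k : ℕ} (a b : Ideal (OO k)) : Om := ofC (s2 (a * b) / s2 b)

/-- MODULE `OddT` (60 lines; from `S_O6`). ODD TORSION. PROOF. `1 = v + 2 u`, `v ∈ a`. (1) `z = toC v z + toC u (2 z)`.
(2) `NI a` is odd: `S_O6` (3). -/
def S_OddT : Prop :=
  ∀ (k : ℕ) [SqK k] (a b : Ideal (OO k)), a ≠ ⊥ → b ≠ ⊥ → PrI a 2 →
    (∀ z ∈ Lam (a * b), 2 * z ∈ Lam b → z ∈ Lam b) ∧ Odd (NI a)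

open Classical in
/-- MODULE `PrC` (150 lines; from `S_L3`, `S_L6`, `S_OddT`, `S_B1`, `S_B8`, `S_XOm`, `S_R4`, `S_R5a`). THE PRODUCT FORMULA AND ITS CONSTANT. PROOF.
`laO a b` is algebraic (`S_R5a`), so `io (laO a b) = s2 (a b)/s2 b ≠ 0`. Let `C_T := laO a b * ∏ (u ∈ R) (if u ∈ Lam b then 1 else xO b u - xO b T)`.
`S_B8` (through `io`; the points of `R` and `z + u` are torsion points) for `T`: (*) `∏ (xO b (z + u) - xO b T) = C_T (xO (a b) z - xO (a b) T)`, and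
`C_T ≠ 0`. For `T = S = ptS b` the value `xO b S = 0`, and `xO (a b) S = 0` (`S_L6`: `ptS (a b) - ptS b ∈ Lam (a b)`); similarly
`xO (a b) T = -1/4`, `xO (a b) (S + T) = - 4 d'`, `d' = dO (a b)`. For `u ∉ Lam b`, `u ∈ Lam (a b)` (odd order): `u`, `u ± T`, .. are not of
order two. (1) (*) for `S` at `z = T`: the factor of the lattice point of `R` is `-1/4`; for the other `u`:
`xO b (u + T) (4 xO b u + 1) = - (xO b u + 4 d)`, so `xO b (u + T) = (-1/4) (xO b u + 4 d)/(xO b u + 1/4)`, and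
`(-1/4) ^ n C_R = (-1/4) C_S C_T` after clearing (`C_R`, `C_T` the constants for `S + T` and `T`; `n = R.card = NI a`; the factor `laO` cancels).
(2) (*) for `S` at `z = S + T`: `xO b (u + S + T) = d/xO b (u + T)` (translation by `S`), so
`xO b (u + S + T) = (-4 d)(xO b u + 1/4)/(xO b u + 4 d)` and `(-4 d) ^ n C_T = (- 4 d') C_S C_R`. Multiply: `d ^ n = C_S ^ 2 d'`. -/
def S_PrC : Prop :=
  ∀ (k : ℕ) [SqK k] (a b : Ideal (OO k)), a ≠ ⊥ → b ≠ ⊥ → PrI a 2 → ∀ R : Finset ℂ, IsSys a b R →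
    io (laO a b) = s2 (a * b) / s2 b ∧
    ∃ C : Om, C ≠ 0 ∧ C = laO a b * ∏ u ∈ R, (if u ∈ Lam b then 1 else xO b u) ∧
      C ^ 2 * dO (a * b) = dO b ^ NI a ∧
      ∀ z : ℂ, Tor k z → z ∉ Lam (a * b) → ∏ u ∈ R, xO b (z + u) = C * xO (a * b) z

open Classical in
/-- MODULE `KNq` (130 lines; from `S_L3`, `S_OddT`, `S_XOm`, `S_DUn`, `S_KSub`, `S_KRed`, `S_KSep`, `S_KTST`, `S_PrC`). ISOGENIES OF ODD DEGREE. PROOF. `C` is a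
unit (`C ^ 2 = d ^ n/d'`, `UP.of_pow`). FACT: for `u ∈ Lam (a b)`, `¬ IK u`: `x u` is a unit: it is in `V`, and if it is in `m`, `x u - x S ∈ m`
(`S = ptS b`), so `u + S` or `u - S` is in the kernel (`S_KSep`), twice it: `2 u ± 2 S` is in the kernel (`S_KSub`), `2 u` is in the
kernel; `n = NI a` is odd and `n u ∈ Lam b` (`NI a ∈ a`), so `u = n u - ((n-1)/2) (2 u)` is in the kernel (`S_KSub`), a contradiction. (1) follows.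
(2) Let `z` be in the kernel (of `b`), `z ∉ Lam (a b)` (otherwise clear), `R` a system, and suppose `xO (a b) z ∈ V`; so the product of the
`x (z + u)` is in `V`. If `IK u` then `IK (z + u)`, `z + u ∉ Lam b`, so `x (z + u) ∉ V`, its inverse is in `m`; if `¬ IK u` then `x (z + u)` is
congruent to `x u`, a unit. The inverse of the product is a product of elements of `V`, one of them in `m` (the `u ∈ R ∩ Lam b`):
so `1 ∈ m`. -/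
def S_KNq : Prop :=
  ∀ (k : ℕ) [SqK k] (a b : Ideal (OO k)), a ≠ ⊥ → b ≠ ⊥ → PrI a 2 → ∀ Q : Ideal ZZ, Npr Q → ¬ AbPb k Q →
    (∀ u ∈ Lam (a * b), ¬ IK Q b u → UP Q (xO b u)) ∧ ∀ z : ℂ, IK Q b z → IK Q (a * b) z

/-- MODULE `KNa` (100 lines; from `S_O4`, `S_XOm`, `S_KN2`, `S_KNq`). ALL ISOGENIES; THE KERNEL IS AN `O`-MODULE. PROOF. Induction on `NI a`
(or on the factorization): if `PrI a 2` use `S_KNq`; otherwise `a ≤ pp` or `a ≤ ppb` (`a ⊔ sp 2 ≠ ⊤` is contained in a maximal ideal which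
contains `2 ∈ pp * ppb`, so it is `pp` or `ppb`: they are maximal), `a = p * a'`, `IK Q b z → IK Q (a' b) z → IK Q (p (a' b)) z`. Second
claim: `v = 0` is clear; for `v ≠ 0`, `IK Q (sp v * b) z` and `z ∈ Lam (sp v * b) ↔ toC v * z ∈ Lam b` (`lam_sp`),
`xO (sp v * b) z = xO b (toC v * z)`. -/
def S_KNa : Prop :=
  ∀ (k : ℕ) [SqK k] (b : Ideal (OO k)), b ≠ ⊥ → ∀ Q : Ideal ZZ, Npr Q → ¬ AbPb k Q →
    (∀ (a : Ideal (OO k)) (z : ℂ), a ≠ ⊥ → IK Q b z → IK Q (a * b) z) ∧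
    ∀ (v : OO k) (z : ℂ), IK Q b z → IK Q b (toC v * z)

/-- MODULE `LaU` (130 lines; from `S_O5`, `S_L3`, `S_B7`, `S_AbQ`, `S_PrC`, `S_KNq`). THE NUMBERS `laO a b`. PROOF. `C` (from `S_PrC`) is a unit. `laO a b = C * ∏ (if u ∈ Lam b then 1 else (x u)⁻¹)`; for `u ∉ Lam b`: if `IK u` then `x u ∉ V`, `(x u)⁻¹ ∈ m`; if
`¬ IK u` then `x u` is a unit (`S_KNq`). So (1), and (3): if some `u ∈ Lam (a b)`, `u ∉ Lam b`, is in the kernel then `laO a b ∈ m` (a representative of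
`u` in `R`), and if none is, `laO a b` is a unit. (2) `a ^ h = sp λ` (`S_O5`), `∏ (i < h) laO a (a ^ i * b) = s2 (a ^ h b)/s2 b = toO λ ^ 2` (`io`, telescoping product,
`S_B7`). If `Abv Q a` fails, `toO λ` is a unit (`S_AbQ`: `Abv Q (a ^ h)` fails) and all factors are in `V`, so all are units. -/
def S_LaU : Prop :=
  ∀ (k : ℕ) [SqK k] (a : Ideal (OO k)), a ≠ ⊥ → PrI a 2 → ∀ Q : Ideal ZZ, Npr Q → ¬ AbPb k Q →
    (∀ b : Ideal (OO k), b ≠ ⊥ → VP Q (laO a b)) ∧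
    (¬ Abv Q a → ∀ b : Ideal (OO k), b ≠ ⊥ → UP Q (laO a b)) ∧
    (∀ b : Ideal (OO k), b ≠ ⊥ →
      ((∃ u ∈ Lam (a * b), u ∉ Lam b ∧ IK Q b u) → MP Q (laO a b)) ∧
      ((∀ u ∈ Lam (a * b), u ∉ Lam b → ¬ IK Q b u) → UP Q (laO a b))) ∧
    ∀ b : Ideal (OO k), b ≠ ⊥ → ∃ (h : ℕ) (la : OO k), 0 < h ∧ a ^ h = sp la ∧ la ≠ 0 ∧
      ∏ i ∈ Finset.range h, laO a (a ^ i * b) = toO la ^ 2

/-- MODULE `KQp` (130 lines; from `S_L3`, `S_L4`, `S_L6`, `S_AbQ`, `S_KNa`, `S_KSub`, `S_KTST`, `S_LaU`). THE KERNEL HAS ONLY `Q`-PRIMARY TORSION. PROOF. Let `IK z`, `¬ MP Q (toO α)`,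
`toC (α β) z ∈ Lam b`, `z' = toC β z`: `IK z'` (`S_KNa`), `toC α z' ∈ Lam b`; suppose `z' ∉ Lam b`. Let `c` be the annihilator of `z'` (`S_L4`):
`α ∈ c`, `c ≠ ⊤`, `c ≤ l`, `l` maximal, `c = l c'`; `¬ Abv Q l` (`α ∈ l`). There is `v ∈ c'`, `v ∉ c` (`c' ≠ c` as `l ≠ ⊤`); `z'' = toC v z'` is in the kernel, not in
`Lam b`, and in `Lam (l b)` (`v l ≤ c`). (1) `PrI l 2`: `S_LaU`: `laO l b ∈ m` (third claim) and it is a unit (second), a contradiction. (2) otherwise `2 ∈ l`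
(`l` maximal), so `l = pp` or `l = ppb` (`pp ppb = sp 2 ≤ l`). `l = ppb`: `z'' - ptS b ∈ Lam b` (`S_L6`), so `IK (ptS b)`, against
`S_KTST`. `l = pp`: `z''` is congruent to `ptT b`, `¬ Abv Q pp`, so `¬ AbP k Q`, `¬ MP Q 2` and `¬ IK (ptT b)`. -/
def S_KQp : Prop :=
  ∀ (k : ℕ) [SqK k] (b : Ideal (OO k)), b ≠ ⊥ → ∀ Q : Ideal ZZ, Npr Q → ¬ AbPb k Q →
    ∀ z : ℂ, IK Q b z → Qp Q b z

/-- MODULE `D1` (20 lines; from `S_KSub`, `S_KRed`, `S_KSep`, `S_KNa`, `S_KQp`): `S_D1`. -/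
abbrev M_D1 : Prop := S_D1

/-- MODULE `D2` (130 lines; from `S_L6`, `S_XOm`, `S_DUn`, `S_KTST`, `S_D1`): `S_D2`. PROOF. `AbP k P` gives `¬ AbPb k P` (`S_DUn` has the hypothesis `¬ AbPb`; use: `wO`, `1 - wO`
both in `m` is impossible). First three claims: `S_KTST`. (4) `¬ IK z`: `X = x z ∈ V`, `z ∉ Lam b`; `z ∉ Lam (pp b)` (otherwise `z - ptT b ∈ Lam b`, `S_L6`, and `IK`). `4 X + 1` is a unit,
`X' (4 X + 1) = (1 + 4 th') ^ 2 X (X + 4 d)`: `X' ∈ V`, and `X' - X ^ 2 ∈ m` (`2 ∈ m`, `th' ∈ V`). (5) a root `y` of the monic quadratic polynomial exists (`Om` is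
algebraically closed); `y ∈ V` (if not `c = y⁻¹ ∈ m`, `1 = - X c + (..) c ^ 2 ∈ m`). (6) `S_D1` (kernel implies `Qp`). (7) `x z ∈ V` by (6);
`z + ptS b ∉ Lam b` (otherwise it is in the kernel), `x (z + ptS b) ∈ V`, and the product of the two is the unit `d`. -/
abbrev M_D2 : Prop := S_D2

/-! ## 3. Kronecker's congruence -/

/-- MODULE `Fer` (100 lines; from `S_AbQ`). FERMAT. PROOF. As `DI/D/BFer.lean`. `l ∈ m` (`S_AbQ`); `n ^ l - n` is divisible by `l` for integers `n`;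
quotients as there. Binomial formula: `add_pow_prime_eq` (`x ± y`). The last claim: `x ^ l - y ^ l` is divisible by `x - y`, induction for products. -/
def S_Fer : Prop :=
  ∀ (k : ℕ) [SqK k] (q : Ideal (OO k)) (l : ℕ), Deg1 q l → l ≠ 2 → ∀ Q : Ideal ZZ, Npr Q → Abv Q q →
    (∀ n m : ℤ, ¬ MP Q (m : Om) → MP Q (((n : Om) / m) ^ l - (n : Om) / m)) ∧
    (∀ x y : Om, VP Q x → VP Q y → MP Q ((x + y) ^ l - (x ^ l + y ^ l)) ∧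
      MP Q ((x - y) ^ l - (x ^ l - y ^ l)) ∧ (MP Q (x - y) → MP Q (x ^ l - y ^ l))) ∧ ¬ MP Q 2 ∧
    ¬ AbPb k Q ∧ PrI q 2

/-- MODULE `D3a` (130 lines; from `S_L3`, `S_L4`, `S_D1`, `S_KNa`, `S_PrC`, `S_KNq`, `S_LaU`, `S_Fer`). THE `q`-TORSION IS IN THE KERNEL. PROOF. Call `b` bad if `laO q b` is a unit. (1) If some `u ∈ Lam (q b)` is not in the kernel
then no `u' ∈ Lam (q b)`, `u' ∉ Lam b`, is in the kernel (`u = toC v u'` modulo `Lam b`: `S_L3` for the generator `u'`: `q` is a prime ideal, so maximal, and every `u' ∉ Lam b` is a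
generator; `S_D1`), so `b` is bad (`S_LaU`). (2) If `b` is bad then `q b` is bad: by `S_LaU` (3) it is enough that no `w ∈ Lam (q (q b))`, `w ∉ Lam (q b)`, is in the kernel of `q b` (if `laO q (q b)` is not a
unit there is such a `w`: (3) of `S_LaU`). Suppose `IK Q (q b) w`: `xO (q b) w ∉ V`; the product formula `∏ (u ∈ R) xO b (w + u) = C xO (q b) w`, `C` a unit, gives `u ∈ R` with
`xO b (w + u) ∉ V`, so `w' = w + u ∈ Lam (q q b)` is in the kernel of `b`, `w' ∉ Lam (q b)`. There is `v ∈ q` with `toC v w' ∉ Lam b` (else `w' ∈ Lam (q b)`, `lam_prod`), and `toC v w' ∈ Lam (q b)`; it is in the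
kernel (`S_D1`), not in `Lam b`: `laO q b ∈ m` (`S_LaU`), a contradiction. (3) If `b` is bad, so are all `q ^ i b`, and the product `toO la ^ 2` (last claim of `S_LaU`) is a unit, but `la ∈ q ^ h ≤ q`, `Abv Q q`: `MP Q (toO la)`. -/
def S_D3a : Prop :=
  ∀ (k : ℕ) [SqK k] (q : Ideal (OO k)) (l : ℕ), Deg1 q l → l ≠ 2 → ∀ Q : Ideal ZZ, Npr Q → Abv Q q →
    ∀ b : Ideal (OO k), b ≠ ⊥ → (∀ u ∈ Lam (q * b), IK Q b u) ∧ MP Q (laO q b)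

/-- MODULE `D3` (130 lines; from `S_L3`, `S_L6`, `S_XOm`, `S_DUn`, `S_KTST`, `S_D1`, `S_PrC`, `S_Fer`, `S_D3a`): `S_D3`. PROOF. `n = NI q = l`. Let `¬ IK Q b z`, `Tor z`; `z ∉ Lam (q b)` (`S_D3a`); `R` a system: `x (z + u) - x z ∈ m` (`S_D1`), so
`(x z) ^ l - C xO (q b) z ∈ m` (*) (induction on the finset; all factors in `V`). At `z = ptT b` (not in the kernel: `S_KTST`): `xO (q b) (ptT b) = - 1/4` (`S_L6`: `ptT (q b) - ptT b ∈ Lam (q b)`, `S_XOm`) and `(-1/4) ^ l + 1/4 ∈ m` (`S_Fer`):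
`C - 1 ∈ m` (`4` is a unit). So `C ^ 2 - 1 ∈ m` and `C ^ 2 dO (q b) = dO b ^ l` gives the second claim (`dO (q b) ∈ V`). By (*) `C xO (q b) z ∈ V`, so `xO (q b) z ∈ V` (not in the kernel as `z ∉ Lam (q b)`) and it is congruent to
`(x z) ^ l`. -/
abbrev M_D3 : Prop := S_D3

/-- MODULE `Ref` (150 lines; from `S_XOm`, `S_DUn`). THE FILTRATION OF THE KERNEL, ADDITION ONLY. PROOF. As the first part of `DI/D/BRef.lean` (`Pool.Agent.DI.DB.S_Ref`, docstring in `DI/D/SpecB.lean`; the private lemmas `BRef_dbl`, `BRef_add`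
are pure algebra), with `b2 = 1 + 16 d`, `b4 = 2 d`, `b6 = 0`, `b8 = - d ^ 2`. -/
def S_Ref : Prop :=
  ∀ (k : ℕ) [SqK k] (b : Ideal (OO k)), b ≠ ⊥ → ∀ Q : Ideal ZZ, Npr Q → ¬ AbPb k Q → ∀ t : Om, MP Q t →
    ∀ z z' : ℂ, (Tor k z ∧ (z ∈ Lam b ∨ (xO b z ≠ 0 ∧ TP Q t (xO b z)⁻¹))) →
      (Tor k z' ∧ (z' ∈ Lam b ∨ (xO b z' ≠ 0 ∧ TP Q t (xO b z')⁻¹))) →
      Tor k (z + z') ∧ (z + z' ∈ Lam b ∨ (xO b (z + z') ≠ 0 ∧ TP Q t (xO b (z + z'))⁻¹))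

open Classical in
/-- MODULE `D4` (130 lines; from `S_L3`, `S_B7`, `S_XOm`, `S_D1`, `S_PrC`, `S_Fer`, `S_D3a`, `S_Ref`): `S_D4`. PROOF. `q = sp la`. All `u' ∈ Lam (q b)`, `u' ∉ Lam b`, are in the kernel: `x u' ∉ V`, `x u' ≠ 0`. Every such `u'` is `n u` modulo `Lam b` with an integer `n > 0`
(`S_L3`: `u' = toC v u`, `O/q = F_l`: `v - n ∈ q`). With `t = (x u)⁻¹ ∈ m`: `S_Ref` and induction: `(x u')⁻¹ = t y`, `y ∈ V`: `x u/x u' ∈ V`; by symmetry `x u'/x u` is a unit. `C = laO q b * ∏ (..)` and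
`laO q b = toO la ^ 2` (`S_B7`), `l - 1` factors: `toO la ^ 2 (x u) ^ (l - 1)` is a unit (`C` is a unit), it is the square of `toO la (x u) ^ ((l - 1)/2)` (`l` odd), `UP.of_pow`. -/
abbrev M_D4 : Prop := S_D4

/-! ## 4. The theta function -/

/-- MODULE `HsP` (100 lines; from `S_O3`, `S_L2`). PRODUCTS OVER HALF SYSTEMS. PROOF. (1) As the proof in `DI/D/D8.lean` (`Finset.prod_bij`). (2) Two classes give the same product. (3) The set `{z : toC α z ∈ ..}`: direct from the definitions, `lam_sp`: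
`u ↦ toC α u` maps half systems of `(m, sp α * b)` to half systems of `(m, b)`. (4) `z ∈ Lam (m (a b))`: `z = z' + z''` with `z' ∈ Lam (m b)`, `z'' ∈ Lam (a b)` (`1 = v + v'`, `v ∈ a`, `v' ∈ m`: `z = toC v z + toC v' z`), and
`Lam (m b) ∩ Lam (a b) = Lam b`. (5) `cjI m * cjI b = cjI (m * b)` (`S_O3`), `z ∈ Lam (cjI b) ↔ conj z ∈ Lam b` (`S_L2`), `cjI (cjI b) = b`. -/
def S_HsP : Prop :=
  ∀ (k : ℕ) [SqK k] (m b : Ideal (OO k)), m ≠ ⊥ → b ≠ ⊥ → PrI m 2 →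
    (∀ (S S' : Finset ℂ), IsHalf m b S → IsHalf m b S' → ∀ F : ℂ → Om,
      (∀ z ∈ Lam (m * b), F (-z) = F z ∧ ∀ l ∈ Lam b, F (z + l) = F z) →
      ∏ u ∈ S, F u = ∏ u ∈ S', F u) ∧
    (∀ (α : OO k) (S : Finset ℂ), α ≠ 0 → IsHalf m (sp α * b) S →
      IsHalf m b (S.image fun u => toC α * u)) ∧
    (∀ (a : Ideal (OO k)) (S : Finset ℂ), a ≠ ⊥ → a ⊔ m = ⊤ → IsHalf m b S → IsHalf m (a * b) S) ∧
    (∀ (v : OO k) (S : Finset ℂ), sp v ⊔ m = ⊤ → IsHalf m b S → IsHalf m b (S.image fun u => toC v * u)) ∧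
    ∀ (S : Finset ℂ), IsHalf m b S →
      IsHalf (cjI m) (cjI b) (S.image fun u => (starRingEnd ℂ) u)

/-- The cube root of `Theta`. -/
def th0 {k : ℕ} (m b : Ideal (OO k)) (z : ℂ) : Om :=
  ∏ u ∈ hs m b, W2 b u * ((xO b z - xO b u) ^ 3)⁻¹

/-- MODULE `D8a` (130 lines; from `S_L2`, `S_B14`, `S_XOm`, `S_HsP`). `S_D8` AND THE SAME FOR `th0`. PROOF. `Theta m b z = th0 m b z ^ 3` (`Finset.prod_pow`). First claims: `S_HsP` (1) with `F u = W2 b u * ((xO b z - xO b u) ^ 3)⁻¹` (even and periodic: `S_XOm`).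
Homogeneity: `S_HsP` (2), `Finset.prod_image`. Not `0`: `W2 b u ≠ 0` for `u ∈ hs m b`: `xO b u` is different from `0`, `-4 d`, `-1/4`, the values at the points of order two (`S_XOm`: injectivity; `2 u ∉ Lam b` as `m` is odd), and `xO b z ≠ xO b u`
(otherwise `z ± u ∈ Lam b`, `z ∈ Lam (m b)`). -/
def S_D8a : Prop :=
  ∀ (k : ℕ) [SqK k] (m b : Ideal (OO k)), m ≠ ⊥ → b ≠ ⊥ → PrI m 2 →
    (∀ z : ℂ, Theta m b z = th0 m b z ^ 3) ∧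
    (∀ S : Finset ℂ, IsHalf m b S → ∀ z : ℂ,
      ∏ u ∈ S, W2 b u * ((xO b z - xO b u) ^ 3)⁻¹ = th0 m b z) ∧
    (∀ z : ℂ, th0 m b (-z) = th0 m b z ∧ ∀ l ∈ Lam b, th0 m b (z + l) = th0 m b z) ∧
    (∀ (α : OO k) (z : ℂ), α ≠ 0 → th0 m (sp α * b) z = th0 m b (toC α * z)) ∧
    ∀ z : ℂ, Tor k z → z ∉ Lam (m * b) → th0 m b z ≠ 0

/-- MODULE `D8` (30 lines; from `S_D8a`): `S_D8`. PROOF. Cubes (`Finset.prod_pow`). -/
abbrev M_D8 : Prop := S_D8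

/-- MODULE `ThU` (150 lines; from `S_L4`, `S_L6`, `S_B14`, `S_XOm`, `S_DUn`, `S_KSub`, `S_KSep`, `S_KTST`, `S_KNq`, `S_D1`, `S_D2`). THE FACTORS ARE UNITS, `Q` NOT ABOVE `𝔭̄`. PROOF. `¬ Qp (z + u)` for all `u ∈ Lam (m b)`, so (`S_D1`) `¬ IK z`, `¬ IK (z ± u)`; `xO b z ∈ V`. Let `u ∈ Lam (m b)`, `u ∉ Lam b`. CASE 1:
`IK u`. Then `¬ MP Q 2`: if `AbP k Q`, `IK u` implies `Qp u`; `m` contains an odd integer (`m ⊔ sp 2 = ⊤`, norms) `n`, which is a unit at `Q`, `n u ∈ Lam b`, so `u ∈ Lam b`, a contradiction. `X = xO b u ∉ V`, `a = X⁻¹ ∈ m`: `W2 b u = 4 X ^ 3 (1 + 4 d a) (1 + a/4)` and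
`xO b z - X = - X (1 - a xO b z)`: the quotient is `-4` times a unit. CASE 2: `¬ IK u`: `X ∈ V` is a unit (`S_KNq` (1)). `X + 4 d` is a unit: if it is in `m`, `X - x(S + T) ∈ m`, so (`S_KSep`) `u ± (S + T)` is in the kernel, `2 u` is, and as in `S_KNq` `u` is. `4 X + 1` is a unit: clear
if `MP Q 2`; otherwise the same with `T` (`xO b T = -1/4`, `¬ IK T`). So `W2 b u` is a unit; `xO b z - X` is a unit by `S_KSep` (`¬ IK (z ± u)`). -/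
def S_ThU : Prop :=
  ∀ (k : ℕ) [SqK k] (m b : Ideal (OO k)), m ≠ ⊥ → b ≠ ⊥ → PrI m 2 → ∀ Q : Ideal ZZ, Npr Q → ¬ AbPb k Q →
    ∀ z : ℂ, Tor k z → (∀ u ∈ Lam (m * b), ¬ Qp Q b (z + u)) → ¬ IK Q b z ∧ VP Q (xO b z) ∧
      ∀ u ∈ Lam (m * b), u ∉ Lam b → UP Q (W2 b u * ((xO b z - xO b u) ^ 3)⁻¹) ∧
        (¬ IK Q b u → VP Q (xO b u) ∧ UP Q (W2 b u) ∧ UP Q (xO b z - xO b u))

/-- MODULE `QpC` (80 lines; from `S_O3`, `S_L2`, `S_R4`). CONJUGATION. PROOF. `c • Q` contains `c x` iff `Q` contains `x`; `c (toO v) = toO (cjO v)` (apply `io`: `conj_toC`), so `MP (c • Q) (toO (cjO v)) ↔ MP Q (toO v)`; `S_L2`: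
`z ∈ Lam (cjI b) ↔ conj z ∈ Lam b`; `cjI (cjI b) = b`. -/
def S_QpC : Prop :=
  ∀ (k : ℕ) [SqK k] (c : Gal(Om/ℚ)), (∀ x : Om, io (c x) = (starRingEnd ℂ) (io x)) →
    ∀ (Q : Ideal ZZ) (b : Ideal (OO k)) (z : ℂ), Npr Q → b ≠ ⊥ →
      (Qp (c • Q) (cjI b) ((starRingEnd ℂ) z) ↔ Qp Q b z) ∧ Npr (c • Q) ∧ (∀ v : OO k, c (toO v) = toO (cjO v)) ∧
      (∀ a : Ideal (OO k), Abv (c • Q) (cjI a) ↔ Abv Q a) ∧ (Tor k ((starRingEnd ℂ) z) ↔ Tor k z) ∧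
      ∀ c' : Gal(Om/ℚ), (∀ x : Om, io (c' x) = (starRingEnd ℂ) (io x)) → c' = c ∧ ∀ x : Om, c (c x) = x

/-- MODULE `ThC` (100 lines; from `S_L2`, `S_O3`, `S_B7`, `S_B14`, `S_R4`, `S_HsP`, `S_D8a`). CONJUGATION OF THETA. PROOF. `c` as in `S_R4` (it is determined by the first property and the injectivity of `io`). With `X' = xO (cjI b) (conj u)`: `c (xO b u) = - X' - 1/4`, `c (dO b) = (1 - 16 d')/16`, so
`c (W2 b u) = (-X' - 1/4) (- X' - 1/4 + (1 - 16 d')/4) (-4 X' - 1 + 1) = - X' (X' + 4 d') (4 X' + 1)` and `c ((xO b z - xO b u) ^ 3) = - (X'(z) - X'(u)) ^ 3`. The conjugates of `hs m b` are a half system for `(cjI m, cjI b)` (`S_HsP`). -/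
def S_ThC : Prop :=
  ∀ (k : ℕ) [SqK k] (c : Gal(Om/ℚ)), (∀ x : Om, io (c x) = (starRingEnd ℂ) (io x)) →
    ∀ m b : Ideal (OO k), m ≠ ⊥ → b ≠ ⊥ → PrI m 2 → ∀ z : ℂ, Tor k z → z ∉ Lam b →
      c (Theta m b z) = Theta (cjI m) (cjI b) ((starRingEnd ℂ) z)

/-- MODULE `D5` (80 lines; from `S_O3`, `S_B14`, `S_R4`, `S_AbQ`, `S_ThU`, `S_QpC`, `S_ThC`): `S_D5`. PROOF. `¬ AbPb k Q`: `Theta` is a product of cubes of units (`S_ThU`, `UP.prod`). `AbPb k Q`: `c • Q` is above `𝔭` (`S_R4`), so not above `𝔭̄`; `z ∉ Lam b` (`Qp` holds for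
lattice points; `u = 0`); the hypothesis for `(c • Q, cjI m, cjI b, conj z)` by `S_QpC` (`u' ∈ Lam (cjI m * cjI b)` is `conj u`); so `Theta (cjI m) (cjI b) (conj z) = c (Theta m b z)` is a unit at `c • Q`: `UP.smul`. -/
abbrev M_D5 : Prop := S_D5

/-- MODULE `D6` (150 lines; from `S_B14`, `S_XOm`, `S_AbQ`, `S_Fer`, `S_D1`, `S_D3`, `S_HsP`, `S_D8`, `S_ThU`): `S_D6`. PROOF. `¬ MP Q 2`, so `¬ AbPb k Q`. For `u ∈ hs m b`: `¬ IK u` (`IK u` implies `Qp u`; some `α ∈ m` has `¬ MP Q (toO α)`, `toC α u ∈ Lam b`, so `u ∈ Lam b`). (1) `xO b (z + z') - xO b z ∈ m` (`S_D1`; `¬ IK z`), the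
differences `xO b z - xO b u` are units (`S_ThU`), so the inverses of the cubes are congruent, and the products. (2) `q ⊔ m = ⊤` (`q` maximal, `m ≤ q` would give `Abv Q m`). `hs m b` is a half system for `(m, q b)` (`S_HsP`), so `Theta m (q b) z` is the product over `hs m b` (`S_D8` (1)).
`S_D3`: `xO (q b) z ≡ (xO b z) ^ l`, `xO (q b) u ≡ (xO b u) ^ l`, `dO (q b) ≡ (dO b) ^ l`, so (`S_Fer`, with `(4 : Om) ^ l ≡ 4`) `W2 (q b) u ≡ (W2 b u) ^ l`, `xO (q b) z - xO (q b) u ≡ (xO b z - xO b u) ^ l`; units. -/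
abbrev M_D6 : Prop := S_D6

/-- MODULE `Dis` (150 lines; from `S_L3`, `S_L4`, `S_B14`, `S_B16`, `S_XOm`, `S_R4`, `S_D8a`). DISTRIBUTION UP TO A CONSTANT, AND THE CASE OF `2`. PROOF. (1) `io` of both sides: `io (∏ (v ∈ R) th0 m b (z + v)) = (∏ (u) W2)^n / (∏∏ (XC b (z + v) - XC b u)) ^ 3` and `S_B16`; the constant is a complex number `C ≠ 0`
(depends on `R` only through the factor; for another system `R'` the left side is the same by periodicity); it is in the image of `io`: divide at one torsion point `z ∉ Lam (l m b)` (`z = 1/(4 n)`, `n ∈ l m b` a positive integer: `n z = 1/4`; `exists_nat`). -/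
def S_Dis : Prop :=
  ∀ (k : ℕ) [SqK k] (m b : Ideal (OO k)), m ≠ ⊥ → b ≠ ⊥ → PrI m 2 →
    (∀ l : Ideal (OO k), l ≠ ⊥ → l ⊔ m = ⊤ → ∃ C : Om, C ≠ 0 ∧ ∀ R : Finset ℂ, IsSys l b R →
      ∀ z : ℂ, Tor k z → z ∉ Lam (l * m * b) →
        ∏ v ∈ R, th0 m b (z + v) = C * th0 m (l * b) z) ∧
    ∀ c : Ideal (OO k), c ≠ ⊥ → ∃ z : ℂ, Tor k z ∧ 2 * z ∉ Lam c

/-- MODULE `Dis2` (130 lines; from `S_L3`, `S_L6`, `S_B14`, `S_B15`, `S_XOm`, `S_R4`, `S_HsP`, `S_D8a`). DISTRIBUTION FOR `2`. PROOF. `{0, T, S, S + T}` (`T = ptT b`, ..) is a system for `sp 2` (`S_L6` (3)); another system gives the same product (periodicity of `th0`). For `u ∈ hs m b`: `2 u ∉ Lam b`, `2 z ∉ Lam b` (as `2 z ∉ Lam (m b)`), `S_B15` in `Om`: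
`∏ (v) (xO b (z + v) - xO b u) = - W2 b u * (xO b (2 z) - xO b (2 u))`. So `∏ (v) th0 m b (z + v) = ∏ (u) (W2 b u) ^ 4 / (- W2 b u (xO b (2 z) - xO b (2 u))) ^ 3 = (-1) ^ card ∏ (u) W2 b u / (xO b (2 z) - xO b (2 u)) ^ 3`. The set `2 hs` is a half system (`S_HsP` (4)), so
`∏ (u) W2 b u = ∏ (u) W2 b (2 u)` (`S_HsP` (1)) and the product is `(-1) ^ card th0 m b (2 z)` (`S_D8a`). -/
def S_Dis2 : Prop :=
  ∀ (k : ℕ) [SqK k] (m b : Ideal (OO k)), m ≠ ⊥ → b ≠ ⊥ → PrI m 2 → ∀ R : Finset ℂ, IsSys (sp 2) b R →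
    ∀ z : ℂ, Tor k z → 2 * z ∉ Lam (m * b) →
      ∏ v ∈ R, th0 m b (z + v) = (-1) ^ (hs m b).card * th0 m b (2 * z)

/-- MODULE `D7` (150 lines; from `S_L3`, `S_L5`, `S_B14`, `S_OddT`, `S_XOm`, `S_D8a`, `S_Dis`, `S_Dis2`): `S_D7`. PROOF. The case of `2`: `S_Dis2` to the third power, `s = (-1) ^ (3 card) = ± 1`. Let `l` be odd, `R` a system, `n = NI l = R.card` (odd), `C` the constant of `S_Dis`. `card (hs m b) = card (hs m (l b))` (`S_B14`). Let `R₂` be a system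
for `sp 2` over `b`; it is a system for `sp 2` over `l b` too (`S_L5` with `N = 2`, `a = l`). Choose a torsion point `z` with `2 z ∉ Lam (l m b)` (`S_Dis`). `∏ (t ∈ R₂) ∏ (v ∈ R) th0 m b (z + v + t)`: on one side it is
`∏ (v) ((-1) ^ c th0 m b (2 (z + v))) = (-1) ^ (c n) ∏ (v ∈ 2 R) th0 m b (2 z + v)` and `2 R` is a system for `l` (`l` odd), so it is `(-1) ^ (c n) C th0 m (l b) (2 z)`; on the other side `∏ (t) C th0 m (l b) (z + t) = C ^ 4 (-1) ^ c th0 m (l b) (2 z)`. `th0 ≠ 0`, `n` odd: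
`C ^ 3 = 1`. The cube of the relation of `S_Dis` is the claim. -/
abbrev M_D7 : Prop := S_D7

/-! ## 5. The framing and `g` at the primes above `2` -/

/-- `℘'(z)/(s2 fr)`, an element of `Om` for torsion points. -/
def wfO {k : ℕ} (f : ℕ) (b : Ideal (OO k)) (z : ℂ) : Om := ofC (wdC b z / (s2 b * fr f b))

/-- MODULE `DLg` (100 lines; from `S_L3`, `S_L6`, `S_B1`, `S_B2`, `S_B8`). THE LOGARITHMIC DERIVATIVE OF THE PRODUCT FORMULA. PROOF. `S_B8` for `T = ptS b` (`XC b T = 0`, `XC (a b) T = 0`: `ptS (a b) - ptS b ∈ Lam (a b)`): `∏ XC b (y + u) = C XC (a b) y` for all `y ∉ Lam (a b)`, `C ≠ 0`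
(`s2 ≠ 0`, the factors are `≠ 0` by the last claim of `S_B8`). The set of these `y` is open (the complement of a lattice); differentiate at `z` (`HasDerivAt.finset_prod`, `S_B2`: `XC` has the derivative `wdC/s2`), divide by the product, which is `≠ 0` as `XC (a b) z ≠ 0`. -/
def S_DLg : Prop :=
  ∀ (k : ℕ) [SqK k] (a b : Ideal (OO k)), a ≠ ⊥ → b ≠ ⊥ → PrI a 2 → ∀ R : Finset ℂ, IsSys a b R →
    ∀ z : ℂ, z ∉ Lam (a * b) → XC (a * b) z ≠ 0 →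
      (∀ u ∈ R, XC b (z + u) ≠ 0) ∧
      ∑ u ∈ R, wdC b (z + u) / (s2 b * XC b (z + u)) = wdC (a * b) z / (s2 (a * b) * XC (a * b) z)

/-- MODULE `Wf` (120 lines; from `S_L3`, `S_B1`, `S_B2`, `S_B11`, `S_B14`, `S_R1`, `S_R4`, `S_R5`, `S_R5b`, `S_DLg`). THE FUNCTION `wfO`. PROOF. `(wdC/(s2 fr)) ^ 2 = s2 W2(z)/fr ^ 2 = W2(z) W2(1/f)/N ^ 2` (`S_B2`, `S_R5b`), so it is algebraic and (1). (2): `S_DLg` divided by `fr f b`. (3): `S_B11` (`wdC b z/(fr s2 (XC b z - XC b u))`). -/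
def S_Wf : Prop :=
  ∀ (k : ℕ) [SqK k] (f : ℕ) (b : Ideal (OO k)), Odd f → 3 ≤ f → b ≠ ⊥ → PrI b f →
    (∀ z : ℂ, Tor k z → z ∉ Lam b → io (wfO f b z) = wdC b z / (s2 b * fr f b) ∧
      wfO f b z ^ 2 * (6 * xO b (1 / f) ^ 2 + (1 + 16 * dO b) * xO b (1 / f) + 2 * dO b) ^ 2 =
        W2 b z * W2 b (1 / f)) ∧
    (∀ a : Ideal (OO k), a ≠ ⊥ → PrI a 2 → PrI a f → ∀ R : Finset ℂ, IsSys a b R → ∀ z : ℂ, Tor k z →
      z ∉ Lam (a * b) → xO (a * b) z ≠ 0 → (∀ u ∈ R, xO b (z + u) ≠ 0) ∧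
        rO f b (a * b) * (wfO f (a * b) z / xO (a * b) z) = ∑ u ∈ R, wfO f b (z + u) / xO b (z + u)) ∧
    ∀ m : Ideal (OO k), m ≠ ⊥ → PrI m 2 → PrI m f → ∀ z : ℂ, Tor k z → z ∉ Lam (m * b) →
      gO f m b z = ∑ u ∈ hs m b, wfO f b z * (xO b z - xO b u)⁻¹

/-- MODULE `Wf2` (130 lines; from `S_R5b`, `S_XOm`, `S_DUn`, `S_D1`, `S_D2`, `S_Wf`). MODULO `2`, ABOVE `𝔭`. PROOF. `X₁ = xO b (1/f)` is a unit (proof of `S_R5b`: `1/f` is not `P`-primary and `¬ IK (1/f + ptS b)`; `S_D2` (7)). `N = X₁ (1 + 2 y)`, `y = 3 X₁ + 8 d + d/X₁ ∈ V`, so `N ^ 2 = X₁ ^ 2 (1 + 4 ..)`, `W2 b (1/f) = X₁ ^ 2 (1 + 4 d/X₁) (4 X₁ + 1)`: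
the quotient `E = W2 b (1/f)/N ^ 2` is `1` modulo `4 V`. (2) `X = xO b z ∈ V`: `wfO ^ 2 = X (X + 4 d) (4 X + 1) E`, so `wfO ^ 2 - X ^ 2 ∈ 4 V`: with `y = (wfO - X)/2`: `y (y + X) ∈ V`, so `y ∈ V` (if `y ∉ V` then `y + X ∉ V`, the product is not in `V`). (3) if `X` is a unit divide. (1) follows from
`fr ^ 2 W2(1/f) = s2 N ^ 2`. -/
def S_Wf2 : Prop :=
  ∀ (k : ℕ) [SqK k] (f : ℕ) (b : Ideal (OO k)), Odd f → 3 ≤ f → b ≠ ⊥ → PrI b f → ∀ P : Ideal ZZ,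
    AbP k P →
    UP P (xO b (1 / f)) ∧
    (∃ E : Om, TP P 4 (E - 1) ∧ E ≠ 0 ∧ fr f b ^ 2 * io E = s2 b) ∧
    (∀ z : ℂ, Tor k z → ¬ IK P b z → TP P 2 (wfO f b z - xO b z)) ∧
    ∀ z : ℂ, Tor k z → ¬ IK P b z → ¬ IK P b (z + ptS b) → TP P 2 (wfO f b z / xO b z - 1)

/-- MODULE `D9a` (150 lines; from `S_O4`, `S_O6`, `S_L3`, `S_L6`, `S_B1`, `S_B5`, `S_B6`, `S_OddT`, `S_R1`, `S_R5`, `S_XOm`, `S_DUn`, `S_D1`, `S_D2`, `S_Wf`, `S_Wf2`). ÉTALE ISOGENIES, ABOVE `𝔭`. PROOF. `rO f b c = rO f b b' * rO f b' c` (`io`, `S_R5`). (1) `a` odd: `S_Wf` (2) at `z = 1/f` (`z ∉ Lam (a b)` as `a b` is prime to `f`): the points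
`1/f + u` are torsion points of odd order, not in `Lam b`: not in the kernel (`Qp`), and `¬ IK (1/f + u + ptS b)` (twice it: `2/f + 2 u` would be in the kernel); so `wfO/xO` is `1` modulo `2` at all of them and at `(a b, 1/f)`; the number of terms is odd (`S_OddT`): `rO f b (a b) - 1 ∈ 2 V`. (2) `a = ppb`:
`rO ^ 2 = (s2 (ppb b)/s2 b) (E/E')`-type formula: `io (rO) ^ 2 = fr' ^ 2/fr ^ 2 = (s2'/s2) io E/io E'` (`S_Wf2` (2)), `s2' = (1 + 4 ThC b) ^ 2 s2` (`S_B5`): `rO ^ 2 - 1 ∈ 4 V`, so `rO - 1 ∈ 2 V` (`y = (rO - 1)/2`, `y (y + 1) ∈ V`). (3) General `a` with `¬ a ≤ pp`: `a = ppb ^ j a'`, `a'` odd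
(`S_O4`; induction). (4) The second claim: `(2 rO f (pp b) b) ^ 2 = 4 s2 b E'/(s2 (pp b) E) = (1 + 4 ThC (pp b)) ^ 2 E'/E`. -/
def S_D9a : Prop :=
  ∀ (k : ℕ) [SqK k] (f : ℕ), Odd f → 3 ≤ f → ∀ P : Ideal ZZ, AbP k P →
    (∀ a b : Ideal (OO k), a ≠ ⊥ → b ≠ ⊥ → PrI a f → PrI b f → ¬ a ≤ pp k →
      TP P 2 (rO f b (a * b) - 1)) ∧
    ∀ b : Ideal (OO k), b ≠ ⊥ → PrI b f → TP P 2 (rO f (pp k * b) b * 2 - 1)

/-- MODULE `D9b` (80 lines; from `S_B14`, `S_XOm`, `S_DUn`, `S_D1`, `S_ThU`, `S_Wf`, `S_Wf2`). `g` ABOVE `𝔭`. PROOF. `¬ AbPb k P`. `z ∉ Lam (m b)` (otherwise `z + u ∈ Lam b` is `P`-primary for `u = -z`). `S_Wf` (3); for `u ∈ hs m b`: `¬ IK u` (case 1 in the proof of `S_ThU` does not occur above `𝔭`: `m` is odd), `xO b z - xO b u` is a unit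
(`S_ThU`), and `wfO - xO b z ∈ 2 V` (`S_Wf2` (3)). -/
def S_D9b : Prop :=
  ∀ (k : ℕ) [SqK k] (f : ℕ), Odd f → 3 ≤ f → ∀ P : Ideal ZZ, AbP k P →
    ∀ m b : Ideal (OO k), m ≠ ⊥ → b ≠ ⊥ → PrI m 2 → PrI m f → PrI b f → ∀ z : ℂ, Tor k z →
      (∀ u ∈ Lam (m * b), ¬ Qp P b (z + u)) →
      VP P (gO f m b z) ∧ TP P 2 (gO f m b z - ∑ u ∈ hs m b, xO b z * (xO b z - xO b u)⁻¹)

/-- MODULE `D9` (120 lines; from `S_O3`, `S_O4`, `S_L2`, `S_B7`, `S_B12`, `S_R4`, `S_R5`, `S_AbQ`, `S_QpC`, `S_D9a`, `S_D9b`): `S_D9`. PROOF. A prime `P` above `2` is above `𝔭` or above `𝔭̄` (`S_AbQ`), not both. Above `𝔭`: `S_D9a`, `S_D9b`. Above `𝔭̄`: `c • P` is above `𝔭` (`S_R4`); `c (rO f b b') = rO f (cjI b) (cjI b')` and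
`c (gO f m b z) = gO f (cjI m) (cjI b) (conj z)` for torsion `z ∉ Lam (m b)` (apply `io`: `S_R5`, `S_B12`, `S_B7`; `NI (cjI m) = NI m`, `cjI (m b) = cjI m * cjI b`); `¬ a ≤ ppb ↔ ¬ cjI a ≤ pp`; `TP`, `VP` are transported by `c` (`VP.smul`). -/
abbrev M_D9 : Prop := S_D9

end Pool.Agent.DK
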